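import Mathlib

/-!
# The binary tree and ways of embedding it

The vertices of the infinite rooted binary tree are the finite words in two letters, the two
children of the word `q` being `false :: q` and `true :: q`.
-/

namespace Pool.Agent.H67

/-- The infinite rooted binary tree: the root is `[]` and the children of `q` are `b :: q`.
Its path metric is `binTree.dist`. -/
def binTree : SimpleGraph (List Bool) :=
  SimpleGraph.fromRel (fun p q : List Bool => ∃ b : Bool, p = b :: q)

/-- The binary tree admits a coarse embedding into `X`. -/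
def CoarseTree (X : Type*) [MetricSpace X] : Prop :=
  ∃ (f : List Bool → X) (rhoL rhoU : ℝ → ℝ),
    Filter.Tendsto rhoL Filter.atTop Filter.atTop ∧
    ∀ u v : List Bool, rhoL (binTree.dist u v : ℝ) ≤ dist (f u) (f v) ∧
      dist (f u) (f v) ≤ rhoU (binTree.dist u v : ℝ)

/-- The binary tree admits a quasi-isometric embedding into `X`. -/
def QuasiIsometricTree (X : Type*) [MetricSpace X] : Prop :=
  ∃ (f : List Bool → X) (c C K : ℝ), 0 < c ∧
    ∀ u v : List Bool, c * (binTree.dist u v : ℝ) - K ≤ dist (f u) (f v) ∧
      dist (f u) (f v) ≤ C * (binTree.dist u v : ℝ) + K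

/-- The binary tree admits a bi-Lipschitz embedding into `X`. -/
def BilipschitzTree (X : Type*) [MetricSpace X] : Prop :=
  ∃ (f : List Bool → X) (c C : ℝ), 0 < c ∧
    ∀ u v : List Bool, c * (binTree.dist u v : ℝ) ≤ dist (f u) (f v) ∧
      dist (f u) (f v) ≤ C * (binTree.dist u v : ℝ)

/-- The binary tree admits a regular map into `X`: a Lipschitz map such that the number of vertices
sent into a ball of radius one is bounded. -/
def RegularTree (X : Type*) [MetricSpace X] : Prop :=
  ∃ (f : List Bool → X) (C : ℝ) (k : ℕ),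
    (∀ u v : List Bool, dist (f u) (f v) ≤ C * (binTree.dist u v : ℝ)) ∧
    ∀ x : X, {w : List Bool | dist (f w) x ≤ 1}.encard ≤ k

/-- The binary tree admits a Lipschitz map into `X` such that the number of vertices *of each
level* sent into a ball of radius one is bounded. -/
def LevelRegularTree (X : Type*) [MetricSpace X] : Prop :=
  ∃ (f : List Bool → X) (C : ℝ) (k : ℕ),
    (∀ u v : List Bool, dist (f u) (f v) ≤ C * (binTree.dist u v : ℝ)) ∧
    ∀ (n : ℕ) (x : X), {w : List Bool | w.length = n ∧ dist (f w) x ≤ 1}.encard ≤ k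

/-- `X` contains a nonempty uniformly discrete subset `A` which expands: for some `R`, every finite
`F ⊆ A` has at least `2 |F|` points of `A` in its `R`-neighbourhood. -/
def ExpandingSubset (X : Type*) [MetricSpace X] : Prop :=
  ∃ (A : Set X) (δ R : ℝ), A.Nonempty ∧ 0 < δ ∧ (∀ a ∈ A, ∀ b ∈ A, a ≠ b → δ ≤ dist a b) ∧
    ∀ F : Finset X, (F : Set X) ⊆ A →
      ((2 * F.card : ℕ) : ℕ∞) ≤ {a : X | a ∈ A ∧ ∃ x ∈ F, dist x a ≤ R}.encard

end Pool.Agent.H67
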