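import Pool.Agent.H67.TreeGraph
import Pool.Agent.H67.TreeDefs

/-!
# Cocompact spaces and the binary tree
-/

set_option autoImplicit false

namespace Pool.Agent.H67

open Finset Classical

/-- Balls of a proper geodesic cocompact space are covered by exponentially few small balls. -/
theorem cover_of_cocompact {X : Type*} [MetricSpace X] [ProperSpace X]
    (hgeo : ∀ x y : X, ∃ γ : ℝ → X, γ 0 = x ∧ γ (dist x y) = y ∧
        ∀ s ∈ Set.Icc (0 : ℝ) (dist x y), ∀ t ∈ Set.Icc (0 : ℝ) (dist x y),
          dist (γ s) (γ t) = |s - t|)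
    (hco : ∃ K : Set X, IsCompact K ∧ ∀ x : X, ∃ g : X ≃ᵢ X, g x ∈ K)
    (ρ : ℝ) (hρ : 0 < ρ) :
    ∃ D : ℕ, ∀ (m : ℕ) (x : X), ∃ T : Finset X, T.card ≤ D ^ m ∧
      Metric.closedBall x (m : ℝ) ⊆ ⋃ y ∈ T, Metric.closedBall y ρ := by
  obtain ⟨K, hK, hcov⟩ := hco
  set ρ0 : ℝ := min ρ (1 / 2) with hρ0
  have hρ0pos : 0 < ρ0 := lt_min hρ (by norm_num)
  have hK1 : IsCompact (Metric.cthickening 1 K) := hK.cthickening
  obtain ⟨T0, -, hT0fin, hT0⟩ := hK1.finite_cover_balls hρ0pos
  set T1 : Finset X := hT0fin.toFinset with hT1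
  have hone : ∀ x : X, ∃ T : Finset X, T.card ≤ T1.card ∧
      Metric.closedBall x 1 ⊆ ⋃ y ∈ T, Metric.closedBall y ρ0 := by
    intro x
    obtain ⟨g, hg⟩ := hcov x
    refine ⟨T1.image g.symm, Finset.card_image_le, ?_⟩
    intro p hp
    have h1 : g p ∈ Metric.cthickening 1 K := by
      apply Metric.mem_cthickening_of_dist_le (g p) (g x) 1 K hg
      rw [g.dist_eq]
      exact hp
    have h2 := hT0 h1
    simp only [Set.mem_iUnion, Metric.mem_ball, exists_prop] at h2
    obtain ⟨y, hy, hpy⟩ := h2
    simp only [Set.mem_iUnion, Metric.mem_closedBall, exists_prop]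
    refine ⟨g.symm y, Finset.mem_image_of_mem _ (hT0fin.mem_toFinset.mpr hy), ?_⟩
    have h3 : dist p (g.symm y) = dist (g p) y := by
      rw [← g.dist_eq p (g.symm y), g.apply_symm_apply]
    rw [h3]
    exact hpy.le
  have hstep : ∀ (m : ℕ) (x : X), ∃ T : Finset X, T.card ≤ T1.card ^ m ∧
      Metric.closedBall x ((m : ℝ) / 2) ⊆ ⋃ y ∈ T, Metric.closedBall y ρ0 := by
    intro m x
    induction m with
    | zero =>
      refine ⟨{x}, by simp, ?_⟩
      intro p hp
      simp only [Nat.cast_zero, zero_div, Metric.closedBall_zero, Set.mem_singleton_iff] at hp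
      subst hp
      simp [hρ0pos.le]
    | succ m ih =>
      obtain ⟨T, hT, hTc⟩ := ih
      choose T' hT' hT'c using hone
      refine ⟨T.biUnion T', ?_, ?_⟩
      · calc (T.biUnion T').card ≤ T.card * T1.card :=
              Finset.card_biUnion_le_card_mul _ _ _ (fun y _ => hT' y)
          _ ≤ T1.card ^ m * T1.card := Nat.mul_le_mul_right _ hT
          _ = T1.card ^ (m + 1) := (pow_succ _ _).symm
      · intro p hp
        rw [Metric.mem_closedBall] at hp
        obtain ⟨p', h1, h2⟩ : ∃ p' : X, dist p' x ≤ (m : ℝ) / 2 ∧ dist p p' ≤ 1 / 2 := by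
          by_cases hd : dist p x ≤ (m : ℝ) / 2
          · exact ⟨p, hd, by rw [dist_self]; norm_num⟩
          · rw [not_le] at hd
            obtain ⟨γ, g0, g1, hγ⟩ := hgeo x p
            have hm0 : (0 : ℝ) ≤ (m : ℝ) / 2 := by positivity
            have hxp : (m : ℝ) / 2 ≤ dist x p := by
              rw [dist_comm]
              exact hd.le
            have e1 := hγ ((m : ℝ) / 2) ⟨hm0, hxp⟩ 0 ⟨le_rfl, hm0.trans hxp⟩
            have e2 := hγ (dist x p) ⟨hm0.trans hxp, le_rfl⟩ ((m : ℝ) / 2) ⟨hm0, hxp⟩
            rw [g0, sub_zero, abs_of_nonneg hm0] at e1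
            rw [g1, abs_of_nonneg (by linarith)] at e2
            refine ⟨γ ((m : ℝ) / 2), e1.le, ?_⟩
            rw [e2, dist_comm]
            push_cast at hp
            linarith
        have h3 := hTc (Metric.mem_closedBall.mpr h1)
        simp only [Set.mem_iUnion, Metric.mem_closedBall, exists_prop] at h3
        obtain ⟨y, hy, hpy⟩ := h3
        have h4 : p ∈ Metric.closedBall y 1 := by
          rw [Metric.mem_closedBall]
          have hle : ρ0 ≤ 1 / 2 := min_le_right _ _
          calc dist p y ≤ dist p p' + dist p' y := dist_triangle _ _ _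
            _ ≤ 1 / 2 + 1 / 2 := add_le_add h2 (hpy.trans hle)
            _ = 1 := by norm_num
        have h5 := hT'c y h4
        simp only [Set.mem_iUnion, exists_prop] at h5 ⊢
        obtain ⟨z, hz, hpz⟩ := h5
        exact ⟨z, Finset.mem_biUnion.mpr ⟨y, hy, hz⟩, hpz⟩
  refine ⟨T1.card ^ 2, fun m x => ?_⟩
  obtain ⟨T, hT, hTc⟩ := hstep (2 * m) x
  refine ⟨T, ?_, ?_⟩
  · rw [← pow_mul]
    exact hT
  · have : (m : ℝ) = ((2 * m : ℕ) : ℝ) / 2 := by
      push_cast
      ring
    rw [this]
    refine hTc.trans ?_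
    apply Set.iUnion₂_mono
    intro y _
    exact Metric.closedBall_subset_closedBall (min_le_left _ _)

section

variable {X : Type*} [MetricSpace X]

theorem binTree_eq : binTree = treeG := rfl

/-- From a levelwise regular map to a bi-Lipschitz embedding. -/
theorem bilip_of_level
    (hD : ∀ ρ : ℝ, 0 < ρ → ∃ D : ℕ, ∀ (m : ℕ) (x : X), ∃ T : Finset X, T.card ≤ D ^ m ∧
      Metric.closedBall x (m : ℝ) ⊆ ⋃ y ∈ T, Metric.closedBall y ρ)
    (f : List Bool → X) (C : ℝ) (hf : ∀ (w : List Bool) (b : Bool), dist (f (b :: w)) (f w) ≤ C)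
    (ρ : ℝ) (hρ : 0 < ρ) (k : ℕ)
    (hk : ∀ (n : ℕ) (x : X), {w : List Bool | w.length = n ∧ dist (f w) x ≤ ρ}.encard ≤ k) :
    BilipschitzTree X := by
  obtain ⟨D, hD'⟩ := hD ρ hρ
  obtain ⟨F, c, c', hc, hF⟩ := exists_bilipschitz f C hf ρ k D (by
    intro n x
    have h1 := hk n x
    have h2 : {w : List Bool | w.length = n ∧ dist (f w) x ≤ ρ} =
        (((lvl Bool n).filter (fun w => dist (f w) x ≤ ρ) : Finset (List Bool)) :
          Set (List Bool)) := by
      ext w
      simp [mem_lvl]
    rw [h2, Set.encard_coe_eq_coe_finsetCard] at h1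
    exact_mod_cast h1) hD'
  exact ⟨F, c, c', hc, hF⟩

/-- From a coarse embedding to a levelwise regular map. -/
theorem level_of_coarse (h : CoarseTree X) : LevelRegularTree X := by
  obtain ⟨f, rhoL, rhoU, hL, hf⟩ := h
  obtain ⟨t0, ht0⟩ := Filter.tendsto_atTop.mp hL 3 |>.exists_forall_of_atTop
  obtain ⟨m, hm⟩ := exists_nat_ge t0
  refine ⟨f, rhoU 1, 2 ^ m, ?_, ?_⟩
  · intro u v
    apply dist_le_of_edges f (rhoU 1)
    intro w b
    have h1 := (hf (b :: w) w).2
    have h2 : binTree.dist (b :: w) w = 1 :=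
      SimpleGraph.dist_eq_one_iff_adj.mpr (treeG_adj_cons b w)
    rw [h2, Nat.cast_one] at h1
    exact h1
  · intro n x
    rcases Set.eq_empty_or_nonempty {w : List Bool | w.length = n ∧ dist (f w) x ≤ 1} with he | hne
    · rw [he, Set.encard_empty]
      exact zero_le
    · obtain ⟨u, hu, hux⟩ := hne
      have hsub : {w : List Bool | w.length = n ∧ dist (f w) x ≤ 1} ⊆
          (((lvl Bool n).filter (fun v => treeG.dist u v ≤ m) : Finset (List Bool)) :
            Set (List Bool)) := by
        rintro v ⟨hv, hvx⟩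
        rw [Finset.mem_coe, Finset.mem_filter, mem_lvl]
        refine ⟨hv, ?_⟩
        by_contra hcon
        rw [not_le] at hcon
        have h1 : t0 ≤ (treeG.dist u v : ℝ) := hm.trans (by exact_mod_cast hcon.le)
        have h2 := ht0 _ h1
        have h3 := (hf u v).1
        have h4 : dist (f u) (f v) ≤ dist (f u) x + dist (f v) x := by
          rw [dist_comm (f v) x]
          exact dist_triangle _ _ _
        have h5 : rhoL (binTree.dist u v : ℝ) = rhoL (treeG.dist u v : ℝ) := rfl
        linarith
      calc _ ≤ ((((lvl Bool n).filter (fun v => treeG.dist u v ≤ m) : Finset (List Bool)) :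
            Set (List Bool))).encard := Set.encard_le_encard hsub
        _ = (((lvl Bool n).filter (fun v => treeG.dist u v ≤ m)).card : ℕ∞) :=
            Set.encard_coe_eq_coe_finsetCard _
        _ ≤ ((2 ^ m : ℕ) : ℕ∞) := by exact_mod_cast card_level_ball n m u hu

/-- A bi-Lipschitz embedding is a regular map. -/
theorem regular_of_bilip (h : BilipschitzTree X) : RegularTree X := by
  obtain ⟨f, c, C, hc, hf⟩ := h
  obtain ⟨m, hm⟩ := exists_nat_ge (2 / c)
  refine ⟨f, C, (2 * m + 1) * 2 ^ (2 * m), fun u v => (hf u v).2, ?_⟩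
  intro x
  rcases Set.eq_empty_or_nonempty {w : List Bool | dist (f w) x ≤ 1} with he | hne
  · rw [he, Set.encard_empty]
    exact zero_le
  · obtain ⟨u, hux⟩ := hne
    have hdist : ∀ v ∈ {w : List Bool | dist (f w) x ≤ 1}, treeG.dist u v ≤ m := by
      intro v hv
      have h1 := (hf u v).1
      have h4 : dist (f u) (f v) ≤ dist (f u) x + dist (f v) x := by
        rw [dist_comm (f v) x]
        exact dist_triangle _ _ _
      have h2 : c * (treeG.dist u v : ℝ) ≤ 2 := by
        have : c * (treeG.dist u v : ℝ) = c * (binTree.dist u v : ℝ) := rfl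
        have hux' : dist (f u) x ≤ 1 := hux
        have hv' : dist (f v) x ≤ 1 := hv
        linarith
      have h3 : (treeG.dist u v : ℝ) ≤ 2 / c := by
        rw [le_div_iff₀ hc]
        linarith
      exact_mod_cast h3.trans hm
    -- lengths differ by at most the distance
    have hlen : ∀ v : List Bool, treeG.dist u v ≤ m → u.length ≤ v.length + m ∧
        v.length ≤ u.length + m := by
      intro v hv
      obtain ⟨p, hp⟩ := (treeG_connected u v).exists_walk_length_eq_dist
      obtain ⟨p', hp'⟩ := (treeG_connected v u).exists_walk_length_eq_dist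
      rw [SimpleGraph.dist_comm] at hp'
      constructor
      · by_contra hcon
        have h1 := suffix_of_walk p (u.drop m) (List.drop_suffix _ _) (by
          rw [List.length_drop]
          omega)
        have h2 := h1.length_le
        rw [List.length_drop] at h2
        omega
      · by_contra hcon
        have h1 := suffix_of_walk p' (v.drop m) (List.drop_suffix _ _) (by
          rw [List.length_drop]
          omega)
        have h2 := h1.length_le
        rw [List.length_drop] at h2
        omega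
    have hlevel : ∀ n : ℕ, ((lvl Bool n).filter (fun v => treeG.dist u v ≤ m)).card ≤
        2 ^ (2 * m) := by
      intro n
      rcases Finset.eq_empty_or_nonempty ((lvl Bool n).filter (fun v => treeG.dist u v ≤ m))
        with he | ⟨v0, hv0⟩
      · rw [he, Finset.card_empty]
        exact Nat.zero_le _
      · rw [Finset.mem_filter, mem_lvl] at hv0
        refine le_trans (Finset.card_le_card ?_) (card_level_ball n (2 * m) v0 hv0.1)
        intro v hv
        rw [Finset.mem_filter] at hv ⊢
        refine ⟨hv.1, ?_⟩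
        have := treeG_connected.dist_triangle (u := v0) (v := u) (w := v)
        rw [SimpleGraph.dist_comm (u := v0) (v := u)] at this
        have h1 := hv0.2
        have h2 := hv.2
        omega
    have hsub : {w : List Bool | dist (f w) x ≤ 1} ⊆
        (((Finset.Icc (u.length - m) (u.length - m + 2 * m)).biUnion
          (fun n => (lvl Bool n).filter (fun v => treeG.dist u v ≤ m)) : Finset (List Bool)) :
            Set (List Bool)) := by
      intro v hv
      have h1 := hdist v hv
      have h2 := hlen v h1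
      rw [Finset.mem_coe, Finset.mem_biUnion]
      refine ⟨v.length, ?_, ?_⟩
      · rw [Finset.mem_Icc]
        omega
      · rw [Finset.mem_filter, mem_lvl]
        exact ⟨rfl, h1⟩
    calc _ ≤ _ := Set.encard_le_encard hsub
      _ = _ := Set.encard_coe_eq_coe_finsetCard _
      _ ≤ (((2 * m + 1) * 2 ^ (2 * m) : ℕ) : ℕ∞) := by
        norm_cast
        refine (Finset.card_biUnion_le_card_mul _ _ _ (fun n _ => hlevel n)).trans ?_
        rw [Nat.card_Icc]
        apply Nat.mul_le_mul_right
        omega

/-- The image of a bi-Lipschitz embedding is an expanding subset. -/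
theorem expanding_of_bilip (h : BilipschitzTree X) : ExpandingSubset X := by
  obtain ⟨f, c, C, hc, hf⟩ := h
  have hsep : ∀ u v : List Bool, u ≠ v → c ≤ dist (f u) (f v) := by
    intro u v huv
    have h1 := (hf u v).1
    have h2 : 1 ≤ binTree.dist u v := by
      have := treeG_connected.pos_dist_of_ne huv
      exact this
    have h3 : (1 : ℝ) ≤ (binTree.dist u v : ℝ) := by exact_mod_cast h2
    nlinarith
  have hinj : Function.Injective f := by
    intro u v huv
    by_contra hne
    have := hsep u v hne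
    rw [huv, dist_self] at this
    linarith
  refine ⟨Set.range f, c, C, ⟨f [], [], rfl⟩, hc, ?_, ?_⟩
  · rintro _ ⟨u, rfl⟩ _ ⟨v, rfl⟩ huv
    exact hsep u v (fun h => huv (by rw [h]))
  · intro F hF
    -- the words sent into F
    let W : Finset (List Bool) := F.preimage f hinj.injOn
    have hWF : W.image f = F := by
      ext x
      rw [Finset.mem_image]
      constructor
      · rintro ⟨w, hw, rfl⟩
        exact Finset.mem_preimage.mp hw
      · intro hx
        obtain ⟨w, rfl⟩ := hF hx
        exact ⟨w, Finset.mem_preimage.mpr hx, rfl⟩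
    have hcard : W.card = F.card := by
      rw [← hWF, Finset.card_image_of_injective _ hinj]
    let V : Finset X := (W ×ˢ (univ : Finset Bool)).image (fun p => f (p.2 :: p.1))
    have hVcard : V.card = 2 * F.card := by
      rw [Finset.card_image_of_injective, Finset.card_product, Finset.card_univ,
        Fintype.card_bool, hcard, mul_comm]
      rintro ⟨w, b⟩ ⟨w', b'⟩ hww
      have := hinj hww
      simp only [List.cons.injEq] at this
      rw [this.1, this.2]
    have hsub : (V : Set X) ⊆ {a : X | a ∈ Set.range f ∧ ∃ x ∈ F, dist x a ≤ C} := by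
      intro a ha
      rw [Finset.mem_coe, Finset.mem_image] at ha
      obtain ⟨⟨w, b⟩, hp, rfl⟩ := ha
      refine ⟨⟨_, rfl⟩, f w, ?_, ?_⟩
      · exact Finset.mem_preimage.mp (Finset.mem_product.mp hp).1
      · have h1 := (hf w (b :: w)).2
        have h2 : binTree.dist w (b :: w) = 1 :=
          SimpleGraph.dist_eq_one_iff_adj.mpr (treeG_adj_cons b w).symm
        rw [h2, Nat.cast_one, mul_one] at h1
        exact h1
    rw [← hVcard, ← Set.encard_coe_eq_coe_finsetCard]
    exact Set.encard_le_encard hsub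

/-- Hall's theorem turns an expanding subset into a levelwise injective Lipschitz map. -/
theorem exists_map_of_expanding {A : Set X} {R : ℝ} (hA : A.Nonempty)
    (hfin : ∀ x : X, {a : X | a ∈ A ∧ dist x a ≤ R}.Finite)
    (hexp : ∀ F : Finset X, (F : Set X) ⊆ A →
      ((2 * F.card : ℕ) : ℕ∞) ≤ {a : X | a ∈ A ∧ ∃ x ∈ F, dist x a ≤ R}.encard) :
    ∃ f : List Bool → X, (∀ w, f w ∈ A) ∧
      (∀ (w : List Bool) (b : Bool), dist (f (b :: w)) (f w) ≤ R) ∧
      ∀ u v : List Bool, u.length = v.length → f u = f v → u = v := by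
  let t : {x // x ∈ A} × Bool → Finset X := fun p => (hfin p.1.1).toFinset
  have hall : ∀ s : Finset ({x // x ∈ A} × Bool), s.card ≤ (s.biUnion t).card := by
    intro s
    let F : Finset X := s.image (fun p => p.1.1)
    have hFA : (F : Set X) ⊆ A := by
      intro x hx
      rw [Finset.mem_coe, Finset.mem_image] at hx
      obtain ⟨p, _, rfl⟩ := hx
      exact p.1.2
    have h1 := hexp F hFA
    have h2 : {a : X | a ∈ A ∧ ∃ x ∈ F, dist x a ≤ R} = ((s.biUnion t : Finset X) : Set X) := by
      ext a
      rw [Finset.mem_coe, Finset.mem_biUnion]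
      constructor
      · rintro ⟨ha, x, hx, hxa⟩
        obtain ⟨p, hp, rfl⟩ := Finset.mem_image.mp hx
        exact ⟨p, hp, (hfin p.1.1).mem_toFinset.mpr ⟨ha, hxa⟩⟩
      · rintro ⟨p, hp, hpa⟩
        have := (hfin p.1.1).mem_toFinset.mp hpa
        exact ⟨this.1, p.1.1, Finset.mem_image_of_mem _ hp, this.2⟩
    rw [h2, Set.encard_coe_eq_coe_finsetCard] at h1
    have h3 : 2 * F.card ≤ (s.biUnion t).card := by exact_mod_cast h1
    have h4 : s.card ≤ F.card * 2 := by
      have : s ⊆ (F.subtype (fun x => x ∈ A)) ×ˢ (univ : Finset Bool) := by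
        intro p hp
        rw [Finset.mem_product]
        refine ⟨?_, Finset.mem_univ _⟩
        rw [Finset.mem_subtype]
        exact Finset.mem_image_of_mem _ hp
      calc s.card ≤ ((F.subtype (fun x => x ∈ A)) ×ˢ (univ : Finset Bool)).card :=
            Finset.card_le_card this
        _ = (F.subtype (fun x => x ∈ A)).card * 2 := by
            rw [Finset.card_product, Finset.card_univ, Fintype.card_bool]
        _ ≤ F.card * 2 := by
            apply Nat.mul_le_mul_right
            rw [Finset.card_subtype]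
            exact Finset.card_filter_le _ _
    omega
  obtain ⟨φ, hφinj, hφ⟩ := (Finset.all_card_le_biUnion_card_iff_exists_injective t).mp hall
  have hφA : ∀ p, φ p ∈ A := fun p => ((hfin p.1.1).mem_toFinset.mp (hφ p)).1
  have hφR : ∀ p, dist p.1.1 (φ p) ≤ R := fun p => ((hfin p.1.1).mem_toFinset.mp (hφ p)).2
  obtain ⟨a0, ha0⟩ := hA
  let F : List Bool → {x // x ∈ A} := fun w =>
    w.foldr (fun b x => ⟨φ (x, b), hφA _⟩) ⟨a0, ha0⟩
  have hF : ∀ b w, (F (b :: w)).1 = φ (F w, b) := fun b w => rfl
  refine ⟨fun w => (F w).1, fun w => (F w).2, ?_, ?_⟩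
  · intro w b
    show dist (F (b :: w)).1 (F w).1 ≤ R
    rw [hF, dist_comm]
    exact hφR (F w, b)
  · intro u
    induction u with
    | nil =>
      intro v hv _
      rw [List.length_nil] at hv
      exact (List.length_eq_zero_iff.mp hv.symm).symm
    | cons b u ih =>
      intro v hv huv
      cases v with
      | nil => simp at hv
      | cons b' v =>
        have h1 : φ (F u, b) = φ (F v, b') := huv
        have h2 := hφinj h1
        rw [Prod.mk.injEq] at h2
        have h3 := ih v (by simpa using hv) (congrArg Subtype.val h2.1)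
        rw [h3, h2.2]

/-- From an expanding subset to a bi-Lipschitz embedding. -/
theorem bilip_of_expanding
    (hD : ∀ ρ : ℝ, 0 < ρ → ∃ D : ℕ, ∀ (m : ℕ) (x : X), ∃ T : Finset X, T.card ≤ D ^ m ∧
      Metric.closedBall x (m : ℝ) ⊆ ⋃ y ∈ T, Metric.closedBall y ρ)
    (h : ExpandingSubset X) : BilipschitzTree X := by
  obtain ⟨A, δ, R, hA, hδ, hsep, hexp⟩ := h
  have hsub : ∀ y : X, (A ∩ Metric.closedBall y (δ / 3)).Subsingleton := by
    rintro y a ⟨ha, hay⟩ b ⟨hb, hby⟩
    by_contra hne
    have h1 := hsep a ha b hb hne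
    have h2 : dist a b ≤ dist a y + dist b y := by
      rw [dist_comm b y]
      exact dist_triangle _ _ _
    rw [Metric.mem_closedBall] at hay hby
    linarith
  have hfin : ∀ x : X, {a : X | a ∈ A ∧ dist x a ≤ R}.Finite := by
    intro x
    obtain ⟨D, hD'⟩ := hD (δ / 3) (by positivity)
    obtain ⟨m, hm⟩ := exists_nat_ge R
    obtain ⟨T, _, hT⟩ := hD' m x
    apply Set.Finite.subset (T.finite_toSet.biUnion
      (fun y _ => (hsub y).finite : ∀ y ∈ (T : Set X), (A ∩ Metric.closedBall y (δ / 3)).Finite))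
    rintro a ⟨ha, hax⟩
    have h1 : a ∈ Metric.closedBall x (m : ℝ) := by
      rw [Metric.mem_closedBall, dist_comm]
      exact hax.trans hm
    have h2 := hT h1
    simp only [Set.mem_iUnion, exists_prop] at h2 ⊢
    obtain ⟨y, hy, hay⟩ := h2
    exact ⟨y, hy, ha, hay⟩
  obtain ⟨f, hfA, hfR, hfinj⟩ := exists_map_of_expanding hA hfin hexp
  apply bilip_of_level hD f R hfR (δ / 3) (by positivity) 1
  intro n x
  have : {w : List Bool | w.length = n ∧ dist (f w) x ≤ δ / 3}.Subsingleton := by
    rintro u ⟨hu, hux⟩ v ⟨hv, hvx⟩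
    apply hfinj u v (hu.trans hv.symm)
    exact hsub x ⟨hfA u, hux⟩ ⟨hfA v, hvx⟩
  rw [Nat.cast_one]
  exact Set.encard_le_one_iff_subsingleton.mpr this

/-- The equivalences, for spaces with exponentially bounded covering numbers. -/
theorem tree_tfae
    (hD : ∀ ρ : ℝ, 0 < ρ → ∃ D : ℕ, ∀ (m : ℕ) (x : X), ∃ T : Finset X, T.card ≤ D ^ m ∧
      Metric.closedBall x (m : ℝ) ⊆ ⋃ y ∈ T, Metric.closedBall y ρ) :
    List.TFAE [CoarseTree X, QuasiIsometricTree X, BilipschitzTree X, RegularTree X,
      LevelRegularTree X, ExpandingSubset X] := by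
  tfae_have 3 → 2 := by
    rintro ⟨f, c, C, hc, hf⟩
    refine ⟨f, c, C, 0, hc, fun u v => ?_⟩
    rw [sub_zero, add_zero]
    exact hf u v
  tfae_have 2 → 1 := by
    rintro ⟨f, c, C, K, hc, hf⟩
    refine ⟨f, fun t => c * t - K, fun t => C * t + K, ?_, fun u v => hf u v⟩
    have h1 : Filter.Tendsto (fun t : ℝ => c * t) Filter.atTop Filter.atTop :=
      Filter.tendsto_id.const_mul_atTop hc
    exact Filter.tendsto_atTop_add_const_right _ (-K) h1
  tfae_have 3 → 4 := regular_of_bilip
  tfae_have 4 → 5 := by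
    rintro ⟨f, C, k, hf, hk⟩
    refine ⟨f, C, k, hf, fun n x => (Set.encard_le_encard ?_).trans (hk x)⟩
    exact fun w hw => hw.2
  tfae_have 1 → 5 := level_of_coarse
  tfae_have 5 → 3 := by
    rintro ⟨f, C, k, hf, hk⟩
    apply bilip_of_level hD f C _ 1 one_pos k hk
    intro w b
    have h1 := hf (b :: w) w
    have h2 : binTree.dist (b :: w) w = 1 :=
      SimpleGraph.dist_eq_one_iff_adj.mpr (treeG_adj_cons b w)
    rw [h2, Nat.cast_one, mul_one] at h1
    exact h1
  tfae_have 3 → 6 := expanding_of_bilip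
  tfae_have 6 → 3 := bilip_of_expanding hD
  tfae_finish

end

end Pool.Agent.H67
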