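import Pool.Agent.H67.Family

/-!
The bilinear estimate in `ℓ₁`.
-/

set_option autoImplicit false
set_option linter.unusedSectionVars false
set_option linter.unusedSimpArgs false

open Finset BigOperators

namespace Pool.Agent.H67

/-- `t² ≤ A + t B` gives `t ≤ √A + B`. -/
lemma le_sqrt_add {T A B : ℝ} (hT : 0 ≤ T) (hA : 0 ≤ A) (hB : 0 ≤ B) (h : T ^ 2 ≤ A + T * B) :
    T ≤ √A + B := by
  by_contra hcon
  push Not at hcon
  have h0 := Real.sqrt_nonneg A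
  have h1 : √A < T - B := by linarith
  have h2 : √A * √A = A := Real.mul_self_sqrt hA
  nlinarith

lemma real_bilinear {n : ℕ} {κ κ' : Type*} [Fintype κ] [Fintype κ']
    (ζ : κ → Fin n → ℤˣ) (θ : κ' → Fin n → ℤˣ) (η : ℝ) (hη0 : 0 ≤ η)
    (hη : ∀ j i, |(dotp (ζ j) (sg (θ i)) : ℝ)| ≤ η * n) (G : κ → ℝ) (H : κ' → ℝ) :
    √(∑ k, (∑ j, ((ζ j k : ℤ) : ℝ) * G j) ^ 2)
      ≤ √(η * n) * ((∑ j, |G j| + ∑ i, |H i|) / 2)
        + ∑ k, |(∑ j, ((ζ j k : ℤ) : ℝ) * G j) - ∑ i, ((θ i k : ℤ) : ℝ) * H i| := by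
  set t : Fin n → ℝ := fun k => ∑ j, ((ζ j k : ℤ) : ℝ) * G j with ht
  set t' : Fin n → ℝ := fun k => ∑ i, ((θ i k : ℤ) : ℝ) * H i with ht'
  set T : ℝ := √(∑ k, t k ^ 2) with hT
  set B : ℝ := ∑ k, |t k - t' k| with hB
  have hS0 : 0 ≤ ∑ k, t k ^ 2 := Finset.sum_nonneg fun _ _ => sq_nonneg _
  have hT0 : 0 ≤ T := Real.sqrt_nonneg _
  have hT2 : T ^ 2 = ∑ k, t k ^ 2 := Real.sq_sqrt hS0
  have hB0 : 0 ≤ B := Finset.sum_nonneg fun _ _ => abs_nonneg _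
  have hGH : 0 ≤ (∑ j, |G j|) * ∑ i, |H i| := by positivity
  have hηn : 0 ≤ η * n := by positivity
  have h1 : ∑ k, t k * t' k ≤ η * n * ((∑ j, |G j|) * ∑ i, |H i|) := by
    have e : ∑ k, t k * t' k = ∑ j, ∑ i, (dotp (ζ j) (sg (θ i)) : ℝ) * (G j * H i) := by
      simp only [ht, ht']
      simp_rw [Finset.sum_mul_sum]
      rw [Finset.sum_comm]
      refine Finset.sum_congr rfl fun j _ => ?_
      rw [Finset.sum_comm]
      refine Finset.sum_congr rfl fun i _ => ?_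
      unfold dotp sg
      push_cast
      rw [Finset.sum_mul]
      refine Finset.sum_congr rfl fun k _ => ?_
      ring
    rw [e]
    calc ∑ j, ∑ i, (dotp (ζ j) (sg (θ i)) : ℝ) * (G j * H i)
        ≤ ∑ j, ∑ i, (η * n) * (|G j| * |H i|) := by
          refine Finset.sum_le_sum fun j _ => Finset.sum_le_sum fun i _ => ?_
          calc (dotp (ζ j) (sg (θ i)) : ℝ) * (G j * H i)
              ≤ |(dotp (ζ j) (sg (θ i)) : ℝ) * (G j * H i)| := le_abs_self _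
            _ = |(dotp (ζ j) (sg (θ i)) : ℝ)| * (|G j| * |H i|) := by rw [abs_mul, abs_mul]
            _ ≤ _ := by gcongr; exact hη j i
      _ = η * n * ((∑ j, |G j|) * ∑ i, |H i|) := by
          rw [Finset.sum_mul_sum, Finset.mul_sum]
          refine Finset.sum_congr rfl fun j _ => ?_
          rw [Finset.mul_sum]
  have htk : ∀ k, |t k| ≤ T := by
    intro k
    rw [hT]
    apply Real.le_sqrt_of_sq_le
    rw [sq_abs]
    exact Finset.single_le_sum (f := fun k => t k ^ 2) (fun _ _ => sq_nonneg _) (Finset.mem_univ k)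
  have h2 : ∑ k, t k * (t k - t' k) ≤ T * B := by
    rw [hB, Finset.mul_sum]
    refine Finset.sum_le_sum fun k _ => ?_
    calc t k * (t k - t' k) ≤ |t k * (t k - t' k)| := le_abs_self _
      _ = |t k| * |t k - t' k| := abs_mul _ _
      _ ≤ _ := by gcongr; exact htk k
  have h3 : T ^ 2 ≤ η * n * ((∑ j, |G j|) * ∑ i, |H i|) + T * B := by
    have e : ∑ k, t k ^ 2 = ∑ k, t k * t' k + ∑ k, t k * (t k - t' k) := by
      rw [← Finset.sum_add_distrib]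
      refine Finset.sum_congr rfl fun k _ => ?_
      ring
    rw [hT2, e]
    linarith
  have h4 := le_sqrt_add hT0 (by positivity) hB0 h3
  refine h4.trans ?_
  gcongr
  rw [Real.sqrt_mul hηn]
  gcongr
  -- √(ab) ≤ (a+b)/2
  set a := ∑ j, |G j|
  set b := ∑ i, |H i|
  have ha : 0 ≤ a := Finset.sum_nonneg fun _ _ => abs_nonneg _
  have hb : 0 ≤ b := Finset.sum_nonneg fun _ _ => abs_nonneg _
  rw [show (a + b) / 2 = √(((a + b) / 2) ^ 2) from (Real.sqrt_sq (by positivity)).symm]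
  apply Real.sqrt_le_sqrt
  nlinarith [sq_nonneg (a - b)]

/-- the space `ℓ₁` -/
abbrev L1 : Type := lp (fun _ : ℕ => ℝ) 1

lemma L1_summable (f : L1) : Summable fun ω => |f ω| := by
  have := (lp.hasSum_norm (p := 1) (by simp) f).summable
  simpa using this

lemma L1_norm (f : L1) : ‖f‖ = ∑' ω, |f ω| := by
  have := lp.norm_eq_tsum_rpow (p := 1) (by simp) f
  simpa using this

lemma L1_coe_sum {κ : Type*} (s : Finset κ) (f : κ → L1) (ω : ℕ) :
    ((∑ k ∈ s, f k : L1) : ∀ _ : ℕ, ℝ) ω = ∑ k ∈ s, f k ω := by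
  rw [lp.coeFn_sum, Finset.sum_apply]

lemma bilinear_L1 {n : ℕ} {κ κ' : Type*} [Fintype κ] [Fintype κ']
    (ζ : κ → Fin n → ℤˣ) (θ : κ' → Fin n → ℤˣ) (η : ℝ) (hη0 : 0 ≤ η)
    (hη : ∀ j i, |(dotp (ζ j) (sg (θ i)) : ℝ)| ≤ η * n) (G : κ → L1) (H : κ' → L1) :
    ∑ ε : Fin n → ℤˣ, ‖∑ k, ((ε k : ℤ) : ℝ) • ∑ j, ((ζ j k : ℤ) : ℝ) • G j‖
      ≤ (2:ℝ) ^ n * (√(η * n) * ((∑ j, ‖G j‖ + ∑ i, ‖H i‖) / 2)
        + ∑ k, ‖(∑ j, ((ζ j k : ℤ) : ℝ) • G j) - ∑ i, ((θ i k : ℤ) : ℝ) • H i‖) := by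
  -- left side as a tsum
  have hL : ∀ ε : Fin n → ℤˣ, ‖∑ k, ((ε k : ℤ) : ℝ) • ∑ j, ((ζ j k : ℤ) : ℝ) • G j‖
      = ∑' ω, |∑ k, (sg ε k : ℝ) * ∑ j, ((ζ j k : ℤ) : ℝ) * G j ω| := by
    intro ε
    rw [L1_norm]
    refine tsum_congr fun ω => ?_
    congr 1
    rw [L1_coe_sum]
    refine Finset.sum_congr rfl fun k _ => ?_
    rw [lp.coeFn_smul, Pi.smul_apply, L1_coe_sum, smul_eq_mul]
    rfl
  have hLs : ∀ ε : Fin n → ℤˣ,
      Summable fun ω => |∑ k, (sg ε k : ℝ) * ∑ j, ((ζ j k : ℤ) : ℝ) * G j ω| := by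
    intro ε
    have := L1_summable (∑ k, ((ε k : ℤ) : ℝ) • ∑ j, ((ζ j k : ℤ) : ℝ) • G j)
    refine this.congr fun ω => ?_
    congr 1
    rw [L1_coe_sum]
    refine Finset.sum_congr rfl fun k _ => ?_
    rw [lp.coeFn_smul, Pi.smul_apply, L1_coe_sum, smul_eq_mul]
    rfl
  have hD : ∀ k, ‖(∑ j, ((ζ j k : ℤ) : ℝ) • G j) - ∑ i, ((θ i k : ℤ) : ℝ) • H i‖
      = ∑' ω, |(∑ j, ((ζ j k : ℤ) : ℝ) * G j ω) - ∑ i, ((θ i k : ℤ) : ℝ) * H i ω| := by
    intro k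
    rw [L1_norm]
    refine tsum_congr fun ω => ?_
    congr 1
    rw [lp.coeFn_sub, Pi.sub_apply, L1_coe_sum, L1_coe_sum]
    rfl
  have hDs : ∀ k, Summable fun ω =>
      |(∑ j, ((ζ j k : ℤ) : ℝ) * G j ω) - ∑ i, ((θ i k : ℤ) : ℝ) * H i ω| := by
    intro k
    have := L1_summable ((∑ j, ((ζ j k : ℤ) : ℝ) • G j) - ∑ i, ((θ i k : ℤ) : ℝ) • H i)
    refine this.congr fun ω => ?_
    congr 1
    rw [lp.coeFn_sub, Pi.sub_apply, L1_coe_sum, L1_coe_sum]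
    rfl
  simp_rw [hL, hD, L1_norm]
  rw [← Summable.tsum_finsetSum (fun ε _ => hLs ε)]
  rw [← Summable.tsum_finsetSum (fun j _ => L1_summable (G j)),
    ← Summable.tsum_finsetSum (fun i _ => L1_summable (H i)),
    ← Summable.tsum_finsetSum (fun k _ => hDs k)]
  have sG : Summable fun ω => ∑ j, |G j ω| := summable_sum fun j _ => L1_summable (G j)
  have sH : Summable fun ω => ∑ i, |H i ω| := summable_sum fun i _ => L1_summable (H i)
  have sD : Summable fun ω => ∑ k, |(∑ j, ((ζ j k : ℤ) : ℝ) * G j ω) - ∑ i, ((θ i k : ℤ) : ℝ) * H i ω| :=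
    summable_sum fun k _ => hDs k
  rw [← sG.tsum_add sH]
  rw [← tsum_div_const, ← tsum_mul_left, ← Summable.tsum_add, ← tsum_mul_left]
  · refine Summable.tsum_le_tsum (fun ω => ?_) (summable_sum fun ε _ => hLs ε) ?_
    · have h1 := sum_abs_signs_le (fun k => ∑ j, ((ζ j k : ℤ) : ℝ) * G j ω)
      rw [Fintype.card_fin] at h1
      refine h1.trans ?_
      gcongr
      exact real_bilinear ζ θ η hη0 hη (fun j => G j ω) (fun i => H i ω)
    · exact ((((sG.add sH).div_const 2).mul_left _).add sD).mul_left _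
  · exact ((sG.add sH).div_const 2).mul_left _
  · exact sD

end Pool.Agent.H67
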