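import Mathlib

/-!
Box averages of vector valued functions on integer lattices, and the resulting
linearisation estimate.
-/

set_option autoImplicit false
set_option linter.unusedSectionVars false
set_option linter.unusedSimpArgs false

open Finset BigOperators

namespace Pool.Agent.H67

variable {ι : Type*} [Fintype ι] [DecidableEq ι]
variable {E : Type*} [NormedAddCommGroup E] [NormedSpace ℝ E]

/-- The `ℓ₁` size of an integer vector. -/
def l1 (v : ι → ℤ) : ℕ := ∑ i, (v i).natAbs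

/-- Average of `a` over the box `x + [0,P)^ι`. -/
noncomputable def boxAvg (P : ℕ) (a : (ι → ℤ) → E) (x : ι → ℤ) : E :=
  ((P : ℝ) ^ (Fintype.card ι))⁻¹ • ∑ z : ι → Fin P, a (x + fun i => ((z i : ℕ) : ℤ))

lemma norm_boxAvg_le {P : ℕ} (hP : 0 < P) (a : (ι → ℤ) → E) (x : ι → ℤ) (K : ℝ)
    (h : ∀ z : ι → Fin P, ‖a (x + fun i => ((z i : ℕ) : ℤ))‖ ≤ K) : ‖boxAvg P a x‖ ≤ K := by
  have hPR : (0:ℝ) < (P:ℝ) ^ (Fintype.card ι) := by positivity
  unfold boxAvg
  rw [norm_smul, norm_inv, Real.norm_of_nonneg hPR.le]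
  have h1 : ‖∑ z : ι → Fin P, a (x + fun i => ((z i : ℕ) : ℤ))‖ ≤ (P:ℝ) ^ (Fintype.card ι) * K := by
    refine (norm_sum_le _ _).trans ?_
    refine (Finset.sum_le_sum (fun z _ => h z)).trans ?_
    simp
  calc ((P:ℝ) ^ (Fintype.card ι))⁻¹ * _ ≤ ((P:ℝ) ^ (Fintype.card ι))⁻¹ * ((P:ℝ) ^ (Fintype.card ι) * K) := by
        gcongr
    _ = K := by field_simp

lemma boxAvg_add (P : ℕ) (a b : (ι → ℤ) → E) (x : ι → ℤ) :
    boxAvg P (fun z => a z + b z) x = boxAvg P a x + boxAvg P b x := by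
  simp [boxAvg, Finset.sum_add_distrib]

lemma boxAvg_sub (P : ℕ) (a b : (ι → ℤ) → E) (x : ι → ℤ) :
    boxAvg P (fun z => a z - b z) x = boxAvg P a x - boxAvg P b x := by
  simp [boxAvg, Finset.sum_sub_distrib, smul_sub]

lemma boxAvg_smul (P : ℕ) (c : ℝ) (a : (ι → ℤ) → E) (x : ι → ℤ) :
    boxAvg P (fun z => c • a z) x = c • boxAvg P a x := by
  simp only [boxAvg, ← Finset.smul_sum]
  rw [smul_comm]

lemma boxAvg_sum {κ : Type*} (s : Finset κ) (P : ℕ) (a : κ → (ι → ℤ) → E) (x : ι → ℤ) :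
    boxAvg P (fun z => ∑ k ∈ s, a k z) x = ∑ k ∈ s, boxAvg P (a k) x := by
  simp only [boxAvg, ← Finset.smul_sum]
  rw [Finset.sum_comm]

lemma boxAvg_shift_eq (P : ℕ) (a : (ι → ℤ) → E) (x v : ι → ℤ) :
    boxAvg P (fun z => a (z + v)) x = boxAvg P a (x + v) := by
  unfold boxAvg
  congr 1
  refine Finset.sum_congr rfl fun z _ => ?_
  have : (x + fun i => ((z i : ℕ) : ℤ)) + v = x + v + fun i => ((z i : ℕ) : ℤ) := by
    funext i; simp only [Pi.add_apply]; ring
  simp only [this]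

lemma boxAvg_const {P : ℕ} (hP : 0 < P) (c : E) (x : ι → ℤ) :
    boxAvg P (fun _ => c) x = c := by
  unfold boxAvg
  have hPR : (0:ℝ) < (P:ℝ) ^ (Fintype.card ι) := by positivity
  simp only [Finset.sum_const, Finset.card_univ, Fintype.card_fun, Fintype.card_fin]
  rw [← Nat.cast_smul_eq_nsmul ℝ, smul_smul]
  rw [Nat.cast_pow, inv_mul_cancel₀ hPR.ne', one_smul]

/-- One-step shift estimate for box averages. -/
lemma norm_boxAvg_shift_le {P : ℕ} (hP : 0 < P) (a : (ι → ℤ) → E) (x : ι → ℤ) (K : ℝ)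
    (h : ∀ z : ι → ℤ, (∀ i, 0 ≤ z i ∧ z i ≤ P) → ‖a (x + z)‖ ≤ K) (i : ι) :
    ‖boxAvg P a (x + Pi.single i 1) - boxAvg P a x‖ ≤ 2 * K / P := by
  have hPR : (0:ℝ) < (P:ℝ) := by exact_mod_cast hP
  -- split the sum along coordinate i
  let e := Equiv.funSplitAt i (Fin P)
  have key : ∀ y : ι → ℤ, (∑ z : ι → Fin P, a (y + fun j => ((z j : ℕ) : ℤ)))
      = ∑ w : {j // j ≠ i} → Fin P, ∑ k ∈ Finset.range P,
          a (y + fun j => if h : j = i then (k : ℤ) else ((w ⟨j, h⟩ : ℕ) : ℤ)) := by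
    intro y
    rw [← Equiv.sum_comp e.symm, Fintype.sum_prod_type, Finset.sum_comm]
    refine Finset.sum_congr rfl fun w _ => ?_
    rw [← Fin.sum_univ_eq_sum_range (fun k => a (y + fun j => if h : j = i then (k : ℤ) else ((w ⟨j, h⟩ : ℕ) : ℤ)))]
    refine Finset.sum_congr rfl fun k _ => ?_
    congr 2
    funext j
    by_cases hj : j = i
    · subst hj; simp [e, Equiv.funSplitAt, Equiv.piSplitAt]
    · simp [e, Equiv.funSplitAt, Equiv.piSplitAt, hj]
  unfold boxAvg
  rw [← smul_sub, key, key, ← Finset.sum_sub_distrib]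
  have tele : ∀ w : {j // j ≠ i} → Fin P,
      ((∑ k ∈ Finset.range P,
          a (x + Pi.single i 1 + fun j => if h : j = i then (k : ℤ) else ((w ⟨j, h⟩ : ℕ) : ℤ)))
        - ∑ k ∈ Finset.range P,
          a (x + fun j => if h : j = i then (k : ℤ) else ((w ⟨j, h⟩ : ℕ) : ℤ)))
      = a (x + fun j => if h : j = i then (P : ℤ) else ((w ⟨j, h⟩ : ℕ) : ℤ))
        - a (x + fun j => if h : j = i then (0 : ℤ) else ((w ⟨j, h⟩ : ℕ) : ℤ)) := by
    intro w
    rw [← Finset.sum_sub_distrib]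
    have := Finset.sum_range_sub (fun k : ℕ => a (x + fun j => if h : j = i then (k : ℤ) else ((w ⟨j, h⟩ : ℕ) : ℤ))) P
    simp only [Nat.cast_zero] at this
    rw [← this]
    refine Finset.sum_congr rfl fun k _ => ?_
    congr 2
    funext j
    by_cases hj : j = i
    · subst hj; simp; ring
    · simp [hj]
  simp_rw [tele]
  rw [norm_smul, norm_inv, norm_pow, Real.norm_natCast]
  have hcard : Fintype.card ({j // j ≠ i} → Fin P) = P ^ (Fintype.card ι - 1) := by
    rw [Fintype.card_fun, Fintype.card_fin]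
    congr 1
    rw [Fintype.card_subtype_compl, Fintype.card_subtype_eq]
  have hcardpos : 0 < Fintype.card ι := Fintype.card_pos_iff.mpr ⟨i⟩
  have h1 : ‖∑ w : {j // j ≠ i} → Fin P, (a (x + fun j => if h : j = i then (P : ℤ) else ((w ⟨j, h⟩ : ℕ) : ℤ))
        - a (x + fun j => if h : j = i then (0 : ℤ) else ((w ⟨j, h⟩ : ℕ) : ℤ)))‖
      ≤ (P:ℝ) ^ (Fintype.card ι - 1) * (2 * K) := by
    refine (norm_sum_le _ _).trans ?_
    have : ∀ w : {j // j ≠ i} → Fin P, ‖(a (x + fun j => if h : j = i then (P : ℤ) else ((w ⟨j, h⟩ : ℕ) : ℤ))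
        - a (x + fun j => if h : j = i then (0 : ℤ) else ((w ⟨j, h⟩ : ℕ) : ℤ)))‖ ≤ 2 * K := by
      intro w
      have h1 := h (fun j => if h : j = i then (P : ℤ) else ((w ⟨j, h⟩ : ℕ) : ℤ)) (by
        intro j
        by_cases hj : j = i
        · simp [hj]
        · simp only [hj, dite_false]
          exact ⟨by positivity, by exact_mod_cast (w ⟨j, hj⟩).2.le⟩)
      have h2 := h (fun j => if h : j = i then (0 : ℤ) else ((w ⟨j, h⟩ : ℕ) : ℤ)) (by
        intro j
        by_cases hj : j = i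
        · simp [hj]
        · simp only [hj, dite_false]
          exact ⟨by positivity, by exact_mod_cast (w ⟨j, hj⟩).2.le⟩)
      calc _ ≤ _ := norm_sub_le _ _
        _ ≤ K + K := add_le_add h1 h2
        _ = 2 * K := by ring
    refine (Finset.sum_le_sum (fun w _ => this w)).trans ?_
    rw [Finset.sum_const, Finset.card_univ, hcard]
    simp
  calc ((P:ℝ) ^ (Fintype.card ι))⁻¹ * _ ≤ ((P:ℝ) ^ (Fintype.card ι))⁻¹ * ((P:ℝ) ^ (Fintype.card ι - 1) * (2 * K)) := by
        gcongr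
    _ = 2 * K / P := by
        obtain ⟨m, hm⟩ : ∃ m, Fintype.card ι = m + 1 := ⟨Fintype.card ι - 1, by omega⟩
        rw [hm]
        simp only [Nat.add_sub_cancel]
        field_simp
        ring


lemma l1_zero : l1 (0 : ι → ℤ) = 0 := by simp [l1]

lemma l1_eq_zero {v : ι → ℤ} (h : l1 v = 0) : v = 0 := by
  funext i
  unfold l1 at h
  have := (Finset.sum_eq_zero_iff.mp h) i (Finset.mem_univ i)
  simpa using this

/-- peel off one unit step -/
lemma exists_step {v : ι → ℤ} {m : ℕ} (h : l1 v = m + 1) :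
    ∃ (i : ι) (w : ι → ℤ), l1 w = m ∧ (v = w + Pi.single i 1 ∨ w = v + Pi.single i 1) := by
  have hne : ∃ i, v i ≠ 0 := by
    by_contra hcon
    push Not at hcon
    have : v = 0 := funext hcon
    rw [this, l1_zero] at h
    omega
  obtain ⟨i, hi⟩ := hne
  have split : ∀ u : ι → ℤ, l1 u = (u i).natAbs + ∑ j ∈ Finset.univ.erase i, (u j).natAbs := by
    intro u
    unfold l1
    exact (Finset.add_sum_erase Finset.univ (fun i => (u i).natAbs) (Finset.mem_univ i)).symm
  rcases lt_or_gt_of_ne hi with hneg | hpos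
  · refine ⟨i, v + Pi.single i 1, ?_, Or.inr rfl⟩
    rw [split] at h ⊢
    have h1 : ∑ j ∈ Finset.univ.erase i, ((v + Pi.single i 1 : ι → ℤ) j).natAbs = ∑ j ∈ Finset.univ.erase i, (v j).natAbs := by
      refine Finset.sum_congr rfl fun j hj => ?_
      have : j ≠ i := Finset.ne_of_mem_erase hj
      simp [this]
    rw [h1]
    have h2 : ((v + Pi.single i 1 : ι → ℤ) i).natAbs + 1 = (v i).natAbs := by
      simp
      omega
    omega
  · refine ⟨i, v - Pi.single i 1, ?_, Or.inl (by abel)⟩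
    rw [split] at h ⊢
    have h1 : ∑ j ∈ Finset.univ.erase i, ((v - Pi.single i 1 : ι → ℤ) j).natAbs = ∑ j ∈ Finset.univ.erase i, (v j).natAbs := by
      refine Finset.sum_congr rfl fun j hj => ?_
      have : j ≠ i := Finset.ne_of_mem_erase hj
      simp [this]
    rw [h1]
    have h2 : ((v - Pi.single i 1 : ι → ℤ) i).natAbs + 1 = (v i).natAbs := by
      simp
      omega
    omega

/-- A function on the integer lattice whose unit increments inside the `ℓ₁` ball of radius `m`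
are bounded by `K` satisfies `‖Θ v - Θ 0‖ ≤ K * l1 v` there. -/
lemma path_bound (Θ : (ι → ℤ) → E) (K : ℝ) (m : ℕ)
    (h : ∀ v i, l1 v ≤ m → l1 (v + Pi.single i 1) ≤ m → ‖Θ (v + Pi.single i 1) - Θ v‖ ≤ K) :
    ∀ k ≤ m, ∀ v, l1 v = k → ‖Θ v - Θ 0‖ ≤ K * k := by
  intro k
  induction k with
  | zero =>
    intro _ v hv
    rw [l1_eq_zero hv]; simp
  | succ k ih =>
    intro hk v hv
    obtain ⟨i, w, hw, hor⟩ := exists_step hv
    have hw' := ih (by omega) w hw
    rcases hor with h1 | h1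
    · have h2 := h w i (by omega) (by rw [← h1]; omega)
      rw [← h1] at h2
      calc ‖Θ v - Θ 0‖ = ‖(Θ v - Θ w) + (Θ w - Θ 0)‖ := by congr 1; abel
        _ ≤ ‖Θ v - Θ w‖ + ‖Θ w - Θ 0‖ := norm_add_le _ _
        _ ≤ K + K * k := add_le_add h2 hw'
        _ = K * ((k + 1 : ℕ) : ℝ) := by push_cast; ring
    · have h2 := h v i (by omega) (by rw [← h1]; omega)
      rw [← h1] at h2
      calc ‖Θ v - Θ 0‖ = ‖(Θ w - Θ 0) - (Θ w - Θ v)‖ := by congr 1; abel
        _ ≤ ‖Θ w - Θ 0‖ + ‖Θ w - Θ v‖ := norm_sub_le _ _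
        _ ≤ K * k + K := add_le_add hw' h2
        _ = K * ((k + 1 : ℕ) : ℝ) := by push_cast; ring

lemma path_bound' (Θ : (ι → ℤ) → E) (K : ℝ)
    (h : ∀ v i, ‖Θ (v + Pi.single i 1) - Θ v‖ ≤ K) (v : ι → ℤ) :
    ‖Θ v - Θ 0‖ ≤ K * l1 v :=
  path_bound Θ K (l1 v) (fun v i _ _ => h v i) (l1 v) le_rfl v rfl

/-- Lattice Lipschitz functions. -/
lemma lattice_lip (F : (ι → ℤ) → E) (κ : ℝ)
    (h : ∀ z i, ‖F (z + Pi.single i 1) - F z‖ ≤ κ) (x v : ι → ℤ) :
    ‖F (x + v) - F x‖ ≤ κ * l1 v := by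
  have := path_bound' (fun v => F (x + v)) κ (fun v i => by
    have := h (x + v) i
    rwa [add_assoc] at this) v
  simpa using this

/-- **Linearisation.** The box average of a lattice Lipschitz function is almost affine
at bounded scale, with slopes `boxAvg (∂ⱼ F)`. -/
lemma linearise {P : ℕ} (hP : 0 < P) (F : (ι → ℤ) → E) (κ : ℝ)
    (h : ∀ z i, ‖F (z + Pi.single i 1) - F z‖ ≤ κ) (x c : ι → ℤ) :
    ‖boxAvg P F (x + c) - boxAvg P F x
      - ∑ j, (c j : ℝ) • boxAvg P (fun z => F (z + Pi.single j 1) - F z) x‖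
      ≤ 2 * κ / P * (l1 c) ^ 2 := by
  have hPR : (0:ℝ) < (P:ℝ) := by exact_mod_cast hP
  rcases isEmpty_or_nonempty ι with hι | hι
  · have hc : c = 0 := Subsingleton.elim _ _
    subst hc
    simp [l1_zero]
  have hκ : 0 ≤ κ := (norm_nonneg _).trans (h 0 (Classical.arbitrary ι))
  set G : ι → E := fun j => boxAvg P (fun z => F (z + Pi.single j 1) - F z) x with hG
  -- shift bound for the discrete derivative
  have shift : ∀ (j : ι) (v : ι → ℤ),
      ‖boxAvg P (fun z => F (z + Pi.single j 1) - F z) (x + v) - G j‖ ≤ 2 * κ / P * l1 v := by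
    intro j v
    refine lattice_lip (boxAvg P (fun z => F (z + Pi.single j 1) - F z)) (2 * κ / P) ?_ x v
    intro z i
    exact norm_boxAvg_shift_le hP _ _ κ (fun z' _ => h _ _) i
  set Ψ : (ι → ℤ) → E := fun v => boxAvg P F (x + v) - ∑ j, (v j : ℝ) • G j with hΨ
  have inc : ∀ v i, Ψ (v + Pi.single i 1) - Ψ v
      = boxAvg P (fun z => F (z + Pi.single i 1) - F z) (x + v) - G i := by
    intro v i
    have e1 : boxAvg P (fun z => F (z + Pi.single i 1) - F z) (x + v)
        = boxAvg P F (x + (v + Pi.single i 1)) - boxAvg P F (x + v) := by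
      rw [boxAvg_sub, boxAvg_shift_eq, add_assoc]
    have e2 : ∑ j, (((v + Pi.single i 1 : ι → ℤ) j : ℤ) : ℝ) • G j = ∑ j, (v j : ℝ) • G j + G i := by
      have : ∀ j, (((v + Pi.single i 1 : ι → ℤ) j : ℤ) : ℝ) • G j
          = (v j : ℝ) • G j + (if j = i then G i else 0) := by
        intro j
        by_cases hj : j = i
        · subst hj; simp [add_smul]
        · simp [hj]
      simp_rw [this]
      rw [Finset.sum_add_distrib]
      simp
    simp only [hΨ]
    rw [e1, e2]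
    abel
  have hb := path_bound Ψ (2 * κ / P * l1 c) (l1 c) (by
    intro v i hv _
    rw [inc]
    refine (shift i v).trans ?_
    have : (l1 v : ℝ) ≤ l1 c := by exact_mod_cast hv
    gcongr) (l1 c) le_rfl c rfl
  have e3 : Ψ c - Ψ 0 = boxAvg P F (x + c) - boxAvg P F x
      - ∑ j, (c j : ℝ) • G j := by
    simp only [hΨ, add_zero, Pi.zero_apply, Int.cast_zero, zero_smul, Finset.sum_const_zero, sub_zero]
    abel
  rw [e3] at hb
  calc _ ≤ _ := hb
    _ = 2 * κ / P * (l1 c) ^ 2 := by ring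

/-- The box average is close to the value. -/
lemma norm_boxAvg_sub_le {P : ℕ} (hP : 0 < P) (F : (ι → ℤ) → E) (κ : ℝ)
    (h : ∀ z i, ‖F (z + Pi.single i 1) - F z‖ ≤ κ) (x : ι → ℤ) :
    ‖boxAvg P F x - F x‖ ≤ κ * (Fintype.card ι * P) := by
  rcases isEmpty_or_nonempty ι with hι | hι
  · have : boxAvg P F x = F x := by
      unfold boxAvg
      simp
      congr 1
      exact Subsingleton.elim _ _
    rw [this]
    simp
  have hκ : 0 ≤ κ := (norm_nonneg _).trans (h 0 (Classical.arbitrary ι))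
  have e : boxAvg P F x - F x = boxAvg P (fun z => F z - F x) x := by
    rw [boxAvg_sub, boxAvg_const hP]
  rw [e]
  refine norm_boxAvg_le hP _ _ _ fun z => ?_
  refine (lattice_lip F κ h x _).trans ?_
  have : (l1 (fun i => ((z i : ℕ) : ℤ)) : ℝ) ≤ Fintype.card ι * P := by
    have : l1 (fun i => ((z i : ℕ) : ℤ)) ≤ Fintype.card ι * P := by
      unfold l1
      calc ∑ i, (((z i : ℕ) : ℤ)).natAbs ≤ ∑ _i : ι, P := by
            refine Finset.sum_le_sum fun i _ => ?_
            simpa using (z i).2.le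
        _ = Fintype.card ι * P := by simp
    exact_mod_cast this
  gcongr

end Pool.Agent.H67
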