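import Mathlib

/-!
# Regular trees and flows
-/

namespace Pool.Agent.H67

/-- The infinite rooted `d`-ary tree: its vertices are the finite words in `d` letters, the root is
`[]` and the children of `q` are `b :: q`. Its path metric is `(regTree d).dist`. -/
def regTree (d : ℕ) : SimpleGraph (List (Fin d)) :=
  SimpleGraph.fromRel (fun p q : List (Fin d) => ∃ b : Fin d, p = b :: q)

/-- A unit flow on the `d`-ary tree from the root to infinity. Its support `{w | 0 < θ w}` is a
subtree containing the root. -/
def IsUnitFlow {d : ℕ} (θ : List (Fin d) → ℝ) : Prop :=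
  θ [] = 1 ∧ (∀ w, 0 ≤ θ w) ∧ ∀ w, θ w = ∑ b, θ (b :: w)

end Pool.Agent.H67
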