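import Pool.Agent.H67.Signs

/-!
Existence of families of sign vectors that give almost the same `ℓ₁` norm and are
mutually incoherent.
-/

set_option autoImplicit false
set_option linter.unusedSectionVars false
set_option linter.unusedSimpArgs false

open Finset BigOperators

namespace Pool.Agent.H67

/-- integer inner product of a sign vector with an integer vector -/
def dotp {n : ℕ} (s : Fin n → ℤˣ) (v : Fin n → ℤ) : ℤ := ∑ k, (s k : ℤ) * v k

/-- mean of `|⟨s,v⟩|` over all sign vectors `s` -/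
noncomputable def meanAbs {n : ℕ} (v : Fin n → ℤ) : ℝ :=
  ((2:ℝ) ^ n)⁻¹ * ∑ s : Fin n → ℤˣ, |(dotp s v : ℝ)|

lemma abs_dotp_le {n : ℕ} (s : Fin n → ℤˣ) (v : Fin n → ℤ) (R : ℕ) (hv : v ∈ cube (Fin n) R) :
    |(dotp s v : ℝ)| ≤ n * R := by
  rw [mem_cube] at hv
  have h : |dotp s v| ≤ n * R := by
    unfold dotp
    refine (Finset.abs_sum_le_sum_abs _ _).trans ?_
    calc ∑ k, |(s k : ℤ) * v k| ≤ ∑ _k : Fin n, (R:ℤ) := by
          refine Finset.sum_le_sum fun k _ => ?_
          rw [abs_mul]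
          have := abs_sg s k
          unfold sg at this
          rw [this, one_mul]
          exact hv k
      _ = n * R := by simp
  exact_mod_cast h

lemma meanAbs_nonneg {n : ℕ} (v : Fin n → ℤ) : 0 ≤ meanAbs v := by
  unfold meanAbs; positivity

lemma card_signsFin (n : ℕ) : (Fintype.card (Fin n → ℤˣ) : ℝ) = (2:ℝ) ^ n := by
  rw [card_signs]; simp

lemma meanAbs_le {n : ℕ} (v : Fin n → ℤ) (R : ℕ) (hv : v ∈ cube (Fin n) R) :
    meanAbs v ≤ n * R := by
  unfold meanAbs
  have h : ∑ s : Fin n → ℤˣ, |(dotp s v : ℝ)| ≤ (2:ℝ) ^ n * (n * R) := by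
    calc ∑ s : Fin n → ℤˣ, |(dotp s v : ℝ)| ≤ ∑ _s : Fin n → ℤˣ, (n * R : ℝ) :=
          Finset.sum_le_sum fun s _ => abs_dotp_le s v R hv
      _ = _ := by rw [Finset.sum_const, Finset.card_univ, nsmul_eq_mul, card_signsFin]
  have h2 : (0:ℝ) < (2:ℝ) ^ n := by positivity
  calc ((2:ℝ) ^ n)⁻¹ * ∑ s : Fin n → ℤˣ, |(dotp s v : ℝ)| ≤ ((2:ℝ) ^ n)⁻¹ * ((2:ℝ) ^ n * (n * R)) := by gcongr
    _ = _ := by field_simp

/-- counting functions with a condition on one coordinate -/
lemma card_filter_coord {κ S : Type*} [Fintype κ] [DecidableEq κ] [Fintype S] [Nonempty S]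
    (Q : S → Prop) [DecidablePred Q] (j : κ) [DecidablePred fun ω : κ → S => Q (ω j)] :
    ((Finset.univ.filter fun ω : κ → S => Q (ω j)).card : ℝ) * (Fintype.card S)
      = ((Finset.univ.filter Q).card : ℝ) * (Fintype.card S : ℝ) ^ (Fintype.card κ) := by
  have h1 := Finset.sum_prod_piFinset (ι := κ) (Finset.univ : Finset S)
    (fun i s => if i = j then (if Q s then (1:ℝ) else 0) else 1)
  rw [Fintype.piFinset_univ] at h1
  have h2 : ∀ ω : κ → S, (∏ i, (if i = j then (if Q (ω i) then (1:ℝ) else 0) else 1))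
      = if Q (ω j) then 1 else 0 := by
    intro ω
    rw [Finset.prod_ite_eq' Finset.univ j]
    simp
  simp_rw [h2] at h1
  have h3 : ∀ i : κ, (∑ s : S, (if i = j then (if Q s then (1:ℝ) else 0) else 1))
      = if i = j then ((Finset.univ.filter Q).card : ℝ) else (Fintype.card S : ℝ) := by
    intro i
    split_ifs
    · simp
    · simp
  simp_rw [h3] at h1
  rw [Finset.sum_boole] at h1
  rw [h1]
  rw [← Finset.mul_prod_erase Finset.univ _ (Finset.mem_univ j)]
  rw [if_pos rfl]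
  have h4 : ∏ i ∈ Finset.univ.erase j, (if i = j then ((Finset.univ.filter Q).card : ℝ) else (Fintype.card S : ℝ))
      = (Fintype.card S : ℝ) ^ (Fintype.card κ - 1) := by
    rw [Finset.prod_congr rfl (g := fun _ => (Fintype.card S : ℝ))]
    · rw [Finset.prod_const, Finset.card_erase_of_mem (Finset.mem_univ j), Finset.card_univ]
    · intro i hi
      rw [if_neg (Finset.ne_of_mem_erase hi)]
  rw [h4]
  have hpos : 0 < Fintype.card κ := Fintype.card_pos_iff.mpr ⟨j⟩
  obtain ⟨m, hm⟩ : ∃ m, Fintype.card κ = m + 1 := ⟨Fintype.card κ - 1, by omega⟩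
  rw [hm]
  simp only [Nat.add_sub_cancel]
  ring

lemma exists_family (n N M : ℕ) (hn : 0 < n) (hN : 0 < N) (hM : 0 < M) (r η : ℝ)
    (hr0 : 0 ≤ r) (hr : r ≤ 2 * n * M) (hη0 : 0 ≤ η) (hη : η ≤ 2)
    (T : Finset (Fin n → ℤˣ)) (hT : T.card ≤ N)
    (c1 : ((4 * M + 1 : ℕ) : ℝ) ^ n * (2 * Real.exp (-(N:ℝ) * (r / (2 * n * M)) ^ 2 / 4)) ≤ 1 / 4)
    (c2 : (N:ℝ) * (N * (2 * Real.exp (-(n:ℝ) * η ^ 2 / 4))) ≤ 1 / 4) :
    ∃ ζ : Fin N → Fin n → ℤˣ,
      (∀ v ∈ cube (Fin n) (2 * M), |(∑ j, |(dotp (ζ j) v : ℝ)|) - N * meanAbs v| ≤ N * r) ∧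
      (∀ j, ∀ θ ∈ T, |(dotp (ζ j) (sg θ) : ℝ)| ≤ η * n) := by
  classical
  by_contra hcon
  push Not at hcon
  have hnR : (0:ℝ) < n := by exact_mod_cast hn
  have hNR : (0:ℝ) < N := by exact_mod_cast hN
  have hMR : (0:ℝ) < M := by exact_mod_cast hM
  set b : ℝ := 2 * n * M with hb
  have hb0 : 0 < b := by positivity
  set δ : ℝ := r / b with hδ
  have hδ0 : 0 ≤ δ := by positivity
  have hδ2 : δ ≤ 2 := by
    rw [hδ, div_le_iff₀ hb0]; linarith
  set tot : ℝ := ((2:ℝ) ^ n) ^ N with htot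
  have htot0 : 0 < tot := by positivity
  -- bad events of the first kind
  let bad1 : (Fin n → ℤ) → Finset (Fin N → Fin n → ℤˣ) := fun v =>
    Finset.univ.filter fun ω => ((Fintype.card (Fin N) : ℕ) : ℝ) * b * δ ≤ |∑ j, (|(dotp (ω j) v : ℝ)| - meanAbs v)|
  have hbad1 : ∀ v ∈ cube (Fin n) (2 * M), ((bad1 v).card : ℝ)
      ≤ 2 * (tot * Real.exp (-(N:ℝ) * δ ^ 2 / 4)) := by
    intro v hv
    have hX : ∀ s : Fin n → ℤˣ, |(|(dotp s v : ℝ)| - meanAbs v)| ≤ b := by
      intro s
      have h1 := abs_dotp_le s v _ hv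
      have h2 := meanAbs_le v _ hv
      have h3 := meanAbs_nonneg v
      have h4 := abs_nonneg (dotp s v : ℝ)
      rw [abs_le]
      push_cast at h1 h2
      constructor <;> rw [hb] <;> nlinarith
    have hmean : ∑ s : Fin n → ℤˣ, (|(dotp s v : ℝ)| - meanAbs v) = 0 := by
      rw [Finset.sum_sub_distrib, Finset.sum_const, Finset.card_univ, nsmul_eq_mul, card_signsFin]
      unfold meanAbs
      field_simp
      ring
    have := count_hoeffding_abs (κ := Fin N) (fun s : Fin n → ℤˣ => |(dotp s v : ℝ)| - meanAbs v)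
      b hb0 hX hmean δ hδ0 hδ2
    rw [card_signsFin] at this
    refine this.trans (le_of_eq ?_)
    rw [htot, Fintype.card_fin]
  -- bad events of the second kind
  let bad2 : Fin N → (Fin n → ℤˣ) → Finset (Fin N → Fin n → ℤˣ) := fun j θ =>
    Finset.univ.filter fun ω => (n:ℝ) * 1 * η ≤ |(dotp (ω j) (sg θ) : ℝ)|
  have hbad2 : ∀ j, ∀ θ ∈ T, ((bad2 j θ).card : ℝ)
      ≤ 2 * (tot * Real.exp (-(n:ℝ) * η ^ 2 / 4)) := by
    intro j θ _
    have h1 := card_filter_coord (κ := Fin N) (S := Fin n → ℤˣ)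
      (fun s => (n:ℝ) * 1 * η ≤ |(dotp s (sg θ) : ℝ)|) j
    -- count of single sign vectors
    have h2 : ((Finset.univ.filter fun s : Fin n → ℤˣ => (n:ℝ) * 1 * η ≤ |(dotp s (sg θ) : ℝ)|).card : ℝ)
        ≤ 2 * ((2:ℝ) ^ n * Real.exp (-(n:ℝ) * η ^ 2 / 4)) := by
      have h3 := count_hoeffding_abs (κ := Fin n) (S := ℤˣ) (fun u => ((u:ℤ):ℝ)) 1 one_pos
        (by intro u; rcases Int.units_eq_one_or u with h | h <;> simp [h])
        (by
          have huniv : (Finset.univ : Finset ℤˣ) = {1, -1} := by decide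
          rw [huniv, Finset.sum_pair (by decide)]; simp) η hη0 hη
      have hbij : (Finset.univ.filter fun s : Fin n → ℤˣ => (n:ℝ) * 1 * η ≤ |(dotp s (sg θ) : ℝ)|).card
          = (Finset.univ.filter fun s : Fin n → ℤˣ =>
            ((Fintype.card (Fin n) : ℕ) : ℝ) * 1 * η ≤ |∑ k, ((s k : ℤ) : ℝ)|).card := by
        refine Finset.card_bij (fun s _ => s * θ) ?_ ?_ ?_
        · intro s hs
          rw [Finset.mem_filter] at hs ⊢
          refine ⟨Finset.mem_univ _, ?_⟩
          have : (∑ k, (((s * θ) k : ℤˣ) : ℤ) : ℤ) = dotp s (sg θ) := by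
            unfold dotp sg
            refine Finset.sum_congr rfl fun k _ => ?_
            simp
          have h4 : (∑ k, ((((s * θ) k : ℤˣ) : ℤ) : ℝ)) = (dotp s (sg θ) : ℝ) := by
            rw [← this]; push_cast; rfl
          rw [h4, Fintype.card_fin]
          exact hs.2
        · intro a _ b _ hab
          exact mul_right_cancel hab
        · intro s hs
          rw [Finset.mem_filter] at hs
          refine ⟨s * θ, ?_, ?_⟩
          · rw [Finset.mem_filter]
            refine ⟨Finset.mem_univ _, ?_⟩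
            have : dotp (s * θ) (sg θ) = (∑ k, ((s k : ℤˣ) : ℤ) : ℤ) := by
              unfold dotp sg
              refine Finset.sum_congr rfl fun k _ => ?_
              have : ((θ k : ℤ)) * (θ k : ℤ) = 1 := by
                rcases Int.units_eq_one_or (θ k) with h | h <;> simp [h]
              simp [mul_assoc, this]
            rw [this]
            have h4 := hs.2
            rw [Fintype.card_fin] at h4
            push_cast
            exact h4
          · have : θ * θ = 1 := by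
              funext k
              simp
            rw [mul_assoc, this, mul_one]
      rw [hbij]
      have hc : (Fintype.card ℤˣ : ℝ) = 2 := by rw [Fintype.card_units_int]; norm_num
      rw [hc] at h3
      simpa [Fintype.card_fin] using h3
    rw [card_signsFin] at h1
    have h2n : (0:ℝ) < (2:ℝ) ^ n := by positivity
    have h5 : ((bad2 j θ).card : ℝ) * (2:ℝ) ^ n ≤ (2 * ((2:ℝ) ^ n * Real.exp (-(n:ℝ) * η ^ 2 / 4))) * tot := by
      calc ((bad2 j θ).card : ℝ) * (2:ℝ) ^ n = _ := h1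
        _ ≤ _ := by
          rw [Fintype.card_fin]
          gcongr
    have h6 : ((bad2 j θ).card : ℝ) * (2:ℝ) ^ n ≤ (2 * (tot * Real.exp (-(n:ℝ) * η ^ 2 / 4))) * (2:ℝ) ^ n := by
      calc _ ≤ _ := h5
        _ = _ := by ring
    exact le_of_mul_le_mul_right h6 h2n
  -- cover
  have hcover : (Finset.univ : Finset (Fin N → Fin n → ℤˣ))
      ⊆ (cube (Fin n) (2 * M)).biUnion bad1 ∪ (Finset.univ : Finset (Fin N)).biUnion (fun j => T.biUnion (bad2 j)) := by
    intro ω _
    rw [Finset.mem_union]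
    by_cases h : ∀ v ∈ cube (Fin n) (2 * M), |(∑ j, |(dotp (ω j) v : ℝ)|) - N * meanAbs v| ≤ N * r
    · right
      obtain ⟨j, θ, hθ, hlt⟩ := hcon ω h
      rw [Finset.mem_biUnion]
      refine ⟨j, Finset.mem_univ _, ?_⟩
      rw [Finset.mem_biUnion]
      refine ⟨θ, hθ, ?_⟩
      simp only [bad2, Finset.mem_filter]
      refine ⟨Finset.mem_univ _, ?_⟩
      linarith
    · left
      push Not at h
      obtain ⟨v, hv, hlt⟩ := h
      rw [Finset.mem_biUnion]
      refine ⟨v, hv, ?_⟩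
      simp only [bad1, Finset.mem_filter]
      refine ⟨Finset.mem_univ _, ?_⟩
      have e1 : ∑ j, (|(dotp (ω j) v : ℝ)| - meanAbs v) = (∑ j, |(dotp (ω j) v : ℝ)|) - N * meanAbs v := by
        rw [Finset.sum_sub_distrib, Finset.sum_const, Finset.card_univ, nsmul_eq_mul, Fintype.card_fin]
      rw [e1, Fintype.card_fin]
      have e2 : (N:ℝ) * b * δ = N * r := by rw [hδ]; field_simp
      rw [e2]
      exact hlt.le
  have hcardU : ((Finset.univ : Finset (Fin N → Fin n → ℤˣ)).card : ℝ) = tot := by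
    rw [Finset.card_univ, Fintype.card_fun, Fintype.card_fin, Nat.cast_pow, card_signsFin]
  have hle : tot ≤ (∑ v ∈ cube (Fin n) (2 * M), ((bad1 v).card : ℝ))
      + ∑ j : Fin N, ∑ θ ∈ T, ((bad2 j θ).card : ℝ) := by
    rw [← hcardU]
    have h1 := Finset.card_le_card hcover
    have h2 := h1.trans (Finset.card_union_le _ _)
    have h3 := Finset.card_biUnion_le (s := cube (Fin n) (2 * M)) (t := bad1)
    have h4 : ((Finset.univ : Finset (Fin N)).biUnion (fun j => T.biUnion (bad2 j))).card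
        ≤ ∑ j : Fin N, ∑ θ ∈ T, (bad2 j θ).card :=
      Finset.card_biUnion_le.trans (Finset.sum_le_sum fun j _ => Finset.card_biUnion_le)
    have h5 := h2.trans (add_le_add h3 h4)
    exact_mod_cast h5
  have hs1 : ∑ v ∈ cube (Fin n) (2 * M), ((bad1 v).card : ℝ) ≤ tot * (1/4) := by
    calc _ ≤ ∑ _v ∈ cube (Fin n) (2 * M), (2 * (tot * Real.exp (-(N:ℝ) * δ ^ 2 / 4))) :=
          Finset.sum_le_sum hbad1
      _ = tot * (((4 * M + 1 : ℕ) : ℝ) ^ n * (2 * Real.exp (-(N:ℝ) * δ ^ 2 / 4))) := by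
          rw [Finset.sum_const, card_cube, nsmul_eq_mul, Fintype.card_fin]
          push_cast
          ring
      _ ≤ tot * (1/4) := by gcongr
  have hs2 : ∑ j : Fin N, ∑ θ ∈ T, ((bad2 j θ).card : ℝ) ≤ tot * (1/4) := by
    calc _ ≤ ∑ _j : Fin N, ∑ _θ ∈ T, (2 * (tot * Real.exp (-(n:ℝ) * η ^ 2 / 4))) :=
          Finset.sum_le_sum fun j _ => Finset.sum_le_sum fun θ hθ => hbad2 j θ hθ
      _ = tot * ((N:ℝ) * (T.card * (2 * Real.exp (-(n:ℝ) * η ^ 2 / 4)))) := by
          rw [Finset.sum_const, Finset.sum_const, nsmul_eq_mul, nsmul_eq_mul, Finset.card_univ, Fintype.card_fin]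
          ring
      _ ≤ tot * ((N:ℝ) * (N * (2 * Real.exp (-(n:ℝ) * η ^ 2 / 4)))) := by
          have : (T.card : ℝ) ≤ N := by exact_mod_cast hT
          gcongr
      _ ≤ tot * (1/4) := by gcongr
  linarith

end Pool.Agent.H67
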