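import Pool.Agent.H67.Glue

/-!
Parameter selection for `p = 1`.
-/

set_option autoImplicit false
set_option linter.unusedSectionVars false
set_option linter.unusedSimpArgs false
set_option maxHeartbeats 4000000

open Finset BigOperators Filter Topology
open scoped ENNReal

namespace Pool.Agent.H67

lemma eventually_pow_le_exp (B b : ℝ) (k : ℕ) (hb : 0 < b) :
    ∀ᶠ n : ℕ in atTop, B * (n:ℝ) ^ k ≤ Real.exp (b * n) := by
  have h1 : Tendsto (fun n : ℕ => b * (n:ℝ)) atTop atTop :=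
    tendsto_natCast_atTop_atTop.const_mul_atTop hb
  have h2 := (Real.tendsto_pow_mul_exp_neg_atTop_nhds_zero k).comp h1
  have h3 : Tendsto (fun n : ℕ => (|B| / b ^ k) * (((fun x : ℝ => x ^ k * Real.exp (-x)) ∘ fun n : ℕ => b * (n:ℝ)) n))
      atTop (𝓝 0) := by
    have := h2.const_mul (|B| / b ^ k)
    simpa using this
  have h4 : ∀ᶠ n : ℕ in atTop, (|B| / b ^ k) * (((fun x : ℝ => x ^ k * Real.exp (-x)) ∘ fun n : ℕ => b * (n:ℝ)) n) < 1 :=
    h3.eventually (gt_mem_nhds one_pos)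
  filter_upwards [h4] with n hn
  simp only [Function.comp] at hn
  have hbk : 0 < b ^ k := by positivity
  have e : |B| / b ^ k * ((b * (n:ℝ)) ^ k * Real.exp (-(b * n))) = |B| * (n:ℝ) ^ k / Real.exp (b * n) := by
    rw [Real.exp_neg, mul_pow]
    field_simp
  rw [e, div_lt_one (Real.exp_pos _)] at hn
  calc B * (n:ℝ) ^ k ≤ |B| * (n:ℝ) ^ k := by gcongr; exact le_abs_self B
    _ ≤ _ := hn.le

lemma L1_emb_norm {n N : ℕ} (ζ : Fin N → Fin n → ℤˣ) (v : Fin n → ℤ) :
    ‖emb 1 (1 / (N:ℝ)) (J ζ v)‖ = (∑ j, |(dotp (ζ j) v : ℝ)|) / N := by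
  have h := emb_norm_rpow (p := 1) (by simp) (1 / (N:ℝ)) (J ζ v)
  simp only [ENNReal.toReal_one, Real.rpow_one] at h
  rw [h, Finset.sum_div]
  refine Finset.sum_congr rfl fun j _ => ?_
  rw [abs_mul, abs_of_nonneg (by positivity : (0:ℝ) ≤ 1 / N)]
  unfold J
  ring

lemma meanAbs_smul_sg {n : ℕ} (H : ℕ) (ε : Fin n → ℤˣ) :
    meanAbs ((H:ℤ) • sg ε) = H * (((2:ℝ) ^ n)⁻¹ * ∑ s : Fin n → ℤˣ, |((∑ k, sg s k : ℤ) : ℝ)|) := by
  unfold meanAbs
  have h : ∑ s : Fin n → ℤˣ, |(dotp s ((H:ℤ) • sg ε) : ℝ)|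
      = H * ∑ s : Fin n → ℤˣ, |((∑ k, sg s k : ℤ) : ℝ)| := by
    rw [Finset.mul_sum]
    rw [← Equiv.sum_comp (Equiv.mulRight ε) (fun s => (H:ℝ) * |((∑ k, sg s k : ℤ) : ℝ)|)]
    refine Finset.sum_congr rfl fun s _ => ?_
    have e : dotp s ((H:ℤ) • sg ε) = H * ∑ k, sg (Equiv.mulRight ε s) k := by
      unfold dotp sg
      rw [Finset.mul_sum]
      refine Finset.sum_congr rfl fun k _ => ?_
      simp
      ring
    rw [e]
    push_cast
    rw [abs_mul, Nat.abs_cast]
  rw [h]; ring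

lemma card_ratio (n H : ℕ) (hn : 0 < n) :
    ((cube (Fin n) (2 * n * H + H)).card : ℝ) ≤ 2 * (cube (Fin n) (2 * n * H)).card := by
  rw [card_cube, card_cube, Fintype.card_fin]
  push_cast
  have hnR : (0:ℝ) < n := by exact_mod_cast hn
  have hHR : (0:ℝ) ≤ H := by positivity
  -- ratio at most (1 + 1/(2n))^n ≤ exp (1/2) ≤ 2
  have h1 : 2 * (2 * (n:ℝ) * H + H) + 1 ≤ (2 * (2 * n * H) + 1) * Real.exp (1 / (2 * n)) := by
    have h2 : 1 + 1 / (2 * (n:ℝ)) ≤ Real.exp (1 / (2 * n)) := by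
      linarith [Real.add_one_le_exp (1 / (2 * (n:ℝ)))]
    calc 2 * (2 * (n:ℝ) * H + H) + 1 ≤ (2 * (2 * n * H) + 1) * (1 + 1 / (2 * n)) := by
          have : (2 * (2 * n * H) + 1) * (1 + 1 / (2 * n)) = 2 * (2 * (n:ℝ) * H + H) + 1 + 1 / (2 * n) := by
            field_simp
            ring
          rw [this]
          have : 0 < 1 / (2 * (n:ℝ)) := by positivity
          linarith
      _ ≤ _ := by gcongr
  calc (2 * (2 * (n:ℝ) * H + H) + 1) ^ n ≤ ((2 * (2 * n * H) + 1) * Real.exp (1 / (2 * n))) ^ n := by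
        gcongr
    _ = (2 * (2 * n * H) + 1) ^ n * Real.exp (1 / 2) := by
        rw [mul_pow, ← Real.exp_nat_mul]
        congr 2
        field_simp
    _ ≤ (2 * (2 * n * H) + 1) ^ n * 2 := by
        gcongr
        have := Real.exp_one_lt_d9
        have h3 : Real.exp (1/2) ^ 2 = Real.exp 1 := by
          rw [← Real.exp_nat_mul]; norm_num
        nlinarith [Real.exp_pos (1/2)]
    _ = _ := by ring

theorem bad_one (C : ℝ) : Bad 1 C := by
  classical
  set D : ℝ := max C 1 with hDdef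
  have hD1 : 1 ≤ D := le_max_right _ _
  have hCD : C ≤ D := le_max_left _ _
  have hD0 : 0 < D := by linarith
  -- constants
  obtain ⟨K, hK⟩ := exists_nat_ge (384 * D)
  have hK1 : 384 ≤ K := by
    have : (384:ℝ) ≤ K := by linarith
    exact_mod_cast this
  have hK0 : 0 < K := by omega
  have hKR : (0:ℝ) < K := by exact_mod_cast hK0
  set η : ℝ := (1 / (64 * D)) ^ 2 with hη
  have hη0 : 0 < η := by positivity
  have hη2 : η ≤ 2 := by
    rw [hη]
    have : 1 / (64 * D) ≤ 1 := by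
      rw [div_le_one (by positivity)]; linarith
    have h0 : 0 ≤ 1 / (64 * D) := by positivity
    nlinarith
  -- H = K² n² P ; P = K N n² ; L = K n P ; N = n^10
  set b : ℝ := 1 / (256 * (K:ℝ) ^ 4) with hb
  have hb0 : 0 < b := by positivity
  have ev1 := eventually_pow_le_exp (8 * (16 * K ^ 3 + 1)) b 15 hb0
  have ev2 := eventually_pow_le_exp 8 (η ^ 2 / 4) 20 (by positivity)
  obtain ⟨n, ⟨hn1, hn2⟩, hn3⟩ := ((ev1.and ev2).and (eventually_gt_atTop 0)).exists
  have hnR : (1:ℝ) ≤ n := by exact_mod_cast hn3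
  have hnR0 : (0:ℝ) < n := by linarith
  set N : ℕ := n ^ 10 with hN
  have hN0 : 0 < N := by positivity
  have hNR : (0:ℝ) < N := by exact_mod_cast hN0
  set P : ℕ := K * N * n ^ 2 with hP
  have hP0 : 0 < P := by positivity
  have hPR : (0:ℝ) < P := by exact_mod_cast hP0
  set L : ℕ := K * n * P with hL
  have hL0 : 0 < L := by positivity
  have hLR : (0:ℝ) < L := by exact_mod_cast hL0
  set H : ℕ := K ^ 2 * n ^ 2 * P with hH
  have hH0 : 0 < H := by positivity
  have hHR : (0:ℝ) < H := by exact_mod_cast hH0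
  set M : ℕ := 4 * n * H with hM
  have hM0 : 0 < M := by positivity
  have hMR : (0:ℝ) < M := by exact_mod_cast hM0
  have eP : (P:ℝ) = K * N * n ^ 2 := by rw [hP]; push_cast; ring
  have eL : (L:ℝ) = K * n * P := by rw [hL]; push_cast; ring
  have eH : (H:ℝ) = K ^ 2 * n ^ 2 * P := by rw [hH]; push_cast; ring
  have eM : (M:ℝ) = 4 * n * H := by rw [hM]; push_cast; ring
  have eN : (N:ℝ) = n ^ 10 := by rw [hN]; push_cast; ring
  have hr : (P:ℝ) ≤ 2 * n * M := by
    have h1 : P ≤ H := by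
      rw [hH]; exact Nat.le_mul_of_pos_left _ (by positivity)
    have h2 : H ≤ 2 * n * M := by
      rw [hM]
      calc H = 1 * H := by ring
        _ ≤ (2 * n * (4 * n)) * H := by gcongr; nlinarith
        _ = _ := by ring
    exact_mod_cast h1.trans h2
  -- condition c1
  have c1 : ((4 * M + 1 : ℕ) : ℝ) ^ n * (2 * Real.exp (-(N:ℝ) * ((P:ℝ) / (2 * n * M)) ^ 2 / 4)) ≤ 1 / 4 := by
    have e1 : (P:ℝ) / (2 * n * M) = 1 / (8 * K ^ 2 * n ^ 4) := by
      rw [eM, eH]; field_simp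
      ring
    have e2 : -(N:ℝ) * ((P:ℝ) / (2 * n * M)) ^ 2 / 4 = -(b * n) * n := by
      rw [e1, eN, hb]; field_simp
      ring
    rw [e2]
    have h1 : ((4 * M + 1 : ℕ) : ℝ) ≤ (16 * K ^ 3 + 1) * (n:ℝ) ^ 15 := by
      push_cast
      rw [eM, eH, eP, eN]
      have : (1:ℝ) ≤ (n:ℝ) ^ 15 := one_le_pow₀ hnR
      nlinarith
    have h2 : 8 * ((16 * K ^ 3 + 1) * (n:ℝ) ^ 15) ≤ Real.exp (b * n) := by
      calc _ = 8 * (16 * K ^ 3 + 1) * (n:ℝ) ^ 15 := by ring
        _ ≤ _ := hn1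
    have h3 : ((4 * M + 1 : ℕ) : ℝ) ^ n * 8 ≤ Real.exp (b * n) ^ n := by
      have h4 : ((4 * M + 1 : ℕ) : ℝ) ^ n ≤ (Real.exp (b * n) / 8) ^ n := by
        gcongr
        rw [le_div_iff₀ (by norm_num)]
        linarith
      have h5 : (8:ℝ) ≤ 8 ^ n := by
        calc (8:ℝ) = 8 ^ 1 := by norm_num
          _ ≤ 8 ^ n := by gcongr; norm_num; omega
      calc ((4 * M + 1 : ℕ) : ℝ) ^ n * 8 ≤ (Real.exp (b * n) / 8) ^ n * 8 ^ n := by gcongr
        _ = Real.exp (b * n) ^ n := by rw [← mul_pow]; congr 1; ring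
    have e3 : Real.exp (-(b * n) * n) = (Real.exp (b * n) ^ n)⁻¹ := by
      rw [← Real.exp_nat_mul, ← Real.exp_neg]; congr 1; ring
    rw [e3]
    have hpos : 0 < Real.exp (b * n) ^ n := by positivity
    rw [← mul_assoc, ← div_eq_mul_inv, div_le_iff₀ hpos]
    linarith
  -- condition c2
  have c2 : (N:ℝ) * (N * (2 * Real.exp (-(n:ℝ) * η ^ 2 / 4))) ≤ 1 / 4 := by
    have e3 : Real.exp (-(n:ℝ) * η ^ 2 / 4) = (Real.exp (η ^ 2 / 4 * n))⁻¹ := by
      rw [← Real.exp_neg]; congr 1; ring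
    rw [e3]
    have hpos : 0 < Real.exp (η ^ 2 / 4 * n) := Real.exp_pos _
    have e4 : (N:ℝ) * (N * (2 * (Real.exp (η ^ 2 / 4 * n))⁻¹)) = (2 * (n:ℝ) ^ 20) / Real.exp (η ^ 2 / 4 * n) := by
      rw [eN]; field_simp
    rw [e4, div_le_iff₀ hpos]
    linarith
  -- families
  obtain ⟨θ, hθ1, -⟩ := exists_family n N M hn3 hN0 hM0 P η hPR.le hr hη0.le hη2 ∅ (by simp) c1 c2
  obtain ⟨ζ, hζ1, hζ2⟩ := exists_family n N M hn3 hN0 hM0 P η hPR.le hr hη0.le hη2
    (Finset.univ.image θ) (Finset.card_image_le.trans (by simp)) c1 c2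
  have hηinc : ∀ j i, |(dotp (ζ j) (sg (θ i)) : ℝ)| ≤ η * n := fun j i =>
    hζ2 j (θ i) (Finset.mem_image_of_mem _ (Finset.mem_univ i))
  have normdev : ∀ (ξ : Fin N → Fin n → ℤˣ),
      (∀ v ∈ cube (Fin n) (2 * M), |(∑ j, |(dotp (ξ j) v : ℝ)|) - N * meanAbs v| ≤ N * P) →
      ∀ v ∈ cube (Fin n) (2 * M), |‖emb 1 (1 / (N:ℝ)) (J ξ v)‖ - meanAbs v| ≤ P := by
    intro ξ hξ v hv
    have h := hξ v hv
    rw [L1_emb_norm]
    have e : (∑ j, |(dotp (ξ j) v : ℝ)|) / N - meanAbs v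
        = ((∑ j, |(dotp (ξ j) v : ℝ)|) - N * meanAbs v) / N := by field_simp
    rw [e, abs_div, abs_of_pos hNR, div_le_iff₀ hNR]
    linarith
  refine reduction 1 C D hCD n N M (1 / (N:ℝ)) P (by positivity) hPR ζ θ ?_ ?_
  · intro v hv
    have h1 := normdev ζ hζ1 v hv
    have h2 := normdev θ hθ1 v hv
    rw [abs_le] at h1 h2 ⊢
    constructor <;> linarith
  · intro FA FB hA hB hg hl
    have hsub : ∀ y ∈ cube (Fin n) (2 * n * H), ∀ ε : Fin n → ℤˣ,
        y ∈ cube (Fin n) M ∧ y + (H:ℤ) • sg ε ∈ cube (Fin n) M := by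
      intro y hy ε
      rw [mem_cube] at hy
      have hMZ : (M:ℤ) = 4 * n * H := by rw [hM]; push_cast; ring
      have hnZ : (1:ℤ) ≤ n := by exact_mod_cast hn3
      have hHZ : (0:ℤ) ≤ H := by positivity
      have h3 : (H:ℤ) ≤ n * H := by nlinarith
      constructor
      · rw [mem_cube]; intro i
        have := hy i
        push_cast at this
        rw [hMZ]
        nlinarith
      · rw [mem_cube]; intro i
        have h1 := hy i
        have h2 := abs_sg ε i
        have h4 : |(H:ℤ) * sg ε i| = H := by rw [abs_mul, h2]; simp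
        push_cast at h1
        calc |(y + (H:ℤ) • sg ε) i| = |y i + (H:ℤ) * sg ε i| := by simp
          _ ≤ |y i| + |(H:ℤ) * sg ε i| := abs_add_le _ _
          _ ≤ M := by rw [h4, hMZ]; nlinarith
    have key := main_ineq P L H M (2 * n * H) hn3 hP0 hL0 hN0 hH0 ζ θ η hη0.le hηinc D P hD0.le FA FB
      (by intro z i; refine (hA z i).trans (le_of_eq ?_); ring)
      (by intro z i; refine (hB z i).trans (le_of_eq ?_); ring)
      (by
        have h1 : L ≤ H := by
          rw [hH, hL]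
          calc K * n * P = 1 * (K * n) * P := by ring
            _ ≤ (K * n) * (K * n) * P := by
                gcongr
                exact Nat.one_le_iff_ne_zero.mpr (by positivity)
            _ = _ := by ring
        rw [hM]
        nlinarith)
      hg
      (by
        intro y hy ε
        obtain ⟨m1, m2⟩ := hsub y hy ε
        refine le_trans ?_ (hl _ m2 _ m1)
        have e : y + (H:ℤ) • sg ε - y = (H:ℤ) • sg ε := by abel
        rw [e]
        have hmem : (H:ℤ) • sg ε ∈ cube (Fin n) (2 * M) := by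
          rw [mem_cube]; intro i
          have h2 := abs_sg ε i
          have h4 : |(H:ℤ) * sg ε i| = H := by rw [abs_mul, h2]; simp
          have hMZ : (M:ℤ) = 4 * n * H := by rw [hM]; push_cast; ring
          have hnZ : (1:ℤ) ≤ n := by exact_mod_cast hn3
          have hHZ : (0:ℤ) ≤ H := by positivity
          have h3 : (H:ℤ) ≤ n * H := by nlinarith
          calc |((H:ℤ) • sg ε) i| = |(H:ℤ) * sg ε i| := by simp
            _ = H := h4
            _ ≤ ((2 * M : ℕ) : ℤ) := by push_cast; rw [hMZ]; nlinarith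
        have h1 := normdev ζ hζ1 _ hmem
        have h2 : (H:ℝ) * (√n / 2) ≤ meanAbs ((H:ℤ) • sg ε) := by
          rw [meanAbs_smul_sg]
          have h3 := sum_abs_S_ge n
          have h2n : (0:ℝ) < (2:ℝ) ^ n := by positivity
          have : √n / 2 ≤ ((2:ℝ) ^ n)⁻¹ * ∑ s : Fin n → ℤˣ, |((∑ k, sg s k : ℤ) : ℝ)| := by
            rw [inv_mul_eq_div, le_div_iff₀ h2n]; linarith
          gcongr
        have h3 : (P:ℝ) ≤ H * (√n / 4) := by
          have hs1 : 1 ≤ √(n:ℝ) := Real.one_le_sqrt.mpr hnR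
          rw [eH]
          have h5 : (4:ℝ) ≤ K ^ 2 * n ^ 2 := by
            have : (384:ℝ) ≤ K := by exact_mod_cast hK1
            have h6 : (1:ℝ) ≤ (n:ℝ) ^ 2 := one_le_pow₀ hnR
            nlinarith
          nlinarith [mul_le_mul h5 hs1 zero_le_one (by positivity)]
        rw [abs_le] at h1
        nlinarith [h1.1])
      (by
        -- 2 D (P + n L) ≤ H √n / 8
        have hs1 : 1 ≤ √(n:ℝ) := Real.one_le_sqrt.mpr hnR
        rw [eH, eL]
        have h6 : (1:ℝ) ≤ (n:ℝ) ^ 2 := one_le_pow₀ hnR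
        have h7 : P + n * (K * n * P) ≤ 2 * K * n ^ 2 * (P:ℝ) := by
          have : (1:ℝ) ≤ K * n ^ 2 := by
            have : (384:ℝ) ≤ K := by exact_mod_cast hK1
            nlinarith
          nlinarith
        calc 2 * (D * (P + n * (K * n * P))) ≤ 2 * (D * (2 * K * n ^ 2 * (P:ℝ))) := by gcongr
          _ = (4 * D) * (K * n ^ 2 * P) := by ring
          _ ≤ (K / 8) * (K * n ^ 2 * P) := by gcongr; linarith
          _ = K ^ 2 * n ^ 2 * P * (1 / 8) := by ring
          _ ≤ K ^ 2 * n ^ 2 * P * (√n / 8) := by gcongr)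
      (card_ratio n H hn3)
    -- final contradiction
    have hs1 : 1 ≤ √(n:ℝ) := Real.one_le_sqrt.mpr hnR
    have t1 : √(η * n) * D = √n / 64 := by
      rw [Real.sqrt_mul hη0.le, hη, Real.sqrt_sq (by positivity)]
      field_simp
    have t2 : n * (2 * (D * ((P:ℝ) + 2 * P)) / L) ≤ √n / 64 := by
      rw [eL]
      have : n * (2 * (D * ((P:ℝ) + 2 * P)) / (K * n * P)) = 6 * D / K := by field_simp; ring
      rw [this, div_le_iff₀ hKR]
      nlinarith
    have t3 : n * (4 * D * N / P) + 2 * D * N * n ^ 2 / P ≤ √n / 64 := by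
      rw [eP]
      have e1 : n * (4 * D * N / (K * N * n ^ 2)) = 4 * D / (K * n) := by field_simp
      have e2 : 2 * D * N * n ^ 2 / (K * N * n ^ 2) = 2 * D / K := by field_simp
      rw [e1, e2]
      have e3 : 4 * D / (K * n) ≤ 4 * D / K := by
        apply div_le_div_of_nonneg_left (by positivity) hKR
        nlinarith
      have e4 : 4 * D / K + 2 * D / K = 6 * D / K := by ring
      have e5 : 6 * D / K ≤ √n / 64 := by
        rw [div_le_iff₀ hKR]
        nlinarith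
      linarith
    have t4 : n * (4 * D * N / P + 2 * (D * ((P:ℝ) + 2 * P)) / L)
        = n * (4 * D * N / P) + n * (2 * (D * ((P:ℝ) + 2 * P)) / L) := by ring
    rw [t1, t4] at key
    linarith

end Pool.Agent.H67
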