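import Pool.Agent.H67.GeoTree

/-!
# Flows on finite trees of words
-/

set_option autoImplicit false

namespace Pool.Agent.H67

open Finset Classical

section capacity

variable {X : Type*} (T : Finset (List X)) (n : ℕ)

/-- The children of a word in `T`. -/
noncomputable def ch (w : List X) : Finset (List X) := T.filter (fun v => v ≠ [] ∧ v.tail = w)

theorem mem_ch {w v : List X} : v ∈ ch T w ↔ v ∈ T ∧ v ≠ [] ∧ v.tail = w := by
  rw [ch, Finset.mem_filter]

theorem mem_ch' {w v : List X} : v ∈ ch T w ↔ ∃ x, v = x :: w ∧ x :: w ∈ T := by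
  rw [mem_ch]
  constructor
  · rintro ⟨h1, h2, h3⟩
    obtain ⟨x, w', rfl⟩ := List.exists_cons_of_ne_nil h2
    rw [List.tail_cons] at h3
    subst h3
    exact ⟨x, rfl, h1⟩
  · rintro ⟨x, rfl, h⟩
    exact ⟨h, by simp, rfl⟩

/-- Normalised capacities. -/
noncomputable def cap : ℕ → List X → ℝ
  | 0, w => if w ∈ T ∧ w.length = n then 1 else 0
  | h + 1, w => min 1 ((1 / 2) * ∑ v ∈ ch T w, cap h v)

theorem cap_nonneg : ∀ (h : ℕ) (w : List X), 0 ≤ cap T n h w
  | 0, w => by
    rw [cap]
    split_ifs <;> norm_num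
  | h + 1, w => by
    rw [cap]
    refine le_min zero_le_one (mul_nonneg (by norm_num) (Finset.sum_nonneg fun v _ => ?_))
    exact cap_nonneg h v

theorem cap_le_one : ∀ (h : ℕ) (w : List X), cap T n h w ≤ 1
  | 0, w => by
    rw [cap]
    split_ifs <;> norm_num
  | h + 1, w => by
    rw [cap]
    exact min_le_left _ _

/-- The total capacity at height `h`. -/
noncomputable def tot (h : ℕ) : ℝ := ∑ w ∈ T.filter (fun w => w.length + h = n), cap T n h w

theorem tot_fiber (hT : ∀ w ∈ T, ∀ u : List X, u <:+ w → u ∈ T) (h : ℕ) (hh : h < n) :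
    tot T n h = ∑ w ∈ T.filter (fun w => w.length + (h + 1) = n),
      ∑ v ∈ ch T w, cap T n h v := by
  unfold tot
  have hmaps : ∀ v ∈ T.filter (fun w => w.length + h = n),
      v.tail ∈ T.filter (fun w => w.length + (h + 1) = n) := by
    intro v hv
    rw [Finset.mem_filter] at hv ⊢
    have hne : v ≠ [] := by
      rintro rfl
      have := hv.2
      simp only [List.length_nil, zero_add] at this
      omega
    refine ⟨hT v hv.1 _ (List.tail_suffix v), ?_⟩
    have h1 : 1 ≤ v.length := List.length_pos_of_ne_nil hne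
    rw [List.length_tail]
    omega
  rw [← Finset.sum_fiberwise_of_maps_to hmaps]
  apply Finset.sum_congr rfl
  intro w hw
  apply Finset.sum_congr _ (fun _ _ => rfl)
  ext v
  rw [Finset.mem_filter, Finset.mem_filter, mem_ch]
  rw [Finset.mem_filter] at hw
  constructor
  · rintro ⟨⟨h1, h2⟩, h3⟩
    refine ⟨h1, ?_, h3⟩
    rintro rfl
    simp only [List.length_nil, zero_add] at h2
    omega
  · rintro ⟨h1, h2, h3⟩
    refine ⟨⟨h1, ?_⟩, h3⟩
    have h4 : 1 ≤ v.length := List.length_pos_of_ne_nil h2
    have h5 := congrArg List.length h3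
    rw [List.length_tail] at h5
    omega

theorem tot_step (hT : ∀ w ∈ T, ∀ u : List X, u <:+ w → u ∈ T) (d : ℕ) (hd : 1 ≤ d)
    (hch : ∀ w, (ch T w).card ≤ d) (h : ℕ) (hh : h < n) :
    tot T n h / (2 * d) ≤ tot T n (h + 1) := by
  have hdr : (1 : ℝ) ≤ d := by exact_mod_cast hd
  rw [tot_fiber T n hT h hh, Finset.sum_div, tot]
  apply Finset.sum_le_sum
  intro w _
  rw [cap]
  have h0 : 0 ≤ ∑ v ∈ ch T w, cap T n h v := Finset.sum_nonneg fun v _ => cap_nonneg T n h v
  have h1 : ∑ v ∈ ch T w, cap T n h v ≤ d := by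
    calc ∑ v ∈ ch T w, cap T n h v ≤ ∑ v ∈ ch T w, (1 : ℝ) :=
          Finset.sum_le_sum fun v _ => cap_le_one T n h v
      _ = ((ch T w).card : ℝ) := by simp
      _ ≤ d := by exact_mod_cast hch w
  apply le_min
  · rw [div_le_one (by positivity)]
    linarith
  · rw [div_le_iff₀ (by positivity)]
    nlinarith

theorem tot_pow (hT : ∀ w ∈ T, ∀ u : List X, u <:+ w → u ∈ T) (d : ℕ) (hd : 1 ≤ d)
    (hch : ∀ w, (ch T w).card ≤ d) (h : ℕ) (hh : h ≤ n) :
    ((T.filter (fun w => w.length = n)).card : ℝ) ≤ tot T n h * (2 * d) ^ h := by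
  have hdr : (1 : ℝ) ≤ d := by exact_mod_cast hd
  induction h with
  | zero =>
    rw [pow_zero, mul_one, tot]
    simp only [add_zero]
    have : ∑ w ∈ T.filter (fun w => w.length = n), cap T n 0 w =
        ∑ w ∈ T.filter (fun w => w.length = n), (1 : ℝ) := by
      apply Finset.sum_congr rfl
      intro w hw
      rw [Finset.mem_filter] at hw
      rw [cap, if_pos hw]
    rw [this]
    simp
  | succ h ih =>
    have h1 := ih (by omega)
    have h2 := tot_step T n hT d hd hch h (by omega)
    rw [div_le_iff₀ (by positivity)] at h2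
    calc _ ≤ tot T n h * (2 * d) ^ h := h1
      _ ≤ tot T n (h + 1) * (2 * d) * (2 * d) ^ h :=
          mul_le_mul_of_nonneg_right h2 (by positivity)
      _ = _ := by rw [pow_succ]; ring

/-- A vertex at large height with full capacity. -/
theorem exists_full (hT : ∀ w ∈ T, ∀ u : List X, u <:+ w → u ∈ T) (d : ℕ) (hd : 1 ≤ d)
    (hch : ∀ w, (ch T w).card ≤ d) (M : ℕ)
    (hcard : 2 * 2 ^ n * (2 * (d : ℝ)) ^ M ≤ ((T.filter (fun w => w.length = n)).card : ℝ)) :
    ∃ h, M ≤ h ∧ ∃ w ∈ T, 2 ≤ ∑ v ∈ ch T w, cap T n h v := by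
  have hdr : (1 : ℝ) ≤ d := by exact_mod_cast hd
  have htop : tot T n n ≤ 1 := by
    rw [tot]
    have hsub : T.filter (fun w => w.length + n = n) ⊆ {[]} := by
      intro w hw
      rw [Finset.mem_filter] at hw
      have : w.length = 0 := by omega
      rw [Finset.mem_singleton]
      exact List.length_eq_zero_iff.mp this
    calc ∑ w ∈ T.filter (fun w => w.length + n = n), cap T n n w
        ≤ ∑ w ∈ ({[]} : Finset (List X)), cap T n n w :=
          Finset.sum_le_sum_of_subset_of_nonneg hsub (fun w _ _ => cap_nonneg T n n w)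
      _ ≤ 1 := by
          rw [Finset.sum_singleton]
          exact cap_le_one T n n []
  have h2d : (1 : ℝ) ≤ 2 * d := by linarith
  have hMn : M < n := by
    by_contra hcon
    rw [not_lt] at hcon
    have h1 := tot_pow T n hT d hd hch n le_rfl
    have h2 : ((2 * (d : ℝ)) ^ n) ≤ (2 * (d : ℝ)) ^ M := pow_le_pow_right₀ h2d hcon
    have h3 : (1 : ℝ) ≤ 2 ^ n := one_le_pow₀ (by norm_num)
    have h4 : (0 : ℝ) < (2 * (d : ℝ)) ^ n := by positivity
    have h5 : tot T n n * (2 * (d : ℝ)) ^ n ≤ 1 * (2 * (d : ℝ)) ^ n :=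
      mul_le_mul_of_nonneg_right htop h4.le
    have h6 : 2 * (2 * (d : ℝ)) ^ n ≤ 2 * 2 ^ n * (2 * (d : ℝ)) ^ M := by
      calc 2 * (2 * (d : ℝ)) ^ n ≤ 2 * (2 * (d : ℝ)) ^ M := by linarith
        _ = 2 * 1 * (2 * (d : ℝ)) ^ M := by ring
        _ ≤ 2 * 2 ^ n * (2 * (d : ℝ)) ^ M := by gcongr
    linarith
  by_contra hcon
  push Not at hcon
  have hstep : ∀ h, M ≤ h → h < n → tot T n (h + 1) = tot T n h / 2 := by
    intro h hMh hhn
    rw [tot_fiber T n hT h hhn, tot, Finset.sum_div]
    apply Finset.sum_congr rfl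
    intro w hw
    rw [Finset.mem_filter] at hw
    rw [cap, min_eq_right]
    · ring
    · have := hcon h hMh w hw.1
      linarith
  have hall : ∀ k, M + k ≤ n → tot T n M = tot T n (M + k) * 2 ^ k := by
    intro k
    induction k with
    | zero => intro _; simp
    | succ k ih =>
      intro hk
      rw [ih (by omega), ← add_assoc, hstep (M + k) (by omega) (by omega), pow_succ]
      ring
  have h1 := hall (n - M) (by omega)
  have h2 : M + (n - M) = n := by omega
  rw [h2] at h1
  have h3 := tot_pow T n hT d hd hch M hMn.le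
  have h4 : (0 : ℝ) < (2 * (d : ℝ)) ^ M := by positivity
  have h5 : tot T n M ≤ 2 ^ n := by
    rw [h1]
    calc tot T n n * 2 ^ (n - M) ≤ 1 * 2 ^ (n - M) :=
          mul_le_mul_of_nonneg_right htop (by positivity)
      _ = 2 ^ (n - M) := one_mul _
      _ ≤ 2 ^ n := pow_le_pow_right₀ (by norm_num) (by omega)
  have h6 : tot T n M * (2 * (d : ℝ)) ^ M ≤ 2 ^ n * (2 * (d : ℝ)) ^ M :=
    mul_le_mul_of_nonneg_right h5 h4.le
  have h7 : (0 : ℝ) < 2 ^ n * (2 * (d : ℝ)) ^ M := by positivity
  linarith

end capacity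

/-- A flow of length `M` on the `d`-regular tree together with a separated map of its support. -/
structure FlowMap (X : Type*) [MetricSpace X] (d : ℕ) (L a : ℝ) (M : ℕ)
    (θ : List (Fin d) → ℝ) (f : List (Fin d) → X) : Prop where
  root : θ [] = 1
  nonneg : ∀ w, 0 ≤ θ w
  decay : ∀ w, θ w ≤ (1 / 2) ^ w.length
  conserve : ∀ w, w.length < M → θ w = ∑ b, θ (b :: w)
  edge : ∀ b w, 0 < θ (b :: w) → 0 < θ w ∧ dist (f (b :: w)) (f w) ≤ L
  sep : ∀ w s t : List (Fin d), Dv s t → 0 < θ (s ++ w) → 0 < θ (t ++ w) →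
    a * ((s.length : ℝ) + t.length) ≤ dist (f (s ++ w)) (f (t ++ w))

section flow

variable {X : Type*} [MetricSpace X]

theorem exists_flowMap (T : Finset (List X)) (n : ℕ)
    (hT : ∀ w ∈ T, ∀ u : List X, u <:+ w → u ∈ T) (d : ℕ) (hd : 1 ≤ d)
    (hch : ∀ w, (ch T w).card ≤ d) (M : ℕ)
    (hcard : 2 * 2 ^ n * (2 * (d : ℝ)) ^ M ≤ ((T.filter (fun w => w.length = n)).card : ℝ))
    (z0 : X) (L a : ℝ)
    (hedge : ∀ (x : X) (w : List X), x :: w ∈ T → dist x (pos z0 w) ≤ L)
    (hsep : ∀ w s t : List X, Dv s t → s ++ w ∈ T → t ++ w ∈ T →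
      a * ((s.length : ℝ) + t.length) ≤ dist (pos z0 (s ++ w)) (pos z0 (t ++ w))) :
    ∃ (θ : List (Fin d) → ℝ) (f : List (Fin d) → X), FlowMap X d L a M θ f := by
  obtain ⟨h, hMh, x0, hx0, hfull⟩ := exists_full T n hT d hd hch M hcard
  -- labels
  have hlab : ∀ w : List X, ∃ e : List X → Fin d, Set.InjOn e (ch T w : Set (List X)) := by
    intro w
    have hc : Fintype.card {v // v ∈ ch T w} ≤ Fintype.card (Fin d) := by
      rw [Fintype.card_coe, Fintype.card_fin]
      exact hch w
    obtain ⟨e⟩ := Function.Embedding.nonempty_of_card_le hc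
    refine ⟨fun v => if hv : v ∈ ch T w then e ⟨v, hv⟩ else ⟨0, hd⟩, ?_⟩
    intro v hv v' hv' hvv
    have hv1 : v ∈ ch T w := hv
    have hv2 : v' ∈ ch T w := hv'
    simp only [hv1, hv2, dif_pos] at hvv
    have := e.injective hvv
    exact congrArg Subtype.val this
  choose e he using hlab
  -- decoding
  let nxt : List X → Fin d → List X := fun w b =>
    if hw : ∃ v, v ∈ ch T w ∧ e w v = b then hw.choose else []
  have hnxt : ∀ w b, (∃ v, v ∈ ch T w ∧ e w v = b) → nxt w b ∈ ch T w ∧ e w (nxt w b) = b := by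
    intro w b hw
    have : nxt w b = hw.choose := dif_pos hw
    rw [this]
    exact hw.choose_spec
  let dec : List (Fin d) → List X := fun u => u.foldr (fun b w => nxt w b) x0
  have hdec_nil : dec [] = x0 := rfl
  have hdec_cons : ∀ b u, dec (b :: u) = nxt (dec u) b := fun b u => rfl
  let S : ℕ → List X → ℝ := fun k w => ∑ v ∈ ch T w, cap T n k v
  let ok : List (Fin d) → Fin d → Prop := fun u b =>
    u.length < h + 1 ∧ ∃ v, v ∈ ch T (dec u) ∧ e (dec u) v = b
  -- the flow
  let θ : List (Fin d) → ℝ := fun u => List.rec (motive := fun _ => ℝ) 1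
    (fun b u th => if ok u b then
      th * (cap T n (h - u.length) (nxt (dec u) b) / S (h - u.length) (dec u)) else 0) u
  have hθ_nil : θ [] = 1 := rfl
  have hθ_cons : ∀ b u, θ (b :: u) = if ok u b then
      θ u * (cap T n (h - u.length) (nxt (dec u) b) / S (h - u.length) (dec u)) else 0 :=
    fun b u => rfl
  have hS0 : ∀ k w, 0 ≤ S k w := fun k w => Finset.sum_nonneg fun v _ => cap_nonneg T n k v
  have hθ0 : ∀ u, 0 ≤ θ u := by
    intro u
    induction u with
    | nil => rw [hθ_nil]; exact zero_le_one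
    | cons b u ih =>
      rw [hθ_cons]
      split_ifs
      · exact mul_nonneg ih (div_nonneg (cap_nonneg T n _ _) (hS0 _ _))
      · exact le_rfl
  -- the invariant
  have hinv : ∀ u, 0 < θ u → u.length ≤ h + 1 ∧ dec u ∈ T ∧
      θ u * 2 ^ u.length ≤ cap T n (h + 1 - u.length) (dec u) := by
    intro u
    induction u with
    | nil =>
      intro _
      refine ⟨Nat.zero_le _, hx0, ?_⟩
      rw [hθ_nil, hdec_nil, List.length_nil, pow_zero, mul_one, Nat.sub_zero, cap]
      exact le_min le_rfl (by linarith)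
    | cons b u ih =>
      intro hpos
      rw [hθ_cons] at hpos
      split_ifs at hpos with hok
      · have hu : 0 < θ u := by
          rcases (hθ0 u).lt_or_eq with h1 | h1
          · exact h1
          · rw [← h1, zero_mul] at hpos
            exact absurd hpos (lt_irrefl _)
        obtain ⟨h1, h2, h3⟩ := ih hu
        obtain ⟨hlt, hex⟩ := hok
        obtain ⟨hc1, hc2⟩ := hnxt _ _ hex
        have e1 : h + 1 - u.length = (h - u.length) + 1 := by omega
        rw [e1, cap] at h3
        have hSpos : 0 < S (h - u.length) (dec u) := by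
          rcases (hS0 (h - u.length) (dec u)).lt_or_eq with h4 | h4
          · exact h4
          · rw [← h4, div_zero, mul_zero] at hpos
            exact absurd hpos (lt_irrefl _)
        have h4 : θ u * 2 ^ u.length ≤ S (h - u.length) (dec u) / 2 := by
          have := h3.trans (min_le_right _ _)
          show _ ≤ (∑ v ∈ ch T (dec u), cap T n (h - u.length) v) / 2
          linarith
        refine ⟨?_, ?_, ?_⟩
        · rw [List.length_cons]
          omega
        · rw [hdec_cons]
          exact ((mem_ch T).mp hc1).1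
        · rw [hθ_cons, if_pos ⟨hlt, hex⟩, hdec_cons, List.length_cons, pow_succ]
          have e2 : h + 1 - (u.length + 1) = h - u.length := by omega
          rw [e2]
          set g := cap T n (h - u.length) (nxt (dec u) b) with hg
          set s := S (h - u.length) (dec u) with hs
          have hg0 : 0 ≤ g := cap_nonneg T n _ _
          calc θ u * (g / s) * (2 ^ u.length * 2) = (θ u * 2 ^ u.length) * (2 * (g / s)) := by ring
            _ ≤ (s / 2) * (2 * (g / s)) :=
                mul_le_mul_of_nonneg_right h4 (by positivity)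
            _ = g := by field_simp
      · exact absurd hpos (lt_irrefl _)
  have hθpos : ∀ b u, 0 < θ (b :: u) → 0 < θ u ∧ ok u b := by
    intro b u hpos
    rw [hθ_cons] at hpos
    split_ifs at hpos with hok
    · refine ⟨?_, hok⟩
      rcases (hθ0 u).lt_or_eq with h1 | h1
      · exact h1
      · rw [← h1, zero_mul] at hpos
        exact absurd hpos (lt_irrefl _)
    · exact absurd hpos (lt_irrefl _)
  refine ⟨θ, fun u => pos z0 (dec u), ⟨hθ_nil, hθ0, ?_, ?_, ?_, ?_⟩⟩
  · intro u
    rcases (hθ0 u).lt_or_eq with h1 | h1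
    · obtain ⟨_, _, h3⟩ := hinv u h1
      have h4 := h3.trans (cap_le_one T n _ _)
      rw [div_pow, one_pow, le_div_iff₀ (by positivity)]
      exact h4
    · rw [← h1]
      positivity
  · intro u hu
    rcases (hθ0 u).lt_or_eq with h1 | h1
    · obtain ⟨_, _, h3⟩ := hinv u h1
      have e1 : h + 1 - u.length = (h - u.length) + 1 := by omega
      rw [e1, cap] at h3
      have hSpos : 0 < S (h - u.length) (dec u) := by
        have h5 : θ u * 2 ^ u.length ≤ (1 / 2) * S (h - u.length) (dec u) :=
          h3.trans (min_le_right _ _)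
        have h6 : 0 < θ u * 2 ^ u.length := by positivity
        linarith
      have hsum : ∑ b : Fin d, (if ok u b then cap T n (h - u.length) (nxt (dec u) b) else 0) =
          S (h - u.length) (dec u) := by
        rw [← Finset.sum_filter]
        show _ = ∑ v ∈ ch T (dec u), cap T n (h - u.length) v
        symm
        apply Finset.sum_bij (fun v _ => e (dec u) v)
        · intro v hv
          rw [Finset.mem_filter]
          exact ⟨Finset.mem_univ _, by omega, v, hv, rfl⟩
        · intro v hv v' hv' hvv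
          exact he (dec u) hv hv' hvv
        · intro b hb
          rw [Finset.mem_filter] at hb
          obtain ⟨_, _, v, hv, hvb⟩ := hb
          exact ⟨v, hv, hvb⟩
        · intro v hv
          obtain ⟨hc1, hc2⟩ := hnxt (dec u) (e (dec u) v) ⟨v, hv, rfl⟩
          congr 1
          exact he (dec u) hv hc1 hc2.symm
      have hterm : ∀ b : Fin d, θ (b :: u) = (θ u / S (h - u.length) (dec u)) *
          (if ok u b then cap T n (h - u.length) (nxt (dec u) b) else 0) := by
        intro b
        rw [hθ_cons]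
        split_ifs
        · ring
        · ring
      simp only [hterm]
      rw [← Finset.mul_sum, hsum, div_mul_cancel₀ _ hSpos.ne']
    · have : ∀ b : Fin d, θ (b :: u) = 0 := by
        intro b
        rw [hθ_cons, ← h1]
        split_ifs
        · rw [zero_mul]
        · rfl
      simp only [this]
      rw [Finset.sum_const_zero, h1]
  · intro b u hpos
    obtain ⟨h1, hlt, hex⟩ := hθpos b u hpos
    refine ⟨h1, ?_⟩
    obtain ⟨hc1, _⟩ := hnxt _ _ hex
    obtain ⟨x, hx1, hx2⟩ := (mem_ch' T).mp hc1
    show dist (pos z0 (nxt (dec u) b)) (pos z0 (dec u)) ≤ L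
    rw [hx1]
    exact hedge x (dec u) hx2
  · -- separation
    have hdecs : ∀ w s : List (Fin d), 0 < θ (s ++ w) → ∃ s' : List X,
        dec (s ++ w) = s' ++ dec w ∧ s'.length = s.length ∧
        ∀ x : X, [x] <:+ s' → [e (dec w) (x :: dec w)] <:+ s := by
      intro w s
      induction s with
      | nil =>
        intro _
        refine ⟨[], rfl, rfl, ?_⟩
        intro x hx
        exact absurd hx (by simp)
      | cons b s ih =>
        intro hpos
        obtain ⟨h1, hlt, hex⟩ := hθpos b (s ++ w) hpos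
        obtain ⟨s', hs1, hs2, hs3⟩ := ih h1
        obtain ⟨hc1, hc2⟩ := hnxt _ _ hex
        obtain ⟨x, hx1, hx2⟩ := (mem_ch' T).mp hc1
        refine ⟨x :: s', ?_, ?_, ?_⟩
        · show nxt (dec (s ++ w)) b = x :: s' ++ dec w
          rw [hx1, hs1]
          rfl
        · rw [List.length_cons, List.length_cons, hs2]
        · intro y hy
          rcases List.suffix_cons_iff.mp hy with h2 | h2
          · have h3 : y = x ∧ [] = s' := by
              rw [List.cons.injEq] at h2
              exact h2
            have h4 : s = [] := by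
              rw [← List.length_eq_zero_iff, ← hs2, ← h3.2]
              rfl
            subst h4
            rw [List.nil_append] at hc2 hx1 hx2
            rw [h3.1, ← hx1, hc2]
          · exact (hs3 y h2).trans (List.suffix_cons b s)
    intro w s t hDv hs ht
    obtain ⟨s', hs1, hs2, hs3⟩ := hdecs w s hs
    obtain ⟨t', ht1, ht2, ht3⟩ := hdecs w t ht
    have hDv' : Dv s' t' := fun x hx => hDv _ ⟨hs3 x hx.1, ht3 x hx.2⟩
    have h1 := (hinv _ hs).2.1
    have h2 := (hinv _ ht).2.1
    rw [hs1] at h1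
    rw [ht1] at h2
    have h3 := hsep (dec w) s' t' hDv' h1 h2
    rw [hs2, ht2] at h3
    show _ ≤ dist (pos z0 (dec (s ++ w))) (pos z0 (dec (t ++ w)))
    rw [hs1, ht1]
    exact h3

end flow

end Pool.Agent.H67
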