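import Pool.Agent.H67.Perc

/-!
# A separated tree of words in a geodesic space of exponential growth
-/

set_option autoImplicit false

namespace Pool.Agent.H67

open Finset Classical

/-- `Z` is `1`-separated. -/
def Sep1 {X : Type*} [MetricSpace X] (Z : Finset X) : Prop :=
  ∀ a ∈ Z, ∀ b ∈ Z, a ≠ b → 1 ≤ dist a b

/-- The words `s` and `t` have no common first (bottom) letter. -/
def Dv {α : Type*} (s t : List α) : Prop := ∀ x : α, ¬ ([x] <:+ s ∧ [x] <:+ t)

theorem Dv.symm {α : Type*} {s t : List α} (h : Dv s t) : Dv t s := fun x hx => h x ⟨hx.2, hx.1⟩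

theorem exists_bottom {α : Type*} {s : List α} (h : s ≠ []) : ∃ x, [x] <:+ s := by
  rcases List.eq_nil_or_concat s with h1 | ⟨L, x, h1⟩
  · exact absurd h1 h
  · exact ⟨x, L, by rw [h1, List.concat_eq_append]⟩

theorem suffix_append_right {α : Type*} {s t : List α} (h : s <:+ t) (w : List α) :
    s ++ w <:+ t ++ w := by
  obtain ⟨r, hr⟩ := h
  exact ⟨r, by rw [← hr, List.append_assoc]⟩

theorem eq_of_suffix_of_length {α : Type*} {u v w : List α} (h1 : u <:+ w) (h2 : v <:+ w)
    (h : u.length = v.length) : u = v :=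
  (List.suffix_of_suffix_length_le h1 h2 h.le).eq_of_length h

/-- The ancestors of `t ++ w` which are not ancestors of a word above `s ++ w`. -/
theorem card_anc_sdiff {α : Type*} {s t w v : List α} (hs : s ≠ []) (hD : Dv s t)
    (hv : s ++ w <:+ v) : t.length ≤ (anc (t ++ w) \ anc v).card := by
  have h : (range t.length).card ≤ (anc (t ++ w) \ anc v).card := by
    apply Finset.card_le_card_of_injOn (fun k => (t ++ w).drop k)
    · intro k hk
      have hk' : k < t.length := Finset.mem_range.mp (Finset.mem_coe.mp hk)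
      rw [Finset.mem_coe, Finset.mem_sdiff, mem_anc, mem_anc]
      refine ⟨List.drop_suffix _ _, ?_⟩
      intro hsuf
      have e1 : (t ++ w).drop k = t.drop k ++ w := by
        rw [List.drop_append_of_le_length hk'.le]
      have hne : t.drop k ≠ [] := by
        rw [Ne, List.drop_eq_nil_iff]
        omega
      obtain ⟨x, hx⟩ := exists_bottom hne
      obtain ⟨y, hy⟩ := exists_bottom hs
      have h1 : [x] ++ w <:+ v := by
        have hsuf' : t.drop k ++ w <:+ v := by
          rw [← e1]
          exact hsuf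
        exact (suffix_append_right hx w).trans hsuf'
      have h2 : [y] ++ w <:+ v := (suffix_append_right hy w).trans hv
      have h3 := eq_of_suffix_of_length h1 h2 (by simp)
      have h4 : x = y := by
        have := (List.append_inj_left h3 rfl)
        simpa using this
      subst h4
      exact hD x ⟨hy, hx.trans (List.drop_suffix _ _)⟩
    · intro k hk l hl hkl
      have hk' : k < t.length := Finset.mem_range.mp (Finset.mem_coe.mp hk)
      have hl' : l < t.length := Finset.mem_range.mp (Finset.mem_coe.mp hl)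
      have := congrArg List.length hkl
      simp only [List.length_drop, List.length_append] at this
      omega
  rwa [Finset.card_range] at h

section

variable {X : Type*} [MetricSpace X]

/-- A maximal net in a ball. -/
theorem exists_net (D : ℕ)
    (hD : ∀ (m : ℕ) (x : X) (Z : Finset X), Sep1 Z → (Z : Set X) ⊆ Metric.closedBall x m →
      Z.card ≤ D ^ m) (x₀ : X) (m : ℕ) :
    ∃ Z : Finset X, Sep1 Z ∧ (Z : Set X) ⊆ Metric.closedBall x₀ m ∧
      (∀ y ∈ Metric.closedBall x₀ (m : ℝ), ∃ z ∈ Z, dist y z < 1) ∧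
      ∀ S : Finset X, Sep1 S → (S : Set X) ⊆ Metric.closedBall x₀ m → S.card ≤ Z.card := by
  let N : Set ℕ := {n | ∃ Z : Finset X, Sep1 Z ∧ (Z : Set X) ⊆ Metric.closedBall x₀ m ∧
    Z.card = n}
  have hne : N.Nonempty := ⟨0, ∅, by intro a ha; simp at ha, by simp, by simp⟩
  have hbdd : BddAbove N := ⟨D ^ m, by
    rintro n ⟨Z, h1, h2, rfl⟩
    exact hD m x₀ Z h1 h2⟩
  obtain ⟨Z, h1, h2, h3⟩ := Nat.sSup_mem hne hbdd
  have hmax : ∀ S : Finset X, Sep1 S → (S : Set X) ⊆ Metric.closedBall x₀ m →
      S.card ≤ Z.card := by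
    intro S hS1 hS2
    rw [h3]
    exact le_csSup hbdd ⟨S, hS1, hS2, rfl⟩
  refine ⟨Z, h1, h2, ?_, hmax⟩
  intro y hy
  by_contra hcon
  push Not at hcon
  have hyZ : y ∉ Z := by
    intro h
    have := hcon y h
    rw [dist_self] at this
    linarith
  have h4 : Sep1 (insert y Z) := by
    intro a ha b hb hab
    rw [Finset.mem_insert] at ha hb
    rcases ha with rfl | ha
    · rcases hb with rfl | hb
      · exact absurd rfl hab
      · exact hcon b hb
    · rcases hb with rfl | hb
      · rw [dist_comm]
        exact hcon a ha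
      · exact h1 a ha b hb hab
  have h5 : ((insert y Z : Finset X) : Set X) ⊆ Metric.closedBall x₀ m := by
    rw [Finset.coe_insert]
    exact Set.insert_subset hy h2
  have h6 := hmax _ h4 h5
  rw [Finset.card_insert_of_notMem hyZ] at h6
  omega

/-- The position of a word. -/
def pos (z0 : X) (w : List X) : X := w.headD z0

/-- Admissible words. -/
def Adm (Z : Finset X) (z0 : X) (par : X → X) : List X → Prop
  | [] => True
  | x :: w => x ∈ Z ∧ x ≠ z0 ∧ par x = pos z0 w ∧ Adm Z z0 par w

/-- **The word tree.** -/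
theorem exists_word_tree (hgeo : ∀ (x y : X) (r : ℝ), 0 ≤ r → r ≤ dist x y →
      ∃ p : X, dist x p = dist x y - r ∧ dist p y = r) (D : ℕ) (hD1 : 1 ≤ D)
    (hD : ∀ (m : ℕ) (x : X) (Z : Finset X), Sep1 Z → (Z : Set X) ⊆ Metric.closedBall x m →
      Z.card ≤ D ^ m) (x₀ : X) (R : ℕ) (hR : 4 ≤ R) (m : ℕ) :
    ∃ (z0 : X) (W : Finset (List X)),
      (∀ w ∈ W, ∀ u : List X, u <:+ w → u ∈ W) ∧
      (∀ (x : X) (w : List X), x :: w ∈ W → dist x (pos z0 w) ≤ (R : ℝ) + 1) ∧
      (∀ (w : List X) (C : Finset X), (∀ x ∈ C, x :: w ∈ W) → C.card ≤ D ^ (R + 1)) ∧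
      (∀ v ∈ W, ∀ a ∈ anc v, ∑ v' ∈ W.filter (fun v' => ∃ w s t : List X, s ≠ [] ∧ t ≠ [] ∧
          a = s ++ w ∧ v' = t ++ w ∧ Dv s t ∧
          dist (pos z0 a) (pos z0 v') < ((s.length : ℝ) + t.length) / 4),
        (1 / ((4 * D : ℕ) : ℝ)) ^ (anc v' \ anc v).card ≤ 1 / 2) ∧
      (∀ w t : List X, t ≠ [] → t ++ w ∈ W →
        (t.length : ℝ) / 4 ≤ dist (pos z0 w) (pos z0 (t ++ w))) ∧
      (∀ w ∈ W, (w.length : ℝ) * ((R : ℝ) - 1) ≤ m + ((R : ℝ) - 1)) ∧
      (∀ S : Finset X, Sep1 S → (S : Set X) ⊆ Metric.closedBall x₀ m → S.card ≤ W.card) := by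
  obtain ⟨Z, hZ1, hZ2, hZ3, hZ4⟩ := exists_net D hD x₀ m
  have hRr : (4 : ℝ) ≤ R := by exact_mod_cast hR
  obtain ⟨z0, hz0, hz0d⟩ := hZ3 x₀ (Metric.mem_closedBall_self (Nat.cast_nonneg m))
  -- the parent map
  have hpar : ∀ z : X, ∃ p : X, z ∈ Z → p ∈ Z ∧ dist z p ≤ (R : ℝ) + 1 ∧
      (p = z0 ∨ dist x₀ p + ((R : ℝ) - 1) ≤ dist x₀ z) := by
    intro z
    by_cases hz : z ∈ Z
    · by_cases hd : dist x₀ z ≤ R
      · refine ⟨z0, fun _ => ⟨hz0, ?_, Or.inl rfl⟩⟩
        calc dist z z0 ≤ dist z x₀ + dist x₀ z0 := dist_triangle _ _ _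
          _ ≤ R + 1 := by
            rw [dist_comm z x₀]
            linarith
      · rw [not_le] at hd
        obtain ⟨y, hy1, hy2⟩ := hgeo x₀ z R (Nat.cast_nonneg R) hd.le
        have hym : y ∈ Metric.closedBall x₀ (m : ℝ) := by
          rw [Metric.mem_closedBall, dist_comm, hy1]
          have := hZ2 hz
          rw [Metric.mem_closedBall, dist_comm] at this
          linarith
        obtain ⟨p, hp, hyp⟩ := hZ3 y hym
        refine ⟨p, fun _ => ⟨hp, ?_, Or.inr ?_⟩⟩
        · calc dist z p ≤ dist z y + dist y p := dist_triangle _ _ _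
            _ ≤ R + 1 := by
              rw [dist_comm z y, hy2]
              linarith
        · have h1 : dist x₀ p ≤ dist x₀ y + dist y p := dist_triangle _ _ _
          rw [hy1] at h1
          linarith
    · exact ⟨z0, fun h => absurd h hz⟩
  choose par hpar using hpar
  set P := pos z0 with hP
  have hPcons : ∀ x w, P (x :: w) = x := fun x w => rfl
  have hPnil : P [] = z0 := rfl
  have hAdmZ : ∀ w, Adm Z z0 par w → P w ∈ Z := by
    intro w hw
    cases w with
    | nil => exact hz0
    | cons x w => exact hw.1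
  have hinj : ∀ w1 w2, Adm Z z0 par w1 → Adm Z z0 par w2 → P w1 = P w2 → w1 = w2 := by
    intro w1
    induction w1 with
    | nil =>
      intro w2 _ h2 h
      cases w2 with
      | nil => rfl
      | cons x w2 => exact absurd h.symm h2.2.1
    | cons x w1 ih =>
      intro w2 h1 h2 h
      cases w2 with
      | nil => exact absurd h h1.2.1
      | cons y w2 =>
        have hxy : x = y := h
        subst hxy
        have := ih w2 h1.2.2.2 h2.2.2.2 (h1.2.2.1.symm.trans h2.2.2.1)
        rw [this]
  have hex : ∀ n : ℕ, ∀ z ∈ Z, dist x₀ z ≤ n → ∃ w, Adm Z z0 par w ∧ P w = z ∧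
      (w.length : ℝ) * ((R : ℝ) - 1) ≤ dist x₀ z + ((R : ℝ) - 1) := by
    intro n
    induction n with
    | zero =>
      intro z hz hd
      by_cases h0 : z = z0
      · exact ⟨[], trivial, h0.symm, by
          simp only [List.length_nil, Nat.cast_zero, zero_mul]
          have := dist_nonneg (x := x₀) (y := z)
          linarith⟩
      · obtain ⟨h1, h2, h3⟩ := hpar z hz
        have h4 : par z = z0 := by
          rcases h3 with h | h
          · exact h
          · have := dist_nonneg (x := x₀) (y := par z)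
            push_cast at hd
            linarith
        refine ⟨[z], ⟨hz, h0, h4, trivial⟩, rfl, ?_⟩
        simp only [List.length_singleton, Nat.cast_one, one_mul]
        have := dist_nonneg (x := x₀) (y := z)
        linarith
    | succ n ih =>
      intro z hz hd
      by_cases h0 : z = z0
      · exact ⟨[], trivial, h0.symm, by
          simp only [List.length_nil, Nat.cast_zero, zero_mul]
          have := dist_nonneg (x := x₀) (y := z)
          linarith⟩
      · obtain ⟨h1, h2, h3⟩ := hpar z hz
        rcases h3 with h | h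
        · refine ⟨[z], ⟨hz, h0, h, trivial⟩, rfl, ?_⟩
          simp only [List.length_singleton, Nat.cast_one, one_mul]
          have := dist_nonneg (x := x₀) (y := z)
          linarith
        · have h4 : dist x₀ (par z) ≤ n := by
            push_cast at hd
            linarith
          obtain ⟨w, hw1, hw2, hw3⟩ := ih (par z) h1 h4
          refine ⟨z :: w, ⟨hz, h0, hw2.symm, hw1⟩, rfl, ?_⟩
          rw [List.length_cons]
          push_cast
          nlinarith
  have hex' : ∀ z : X, ∃ w, z ∈ Z → Adm Z z0 par w ∧ P w = z ∧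
      (w.length : ℝ) * ((R : ℝ) - 1) ≤ dist x₀ z + ((R : ℝ) - 1) := by
    intro z
    by_cases hz : z ∈ Z
    · obtain ⟨n, hn⟩ := exists_nat_ge (dist x₀ z)
      obtain ⟨w, hw⟩ := hex n z hz hn
      exact ⟨w, fun _ => hw⟩
    · exact ⟨[], fun h => absurd h hz⟩
  choose wd hwd using hex'
  let W : Finset (List X) := Z.image wd
  have hWmem : ∀ w, w ∈ W ↔ Adm Z z0 par w := by
    intro w
    rw [Finset.mem_image]
    constructor
    · rintro ⟨z, hz, rfl⟩
      exact (hwd z hz).1
    · intro hw
      refine ⟨P w, hAdmZ w hw, ?_⟩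
      exact hinj _ _ (hwd _ (hAdmZ w hw)).1 hw (hwd _ (hAdmZ w hw)).2.1
  have hWcard : W.card = Z.card := by
    apply Finset.card_image_of_injOn
    intro z hz z' hz' h
    have h1 := (hwd z hz).2.1
    have h2 := (hwd z' hz').2.1
    rw [← h1, ← h2]
    exact congrArg P h
  have hAdmsuf : ∀ (s w : List X), Adm Z z0 par (s ++ w) → Adm Z z0 par w := by
    intro s
    induction s with
    | nil => exact fun w h => h
    | cons x s ih => exact fun w h => ih w h.2.2.2
  -- heights
  have hup : ∀ (s w : List X), Adm Z z0 par (s ++ w) →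
      dist x₀ (P (s ++ w)) ≤ dist x₀ (P w) + s.length * ((R : ℝ) + 1) := by
    intro s
    induction s with
    | nil =>
      intro w _
      simp
    | cons x s ih =>
      intro w hw
      have h1 := ih w hw.2.2.2
      have h2 := (hpar x hw.1).2.1
      have h3 : par x = P (s ++ w) := hw.2.2.1
      rw [h3] at h2
      rw [List.cons_append, hPcons, List.length_cons]
      push_cast
      have h4 : dist x₀ x ≤ dist x₀ (P (s ++ w)) + dist (P (s ++ w)) x := dist_triangle _ _ _
      rw [dist_comm (P (s ++ w)) x] at h4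
      linarith
  have hlow : ∀ (s w : List X), s ≠ [] → Adm Z z0 par (s ++ w) →
      dist x₀ (P w) - 1 + ((s.length : ℝ) - 1) * ((R : ℝ) - 1) ≤ dist x₀ (P (s ++ w)) := by
    intro s
    induction s with
    | nil => exact fun w h => absurd rfl h
    | cons x s ih =>
      intro w _ hw
      obtain ⟨h1, h2, h3⟩ := hpar x hw.1
      have h4 : par x = P (s ++ w) := hw.2.2.1
      rw [List.cons_append, hPcons, List.length_cons]
      push_cast
      by_cases hs : s = []
      · subst hs
        simp only [List.nil_append, List.length_nil, Nat.cast_zero, zero_add, sub_self, zero_mul,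
          add_zero] at h4 ⊢
        rcases h3 with h | h
        · have h5 : P w = z0 := h4.symm.trans h
          rw [h5]
          have := dist_nonneg (x := x₀) (y := x)
          linarith
        · rw [h4] at h
          linarith
      · have h5 := ih w hs hw.2.2.2
        have h6 : P (s ++ w) ≠ z0 := by
          obtain ⟨y, s', hs'⟩ := List.exists_cons_of_ne_nil hs
          have hw' := hw.2.2.2
          rw [hs'] at hw' ⊢
          exact hw'.2.1
        rcases h3 with h | h
        · exact absurd (h4.symm.trans h) h6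
        · rw [h4] at h
          linarith
  refine ⟨z0, W, ?_, ?_, ?_, ?_, ?_, ?_, ?_⟩
  · intro w hw u hu
    obtain ⟨s, hs⟩ := hu
    rw [hWmem] at hw ⊢
    rw [← hs] at hw
    exact hAdmsuf s u hw
  · intro x w hxw
    rw [hWmem] at hxw
    have h1 := (hpar x hxw.1).2.1
    have h2 : par x = pos z0 w := hxw.2.2.1
    rwa [h2] at h1
  · intro w C hC
    apply hD (R + 1) (P w) C
    · intro a ha b hb hab
      have h1 := (hWmem _).mp (hC a ha)
      have h2 := (hWmem _).mp (hC b hb)
      exact hZ1 a h1.1 b h2.1 hab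
    · intro x hx
      have h1 := (hWmem _).mp (hC x hx)
      have h2 := (hpar x h1.1).2.1
      have h3 : par x = P w := h1.2.2.1
      rw [h3] at h2
      rw [Metric.mem_closedBall]
      push_cast
      exact h2
  · intro v hv a ha
    set F := W.filter (fun v' => ∃ w s t : List X, s ≠ [] ∧ t ≠ [] ∧
          a = s ++ w ∧ v' = t ++ w ∧ Dv s t ∧
          dist (pos z0 a) (pos z0 v') < ((s.length : ℝ) + t.length) / 4) with hF
    have hav := mem_anc.mp ha
    have haW : Adm Z z0 par a := by
      obtain ⟨r, hr⟩ := hav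
      have := (hWmem v).mp hv
      rw [← hr] at this
      exact hAdmsuf r a this
    have hkey : ∀ v' ∈ F, 1 ≤ (anc v' \ anc v).card ∧
        P v' ∈ Metric.closedBall (P a) ((anc v' \ anc v).card : ℝ) := by
      intro v' hv'
      rw [hF, Finset.mem_filter] at hv'
      obtain ⟨hv'W, w, s, t, hs, ht, rfl, rfl, hDv, hdist⟩ := hv'
      have h1 := card_anc_sdiff hs hDv hav
      have ht1 : 1 ≤ t.length := List.length_pos_of_ne_nil ht
      have hs1 : 1 ≤ s.length := List.length_pos_of_ne_nil hs
      refine ⟨ht1.trans h1, ?_⟩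
      have h2 := hlow s w hs haW
      have h3 := hup t w ((hWmem _).mp hv'W)
      have h4 : dist x₀ (P (s ++ w)) - dist x₀ (P (t ++ w)) ≤
          dist (P (s ++ w)) (P (t ++ w)) := by
        have := dist_triangle x₀ (P (t ++ w)) (P (s ++ w))
        rw [dist_comm (P (t ++ w)) (P (s ++ w))] at this
        linarith
      have h5 : s.length ≤ 3 * t.length := by
        by_contra hcon
        have h6 : 3 * t.length + 1 ≤ s.length := by omega
        have h7 : 3 * (t.length : ℝ) + 1 ≤ s.length := by exact_mod_cast h6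
        have h8 : (1 : ℝ) ≤ t.length := by exact_mod_cast ht1
        have h9 : ((s.length : ℝ) - 1) * ((R : ℝ) - 1) - 1 - t.length * ((R : ℝ) + 1) <
            ((s.length : ℝ) + t.length) / 4 := by linarith
        have h10 : (3 * (t.length : ℝ)) * ((R : ℝ) - 5 / 4) ≤
            ((s.length : ℝ) - 1) * ((R : ℝ) - 5 / 4) :=
          mul_le_mul_of_nonneg_right (by linarith) (by linarith)
        nlinarith
      have h6 : (s.length : ℝ) ≤ 3 * t.length := by exact_mod_cast h5
      rw [Metric.mem_closedBall, dist_comm]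
      have h7 : (t.length : ℝ) ≤ ((anc (t ++ w) \ anc v).card : ℝ) := by exact_mod_cast h1
      have h8 : dist (P (s ++ w)) (P (t ++ w)) < ((s.length : ℝ) + t.length) / 4 := hdist
      linarith
    obtain ⟨N, hN⟩ : ∃ N : ℕ, ∀ v' ∈ F, (anc v' \ anc v).card - 1 < N := by
      refine ⟨F.sup (fun v' => (anc v' \ anc v).card) + 1, fun v' hv' => ?_⟩
      have h1 : (anc v' \ anc v).card ≤ F.sup (fun v' => (anc v' \ anc v).card) :=
        Finset.le_sup (f := fun v' => (anc v' \ anc v).card) hv'
      omega
    have hmaps : ∀ v' ∈ F, (anc v' \ anc v).card - 1 ∈ range N :=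
      fun v' hv' => Finset.mem_range.mpr (hN v' hv')
    rw [← Finset.sum_fiberwise_of_maps_to hmaps]
    have hterm : ∀ j ∈ range N, ∑ v' ∈ F.filter (fun v' => (anc v' \ anc v).card - 1 = j),
        (1 / ((4 * D : ℕ) : ℝ)) ^ (anc v' \ anc v).card ≤ (1 / 4) * (1 / 2) ^ j := by
      intro j _
      set Fj := F.filter (fun v' => (anc v' \ anc v).card - 1 = j) with hFj
      have hj : ∀ v' ∈ Fj, (anc v' \ anc v).card = j + 1 := by
        intro v' hv'
        rw [hFj, Finset.mem_filter] at hv'
        have := (hkey v' hv'.1).1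
        omega
      have hcard : Fj.card ≤ D ^ (j + 1) := by
        have h1 : Fj.card = (Fj.image P).card := by
          rw [Finset.card_image_of_injOn]
          intro v1 h1 v2 h2 h12
          have h1' := (Finset.mem_filter.mp (Finset.mem_filter.mp
            (Finset.mem_coe.mp h1)).1).1
          have h2' := (Finset.mem_filter.mp (Finset.mem_filter.mp
            (Finset.mem_coe.mp h2)).1).1
          exact hinj v1 v2 ((hWmem _).mp h1') ((hWmem _).mp h2') h12
        rw [h1]
        apply hD (j + 1) (P a)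
        · intro x hx y hy hxy
          rw [Finset.mem_image] at hx hy
          obtain ⟨v1, h1, rfl⟩ := hx
          obtain ⟨v2, h2, rfl⟩ := hy
          have h1' := (Finset.mem_filter.mp (Finset.mem_filter.mp h1).1).1
          have h2' := (Finset.mem_filter.mp (Finset.mem_filter.mp h2).1).1
          exact hZ1 _ (hAdmZ _ ((hWmem _).mp h1')) _ (hAdmZ _ ((hWmem _).mp h2')) hxy
        · intro x hx
          rw [Finset.mem_coe, Finset.mem_image] at hx
          obtain ⟨v1, h1, rfl⟩ := hx
          have h2 := (hkey v1 (Finset.mem_filter.mp h1).1).2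
          rw [hj v1 h1] at h2
          exact h2
      rw [Finset.sum_congr rfl (g := fun _ => (1 / ((4 * D : ℕ) : ℝ)) ^ (j + 1))]
      · rw [Finset.sum_const, nsmul_eq_mul]
        have hDr : (1 : ℝ) ≤ D := by exact_mod_cast hD1
        have h1 : (Fj.card : ℝ) ≤ (D : ℝ) ^ (j + 1) := by exact_mod_cast hcard
        calc (Fj.card : ℝ) * (1 / ((4 * D : ℕ) : ℝ)) ^ (j + 1)
            ≤ (D : ℝ) ^ (j + 1) * (1 / ((4 * D : ℕ) : ℝ)) ^ (j + 1) :=
              mul_le_mul_of_nonneg_right h1 (by positivity)
          _ = (1 / 4) ^ (j + 1) := by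
              rw [← mul_pow]
              congr 1
              push_cast
              field_simp
          _ = (1 / 4) * (1 / 4) ^ j := by rw [pow_succ]; ring
          _ ≤ (1 / 4) * (1 / 2) ^ j := by
              apply mul_le_mul_of_nonneg_left _ (by norm_num)
              exact pow_le_pow_left₀ (by norm_num) (by norm_num) j
      · intro v' hv'
        rw [hj v' hv']
    calc _ ≤ ∑ j ∈ range N, (1 / 4 : ℝ) * (1 / 2) ^ j := Finset.sum_le_sum hterm
      _ = (1 / 4) * ∑ j ∈ range N, (1 / 2 : ℝ) ^ j := by rw [Finset.mul_sum]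
      _ ≤ (1 / 4) * 2 := mul_le_mul_of_nonneg_left (sum_geometric_two_le N) (by norm_num)
      _ = 1 / 2 := by norm_num
  · intro w t ht htw
    rw [hWmem] at htw
    have h1 := hlow t w ht htw
    have h2 : dist x₀ (P (t ++ w)) ≤ dist x₀ (P w) + dist (P w) (P (t ++ w)) :=
      dist_triangle _ _ _
    have ht1 : 1 ≤ t.length := List.length_pos_of_ne_nil ht
    show (t.length : ℝ) / 4 ≤ dist (P w) (P (t ++ w))
    by_cases h3 : t.length = 1
    · rw [h3]
      have h4 : P w ≠ P (t ++ w) := by
        intro h
        have := hinj _ _ (hAdmsuf t w htw) htw h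
        have := congrArg List.length this
        rw [List.length_append] at this
        omega
      have := hZ1 _ (hAdmZ _ (hAdmsuf t w htw)) _ (hAdmZ _ htw) h4
      push_cast
      linarith
    · have h4 : 2 ≤ t.length := by omega
      have h5 : (2 : ℝ) ≤ t.length := by exact_mod_cast h4
      nlinarith
  · intro w hw
    rw [Finset.mem_image] at hw
    obtain ⟨z, hz, rfl⟩ := hw
    have h1 := (hwd z hz).2.2
    have h2 := hZ2 hz
    rw [Metric.mem_closedBall, dist_comm] at h2
    linarith
  · intro S h1 h2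
    rw [hWcard]
    exact hZ4 S h1 h2

end

end Pool.Agent.H67
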