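import Pool.Agent.H67.Main1

/-!
Gluing two copies of a finite box of `ℓ_p^N` along a grid.
-/

set_option autoImplicit false
set_option linter.unusedSectionVars false
set_option linter.unusedSimpArgs false

open Finset BigOperators
open scoped ENNReal

namespace Pool.Agent.H67

variable {p : ℝ≥0∞}

/-- scaled embedding of `ℤ^N` into `ℓ_p` -/
noncomputable def emb (p : ℝ≥0∞) (c : ℝ) {N : ℕ} (z : Fin N → ℤ) : lp (fun _ : ℕ => ℝ) p :=
  ∑ j : Fin N, lp.single p (j : ℕ) (c * (z j : ℝ))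

lemma emb_sub (c : ℝ) {N : ℕ} (z w : Fin N → ℤ) : emb p c z - emb p c w = emb p c (z - w) := by
  unfold emb
  rw [← Finset.sum_sub_distrib]
  refine Finset.sum_congr rfl fun j _ => ?_
  rw [← lp.single_sub]
  congr 1
  simp only [Pi.sub_apply]
  push_cast
  ring

lemma emb_norm_rpow (hp : 0 < p.toReal) (c : ℝ) {N : ℕ} (z : Fin N → ℤ) :
    ‖emb p c z‖ ^ p.toReal = ∑ j, |c * (z j : ℝ)| ^ p.toReal := by
  let f : ℕ → ℝ := fun i => if h : i < N then c * (z ⟨i, h⟩ : ℝ) else 0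
  have e : emb p c z = ∑ i ∈ Finset.range N, lp.single p i (f i) := by
    rw [Finset.sum_range]
    unfold emb
    refine Finset.sum_congr rfl fun j _ => ?_
    simp [f]
  rw [e, lp.norm_sum_single hp (E := fun _ : ℕ => ℝ) f, Finset.sum_range]
  refine Finset.sum_congr rfl fun j _ => ?_
  simp [f]

lemma emb_zero (c : ℝ) {N : ℕ} : emb p c (0 : Fin N → ℤ) = 0 := by
  unfold emb
  refine Finset.sum_eq_zero fun j _ => ?_
  simp

lemma emb_norm_single [Fact (1 ≤ p)] (c : ℝ) {N : ℕ} (i : Fin N) :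
    ‖emb p c (Pi.single i 1 : Fin N → ℤ)‖ = |c| := by
  have hp : 0 < p := lt_of_lt_of_le one_pos (Fact.out : 1 ≤ p)
  have e : emb p c (Pi.single i 1 : Fin N → ℤ) = lp.single p (i : ℕ) c := by
    unfold emb
    rw [Finset.sum_eq_single i]
    · simp
    · intro j _ hj; simp [hj]
    · intro h; exact absurd (Finset.mem_univ _) h
  rw [e, lp.norm_single hp, Real.norm_eq_abs]

/-- coordinatewise clamping to `[-R,R]` -/
def clamp {ι : Type*} (R : ℕ) (z : ι → ℤ) : ι → ℤ := fun j => max (-(R:ℤ)) (min R (z j))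

lemma clamp_mem {ι : Type*} [Fintype ι] [DecidableEq ι] (R : ℕ) (z : ι → ℤ) :
    clamp R z ∈ cube ι R := by
  rw [mem_cube]
  intro i
  unfold clamp
  rw [abs_le]
  constructor
  · exact le_max_left _ _
  · apply max_le
    · have : (0:ℤ) ≤ R := by positivity
      linarith
    · exact min_le_left _ _

lemma clamp_of_mem {ι : Type*} [Fintype ι] [DecidableEq ι] {R : ℕ} {z : ι → ℤ} (h : z ∈ cube ι R) :
    clamp R z = z := by
  rw [mem_cube] at h
  funext i
  have := h i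
  rw [abs_le] at this
  unfold clamp
  rw [min_eq_right this.2, max_eq_right this.1]

lemma clamp_step {ι : Type*} [DecidableEq ι] (R : ℕ) (z : ι → ℤ) (i : ι) :
    clamp R (z + Pi.single i 1) = clamp R z ∨ clamp R (z + Pi.single i 1) = clamp R z + Pi.single i 1 := by
  have key : ∀ j, j ≠ i → clamp R (z + Pi.single i 1) j = clamp R z j := by
    intro j hj
    simp [clamp, hj]
  have hi : clamp R (z + Pi.single i 1) i = clamp R z i ∨ clamp R (z + Pi.single i 1) i = clamp R z i + 1 := by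
    simp only [clamp, Pi.add_apply, Pi.single_eq_same]
    omega
  rcases hi with h | h
  · left
    funext j
    by_cases hj : j = i
    · subst hj; exact h
    · exact key j hj
  · right
    funext j
    by_cases hj : j = i
    · subst hj; simpa using h
    · simp [key j hj, hj]

lemma J_mem_cube {n N : ℕ} (ζ : Fin N → Fin n → ℤˣ) {M : ℕ} {y : Fin n → ℤ} (hy : y ∈ cube (Fin n) M) :
    J ζ y ∈ cube (Fin N) (n * M) := by
  rw [mem_cube]
  intro j
  have := abs_dotp_le (ζ j) y M hy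
  have h2 : |dotp (ζ j) y| ≤ ((n * M : ℕ) : ℤ) := by
    have : (|dotp (ζ j) y| : ℝ) ≤ ((n * M : ℕ) : ℝ) := by push_cast; simpa using this
    exact_mod_cast this
  exact h2

/-- The negative statement for a given distortion bound `C` and exponent `p`. -/
def Bad (p : ℝ≥0∞) [Fact (1 ≤ p)] (C : ℝ) : Prop :=
  ∃ (X : Type) (_ : MetricSpace X) (_ : Finite X) (A B : Set X),
    A ∪ B = Set.univ ∧
    (∃ f : A → lp (fun _ : ℕ => ℝ) p, Isometry f) ∧
    (∃ g : B → lp (fun _ : ℕ => ℝ) p, Isometry g) ∧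
    ¬ ∃ (h : X → lp (fun _ : ℕ => ℝ) p) (s : ℝ), 0 < s ∧
      ∀ x y, s * dist x y ≤ dist (h x) (h y) ∧ dist (h x) (h y) ≤ s * C * dist x y

theorem reduction (p : ℝ≥0∞) [Fact (1 ≤ p)] (C D : ℝ) (hCD : C ≤ D) (n N M : ℕ)
    (c r : ℝ) (hc : 0 < c) (hr : 0 < r)
    (ζ θ : Fin N → Fin n → ℤˣ)
    (hnear : ∀ v ∈ cube (Fin n) (2 * M), |‖emb p c (J ζ v)‖ - ‖emb p c (J θ v)‖| ≤ 2 * r)
    (hFalse : ∀ FA FB : (Fin N → ℤ) → lp (fun _ : ℕ => ℝ) p,
      (∀ z i, ‖FA (z + Pi.single i 1) - FA z‖ ≤ D * c) →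
      (∀ z i, ‖FB (z + Pi.single i 1) - FB z‖ ≤ D * c) →
      (∀ y ∈ cube (Fin n) M, ‖FA (J ζ y) - FB (J θ y)‖ ≤ D * r) →
      (∀ y ∈ cube (Fin n) M, ∀ y' ∈ cube (Fin n) M,
        ‖emb p c (J ζ (y - y'))‖ ≤ ‖FA (J ζ y) - FA (J ζ y')‖) → False) : Bad p C := by
  classical
  -- the two pieces
  let R := n * M
  let A : Set (lp (fun _ : ℕ => ℝ) p) := (fun z : Fin N → ℤ => emb p c z) '' (cube (Fin N) R : Set (Fin N → ℤ))
  let Zt := {y : Fin n → ℤ // y ∈ cube (Fin n) M}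
  have : Nonempty Zt := ⟨⟨0, by rw [mem_cube]; intro i; simp⟩⟩
  let Φ : Zt → A := fun y => ⟨emb p c (J ζ y.1), ⟨J ζ y.1, by exact_mod_cast J_mem_cube ζ y.2, rfl⟩⟩
  let Ψ : Zt → A := fun y => ⟨emb p c (J θ y.1), ⟨J θ y.1, by exact_mod_cast J_mem_cube θ y.2, rfl⟩⟩
  have hsubmem : ∀ y ∈ cube (Fin n) M, ∀ y' ∈ cube (Fin n) M, y - y' ∈ cube (Fin n) (2 * M) := by
    intro y hy y' hy'
    rw [mem_cube] at hy hy' ⊢
    intro i
    have h1 := hy i
    have h2 := hy' i
    rw [abs_le] at h1 h2 ⊢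
    simp only [Pi.sub_apply]
    push_cast
    omega
  have Hglue : ∀ q q' : Zt, |dist (Φ q) (Φ q') - dist (Ψ q) (Ψ q')| ≤ 2 * r := by
    intro q q'
    have h := hnear (q.1 - q'.1) (hsubmem _ q.2 _ q'.2)
    have e1 : dist (Φ q) (Φ q') = ‖emb p c (J ζ (q.1 - q'.1))‖ := by
      rw [Subtype.dist_eq, dist_eq_norm, J_sub, emb_sub]
    have e2 : dist (Ψ q) (Ψ q') = ‖emb p c (J θ (q.1 - q'.1))‖ := by
      rw [Subtype.dist_eq, dist_eq_norm, J_sub, emb_sub]
    rw [e1, e2]; exact h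
  let inst : MetricSpace (A ⊕ A) := Metric.glueMetricApprox Φ Ψ r hr Hglue
  have dll : ∀ a a' : A, dist (Sum.inl a : A ⊕ A) (Sum.inl a') = dist a a' := fun _ _ => rfl
  have drr : ∀ a a' : A, dist (Sum.inr a : A ⊕ A) (Sum.inr a') = dist a a' := fun _ _ => rfl
  have dlr : ∀ q : Zt, dist (Sum.inl (Φ q) : A ⊕ A) (Sum.inr (Ψ q)) = r := fun q =>
    Metric.glueDist_glued_points Φ Ψ r q
  have hfinA : Finite A := Set.Finite.image _ (Finset.finite_toSet _)
  refine ⟨A ⊕ A, inst, inferInstance, Set.range Sum.inl, Set.range Sum.inr, ?_, ?_, ?_, ?_⟩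
  · exact Set.range_inl_union_range_inr
  · refine ⟨fun x => Sum.elim (fun a : A => (a : lp (fun _ : ℕ => ℝ) p)) (fun _ => 0) x.1, ?_⟩
    apply Isometry.of_dist_eq
    rintro ⟨_, a, rfl⟩ ⟨_, a', rfl⟩
    rfl
  · refine ⟨fun x => Sum.elim (fun _ => 0) (fun a : A => (a : lp (fun _ : ℕ => ℝ) p)) x.1, ?_⟩
    apply Isometry.of_dist_eq
    rintro ⟨_, a, rfl⟩ ⟨_, a', rfl⟩
    rfl
  · rintro ⟨h, s, hs, hh⟩
    -- normalised maps
    let pt : (Fin N → ℤ) → A := fun z => ⟨emb p c (clamp R z), ⟨clamp R z, by exact_mod_cast clamp_mem R z, rfl⟩⟩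
    let FA : (Fin N → ℤ) → lp (fun _ : ℕ => ℝ) p := fun z => s⁻¹ • h (Sum.inl (pt z))
    let FB : (Fin N → ℤ) → lp (fun _ : ℕ => ℝ) p := fun z => s⁻¹ • h (Sum.inr (pt z))
    have hsinv : 0 < s⁻¹ := inv_pos.mpr hs
    have upper : ∀ x y : A ⊕ A, ‖s⁻¹ • h x - s⁻¹ • h y‖ ≤ D * dist x y := by
      intro x y
      rw [← smul_sub, norm_smul, Real.norm_of_nonneg hsinv.le, ← dist_eq_norm]
      have h1 := (hh x y).2
      calc s⁻¹ * dist (h x) (h y) ≤ s⁻¹ * (s * C * dist x y) := by gcongr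
        _ = C * dist x y := by field_simp
        _ ≤ D * dist x y := by gcongr
    have lower : ∀ x y : A ⊕ A, dist x y ≤ ‖s⁻¹ • h x - s⁻¹ • h y‖ := by
      intro x y
      rw [← smul_sub, norm_smul, Real.norm_of_nonneg hsinv.le, ← dist_eq_norm]
      have h1 := (hh x y).1
      calc dist x y = s⁻¹ * (s * dist x y) := by field_simp
        _ ≤ s⁻¹ * dist (h x) (h y) := by gcongr
    have step : ∀ z i, dist (pt (z + Pi.single i 1)) (pt z) ≤ c := by
      intro z i
      rw [Subtype.dist_eq, dist_eq_norm]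
      change ‖emb p c (clamp R (z + Pi.single i 1)) - emb p c (clamp R z)‖ ≤ c
      rw [emb_sub]
      rcases clamp_step R z i with h1 | h1
      · rw [h1, sub_self, emb_zero, norm_zero]; exact hc.le
      · rw [h1, add_sub_cancel_left, emb_norm_single, abs_of_pos hc]
    have hDpos : 0 ≤ D := by
      -- distances between glued points are positive, so `D` cannot be negative
      by_contra hneg
      push Not at hneg
      obtain ⟨q⟩ : Nonempty Zt := inferInstance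
      have h1 := upper (Sum.inl (Φ q)) (Sum.inr (Ψ q))
      rw [dlr q] at h1
      have h2 := norm_nonneg (s⁻¹ • h (Sum.inl (Φ q)) - s⁻¹ • h (Sum.inr (Ψ q)))
      nlinarith
    refine hFalse FA FB ?_ ?_ ?_ ?_
    · intro z i
      refine (upper _ _).trans ?_
      rw [dll]
      exact mul_le_mul_of_nonneg_left (step z i) hDpos
    · intro z i
      refine (upper _ _).trans ?_
      rw [drr]
      exact mul_le_mul_of_nonneg_left (step z i) hDpos
    · intro y hy
      have e1 : pt (J ζ y) = Φ ⟨y, hy⟩ := by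
        apply Subtype.ext
        change emb p c (clamp R (J ζ y)) = emb p c (J ζ y)
        rw [clamp_of_mem (J_mem_cube ζ hy)]
      have e2 : pt (J θ y) = Ψ ⟨y, hy⟩ := by
        apply Subtype.ext
        change emb p c (clamp R (J θ y)) = emb p c (J θ y)
        rw [clamp_of_mem (J_mem_cube θ hy)]
      have h1 := upper (Sum.inl (pt (J ζ y))) (Sum.inr (pt (J θ y)))
      rw [e1, e2, dlr] at h1
      change ‖s⁻¹ • h (Sum.inl (pt (J ζ y))) - s⁻¹ • h (Sum.inr (pt (J θ y)))‖ ≤ _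
      rw [e1, e2]
      exact h1
    · intro y hy y' hy'
      have h1 := lower (Sum.inl (pt (J ζ y))) (Sum.inl (pt (J ζ y')))
      rw [dll, Subtype.dist_eq, dist_eq_norm] at h1
      change ‖emb p c (clamp R (J ζ y)) - emb p c (clamp R (J ζ y'))‖ ≤ _ at h1
      rw [clamp_of_mem (J_mem_cube ζ hy), clamp_of_mem (J_mem_cube ζ hy'), emb_sub, ← J_sub] at h1
      exact h1

end Pool.Agent.H67
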