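import Pool.Agent.H67.FlowTree
import Pool.Agent.H67.BranchDefs
import Pool.Agent.H67.Cocompact

/-!
# Bi-Lipschitz trees of large branching number in spaces of exponential growth
-/

set_option autoImplicit false

namespace Pool.Agent.H67

open Finset Classical Filter Topology

section regtree

variable {d : ℕ}

theorem regTree_adj {u v : List (Fin d)} :
    (regTree d).Adj u v ↔ (∃ b : Fin d, u = b :: v) ∨ (∃ b : Fin d, v = b :: u) := by
  rw [regTree, SimpleGraph.fromRel_adj]
  constructor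
  · exact fun h => h.2
  · intro h
    refine ⟨?_, h⟩
    rintro rfl
    rcases h with ⟨b, h⟩ | ⟨b, h⟩
    · exact absurd (congrArg List.length h) (by simp)
    · exact absurd (congrArg List.length h) (by simp)

theorem regTree_adj_cons (b : Fin d) (w : List (Fin d)) : (regTree d).Adj (b :: w) w :=
  regTree_adj.mpr (Or.inl ⟨b, rfl⟩)

theorem regTree_reachable_append (s w : List (Fin d)) :
    (regTree d).Reachable (s ++ w) w := by
  induction s with
  | nil => exact SimpleGraph.Reachable.refl _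
  | cons b s ih => exact (regTree_adj_cons b (s ++ w)).reachable.trans ih

theorem regTree_connected : (regTree d).Connected := by
  constructor
  intro u v
  have h1 := regTree_reachable_append u []
  have h2 := regTree_reachable_append v []
  rw [List.append_nil] at h1 h2
  exact h1.trans h2.symm

theorem regTree_dist_append (s w : List (Fin d)) : (regTree d).dist (s ++ w) w ≤ s.length := by
  induction s with
  | nil => simp
  | cons b s ih =>
    have h1 : (regTree d).dist (b :: (s ++ w)) (s ++ w) = 1 :=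
      SimpleGraph.dist_eq_one_iff_adj.mpr (regTree_adj_cons b (s ++ w))
    have h2 := (regTree_connected (d := d)).dist_triangle (u := b :: (s ++ w)) (v := s ++ w)
      (w := w)
    rw [List.cons_append, List.length_cons]
    omega

theorem regTree_dist_append_append (s t w : List (Fin d)) :
    (regTree d).dist (s ++ w) (t ++ w) ≤ s.length + t.length := by
  have h1 := regTree_dist_append s w
  have h2 := regTree_dist_append t w
  have h3 := (regTree_connected (d := d)).dist_triangle (u := s ++ w) (v := w) (w := t ++ w)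
  rw [SimpleGraph.dist_comm (u := w)] at h3
  omega

theorem regTree_suffix_of_walk {u v : List (Fin d)} (p : (regTree d).Walk u v) :
    ∀ z : List (Fin d), z <:+ u → z.length + p.length ≤ u.length → z <:+ v := by
  induction p with
  | nil => exact fun z h _ => h
  | cons h p ih =>
    intro z hz hlen
    rw [SimpleGraph.Walk.length_cons] at hlen
    apply ih
    · rcases regTree_adj.mp h with ⟨b, hb⟩ | ⟨b, hb⟩
      · subst hb
        rcases List.suffix_cons_iff.mp hz with h' | h'
        · rw [h'] at hlen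
          omega
        · exact h'
      · rw [hb]
        exact hz.trans (List.suffix_cons b _)
    · rcases regTree_adj.mp h with ⟨b, hb⟩ | ⟨b, hb⟩
      · have := congrArg List.length hb
        rw [List.length_cons] at this
        omega
      · have := congrArg List.length hb
        rw [List.length_cons] at this
        omega

theorem length_le_dist (s t w : List (Fin d)) (hD : Dv s t) :
    s.length ≤ (regTree d).dist (s ++ w) (t ++ w) := by
  by_contra hcon
  rw [not_le] at hcon
  obtain ⟨p, hp⟩ := (regTree_connected (s ++ w) (t ++ w)).exists_walk_length_eq_dist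
  rw [← hp] at hcon
  -- the suffix of length `|w| + |s| - |p|`, longer than `w`
  have h1 : (s ++ w).drop p.length <:+ t ++ w := by
    apply regTree_suffix_of_walk p _ (List.drop_suffix _ _)
    rw [List.length_drop, List.length_append]
    omega
  rw [List.drop_append_of_le_length hcon.le] at h1
  have hne : s.drop p.length ≠ [] := by
    rw [Ne, List.drop_eq_nil_iff]
    omega
  obtain ⟨x, hx⟩ := exists_bottom hne
  have h2 : [x] ++ w <:+ t ++ w := (suffix_append_right hx w).trans h1
  have h3 : t ≠ [] := by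
    rintro rfl
    have := h2.length_le
    simp at this
  obtain ⟨y, hy⟩ := exists_bottom h3
  have h4 : [y] ++ w <:+ t ++ w := suffix_append_right hy w
  have h5 := eq_of_suffix_of_length h2 h4 (by simp)
  have h6 : x = y := by
    have := (List.append_inj_left h5 rfl)
    simpa using this
  subst h6
  exact hD x ⟨hx.trans (List.drop_suffix _ _), hy⟩

theorem add_length_le_dist (s t w : List (Fin d)) (hD : Dv s t) :
    s.length + t.length ≤ 2 * (regTree d).dist (s ++ w) (t ++ w) := by
  have h1 := length_le_dist s t w hD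
  have h2 := length_le_dist t s w hD.symm
  rw [SimpleGraph.dist_comm] at h2
  omega

theorem exists_meet' {α : Type*} (u v : List α) : ∃ w s t : List α, u = s ++ w ∧ v = t ++ w ∧
    Dv s t := by
  induction u using List.reverseRecOn generalizing v with
  | nil =>
    refine ⟨[], [], v, rfl, (List.append_nil v).symm, ?_⟩
    rintro β ⟨h, _⟩
    exact absurd h (by simp)
  | append_singleton u a ih =>
    rcases List.eq_nil_or_concat v with h | ⟨v', b, h⟩
    · subst h
      refine ⟨[], u ++ [a], [], by simp, rfl, ?_⟩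
      rintro β ⟨_, h⟩
      exact absurd h (by simp)
    · subst h
      by_cases hab : a = b
      · subst hab
        obtain ⟨w, s, t, h1, h2, h3⟩ := ih v'
        refine ⟨w ++ [a], s, t, ?_, ?_, h3⟩
        · rw [h1, List.append_assoc]
        · rw [h2]
          simp
      · refine ⟨[], u ++ [a], v' ++ [b], by simp, by simp, ?_⟩
        rintro β ⟨h1, h2⟩
        apply hab
        obtain ⟨r, hr⟩ := h1
        obtain ⟨r', hr'⟩ := h2
        have e1 := (List.append_inj' hr rfl).2
        have e2 := (List.append_inj' hr' rfl).2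
        simp only [List.cons.injEq, and_true] at e1 e2
        rw [← e1, ← e2]

end regtree

/-- Cardinality of separated sets from covering numbers. -/
theorem sep_card {X : Type*} [MetricSpace X] {D : ℕ}
    (hD : ∀ (m : ℕ) (x : X), ∃ T : Finset X, T.card ≤ D ^ m ∧
      Metric.closedBall x (m : ℝ) ⊆ ⋃ y ∈ T, Metric.closedBall y (1 / 3))
    (m : ℕ) (x : X) (Z : Finset X) (hZ : Sep1 Z)
    (hZs : (Z : Set X) ⊆ Metric.closedBall x m) : Z.card ≤ D ^ m := by
  obtain ⟨T, hT, hcov⟩ := hD m x
  refine le_trans ?_ hT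
  have h1 : ∀ z : X, ∃ y : X, z ∈ Z → y ∈ T ∧ dist z y ≤ 1 / 3 := by
    intro z
    by_cases hz : z ∈ Z
    · have := hcov (hZs hz)
      simp only [Set.mem_iUnion, Metric.mem_closedBall, exists_prop] at this
      obtain ⟨y, hy, hzy⟩ := this
      exact ⟨y, fun _ => ⟨hy, hzy⟩⟩
    · exact ⟨z, fun h => absurd h hz⟩
  choose φ hφ using h1
  apply Finset.card_le_card_of_injOn φ
  · intro z hz
    exact (hφ z hz).1
  · intro a ha b hb hab
    by_contra hne
    have h2 := hZ a ha b hb hne
    have h3 := (hφ a ha).2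
    have h4 := (hφ b hb).2
    rw [← hab] at h4
    have h5 : dist a b ≤ dist a (φ a) + dist b (φ a) := by
      rw [dist_comm b]
      exact dist_triangle _ _ _
    linarith

/-- Flows of any length, with uniform constants. -/
theorem exists_flowMaps {X : Type*} [MetricSpace X]
    (hgeo : ∀ (x y : X) (r : ℝ), 0 ≤ r → r ≤ dist x y →
      ∃ p : X, dist x p = dist x y - r ∧ dist p y = r) (D : ℕ) (hD1 : 1 ≤ D)
    (hD : ∀ (m : ℕ) (x : X) (Z : Finset X), Sep1 Z → (Z : Set X) ⊆ Metric.closedBall x m →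
      Z.card ≤ D ^ m) (x₀ : X) (C : ℝ) (hC : 0 < C) (c : ℝ) (hc : 1 < c)
    (hexp : ∀ n : ℕ, ∃ S : Finset X, (S : Set X) ⊆ Metric.closedBall x₀ (n : ℝ) ∧
      Sep1 S ∧ C * c ^ n ≤ (S.card : ℝ)) :
    ∃ (d : ℕ) (L : ℝ), ∀ M : ℕ, ∃ (θ : List (Fin d) → ℝ) (f : List (Fin d) → X),
      FlowMap X d L (1 / 4) M θ f := by
  have hDr : (1 : ℝ) ≤ D := by exact_mod_cast hD1
  obtain ⟨R0, hR0⟩ := pow_unbounded_of_one_lt (64 * (D : ℝ)) hc
  set R : ℕ := R0 + 5 with hR
  have hB : 64 * (D : ℝ) ≤ c ^ (R - 1) := by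
    refine hR0.le.trans ?_
    apply pow_le_pow_right₀ hc.le
    omega
  set d : ℕ := D ^ (R + 1) with hd
  have hd1 : 1 ≤ d := Nat.one_le_pow _ _ hD1
  have hdr : (1 : ℝ) ≤ d := by exact_mod_cast hd1
  refine ⟨d, (R : ℝ) + 1, fun M => ?_⟩
  -- choice of the scale
  obtain ⟨k, hk⟩ : ∃ k : ℕ, 2 * ((16 * (D : ℝ)) ^ 2 * (2 * (d : ℝ)) ^ M) ≤ C * 2 ^ k := by
    obtain ⟨k, hk⟩ := pow_unbounded_of_one_lt
      (2 * ((16 * (D : ℝ)) ^ 2 * (2 * (d : ℝ)) ^ M) / C) (show (1 : ℝ) < 2 by norm_num)
    refine ⟨k, ?_⟩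
    rw [div_lt_iff₀ hC] at hk
    linarith
  have hk2 : ((k : ℝ) + 2) ≤ 2 * 2 ^ k := by
    have h1 : k + 1 ≤ 2 ^ k := Nat.lt_two_pow_self
    have h2 : ((k : ℝ) + 1) ≤ 2 ^ k := by exact_mod_cast h1
    have h3 : (1 : ℝ) ≤ 2 ^ k := one_le_pow₀ (by norm_num)
    linarith
  have hmain : ((k : ℝ) + 2) * ((16 * (D : ℝ)) ^ 2 * (2 * (d : ℝ)) ^ M) ≤ C * 4 ^ k := by
    have h1 : (0 : ℝ) < (16 * (D : ℝ)) ^ 2 * (2 * (d : ℝ)) ^ M := by positivity
    calc ((k : ℝ) + 2) * ((16 * (D : ℝ)) ^ 2 * (2 * (d : ℝ)) ^ M)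
        ≤ (2 * 2 ^ k) * ((16 * (D : ℝ)) ^ 2 * (2 * (d : ℝ)) ^ M) :=
          mul_le_mul_of_nonneg_right hk2 h1.le
      _ = 2 ^ k * (2 * ((16 * (D : ℝ)) ^ 2 * (2 * (d : ℝ)) ^ M)) := by ring
      _ ≤ 2 ^ k * (C * 2 ^ k) := mul_le_mul_of_nonneg_left hk (by positivity)
      _ = C * 4 ^ k := by
          rw [show (4 : ℝ) = 2 * 2 by norm_num, mul_pow]
          ring
  set m : ℕ := (R - 1) * k with hm
  have hR4 : 4 ≤ R := by omega
  obtain ⟨z0, W, hW1, hW2, hW3, hW4, hW5, hW6, hW7⟩ :=
    exists_word_tree hgeo D hD1 hD x₀ R hR4 m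
  -- the size of `W`
  have hWcard : C * (64 * (D : ℝ)) ^ k ≤ (W.card : ℝ) := by
    obtain ⟨S, hS1, hS2, hS3⟩ := hexp m
    have h1 := hW7 S hS2 hS1
    have h2 : (S.card : ℝ) ≤ W.card := by exact_mod_cast h1
    calc C * (64 * (D : ℝ)) ^ k ≤ C * (c ^ (R - 1)) ^ k := by gcongr
      _ = C * c ^ m := by rw [hm, pow_mul]
      _ ≤ S.card := hS3
      _ ≤ W.card := h2
  have hlen : ∀ w ∈ W, w.length ≤ k + 1 := by
    intro w hw
    have h1 := hW6 w hw
    have h2 : (0 : ℝ) < (R : ℝ) - 1 := by
      have : (4 : ℝ) ≤ R := by exact_mod_cast hR4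
      linarith
    have h3 : (m : ℝ) = ((R : ℝ) - 1) * k := by
      rw [hm]
      push_cast [Nat.cast_sub (show 1 ≤ R by omega)]
      ring
    rw [h3] at h1
    have h4 : (w.length : ℝ) ≤ k + 1 := by
      by_contra hcon
      rw [not_le] at hcon
      nlinarith
    exact_mod_cast h4
  obtain ⟨n, hn, hWn⟩ : ∃ n : ℕ, n ≤ k + 1 ∧
      (W.card : ℝ) ≤ ((k : ℝ) + 2) * ((W.filter (fun w => w.length = n)).card : ℝ) := by
    by_contra hcon
    push Not at hcon
    have h1 : W.card = ∑ n ∈ range (k + 2), (W.filter (fun w => w.length = n)).card := by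
      apply Finset.card_eq_sum_card_fiberwise
      intro w hw
      have := hlen w hw
      rw [Finset.coe_range, Set.mem_Iio]
      omega
    have h2 : ((k : ℝ) + 2) * (W.card : ℝ) <
        ((k : ℝ) + 2) * (W.card : ℝ) := by
      calc ((k : ℝ) + 2) * (W.card : ℝ)
          = ∑ n ∈ range (k + 2), ((k : ℝ) + 2) *
              ((W.filter (fun w => w.length = n)).card : ℝ) := by
            rw [← Finset.mul_sum]
            congr 1
            exact_mod_cast h1
        _ < ∑ n ∈ range (k + 2), (W.card : ℝ) := by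
            apply Finset.sum_lt_sum_of_nonempty
            · exact ⟨0, Finset.mem_range.mpr (by omega)⟩
            · intro n hn
              rw [Finset.mem_range] at hn
              exact hcon n (by omega)
        _ = ((k : ℝ) + 2) * (W.card : ℝ) := by
            rw [Finset.sum_const, Finset.card_range, nsmul_eq_mul]
            push_cast
            ring
    exact lt_irrefl _ h2
  obtain ⟨T, hTW, hT1, hT2, hT3⟩ := percolation W hW1 _ (4 * D) (by omega) hW4 n
  have hTcard : 2 * 2 ^ n * (2 * (d : ℝ)) ^ M ≤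
      ((T.filter (fun w => w.length = n)).card : ℝ) := by
    refine le_trans ?_ hT3
    have hq : (1 / (2 * ((4 * D : ℕ) : ℝ))) = 1 / (8 * (D : ℝ)) := by
      push_cast
      congr 1
      ring
    rw [hq]
    have h8 : (0 : ℝ) < (8 * (D : ℝ)) ^ (n + 1) := by positivity
    rw [div_pow, one_pow, mul_one_div, le_div_iff₀ h8]
    have hk2pos : (0 : ℝ) < (k : ℝ) + 2 := by positivity
    have h1 : ((k : ℝ) + 2) * (2 * 2 ^ n * (2 * (d : ℝ)) ^ M * (8 * (D : ℝ)) ^ (n + 1)) ≤
        (W.card : ℝ) := by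
      calc ((k : ℝ) + 2) * (2 * 2 ^ n * (2 * (d : ℝ)) ^ M * (8 * (D : ℝ)) ^ (n + 1))
          = ((k : ℝ) + 2) * ((2 * (d : ℝ)) ^ M * (16 * (D : ℝ)) ^ (n + 1)) := by
            rw [show (16 * (D : ℝ)) = 2 * (8 * (D : ℝ)) by ring, mul_pow 2 (8 * (D : ℝ)),
              pow_succ (2 : ℝ) n]
            ring
        _ ≤ ((k : ℝ) + 2) * ((2 * (d : ℝ)) ^ M * (16 * (D : ℝ)) ^ (k + 2)) := by
            have : (16 * (D : ℝ)) ^ (n + 1) ≤ (16 * (D : ℝ)) ^ (k + 2) := by
              apply pow_le_pow_right₀ (by linarith)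
              omega
            gcongr
        _ = (((k : ℝ) + 2) * ((16 * (D : ℝ)) ^ 2 * (2 * (d : ℝ)) ^ M)) * (16 * (D : ℝ)) ^ k := by
            rw [pow_add]
            ring
        _ ≤ (C * 4 ^ k) * (16 * (D : ℝ)) ^ k := mul_le_mul_of_nonneg_right hmain (by positivity)
        _ = C * (64 * (D : ℝ)) ^ k := by
            rw [show (64 * (D : ℝ)) = 4 * (16 * (D : ℝ)) by ring, mul_pow 4 (16 * (D : ℝ))]
            ring
        _ ≤ W.card := hWcard
    exact le_of_mul_le_mul_left (h1.trans hWn) hk2pos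
  have hch : ∀ w, (ch T w).card ≤ d := by
    intro w
    have h1 : (ch T w).card = ((ch T w).image (fun v => v.headD z0)).card := by
      rw [Finset.card_image_of_injOn]
      intro v hv v' hv' h
      obtain ⟨x, rfl, _⟩ := (mem_ch' T).mp hv
      obtain ⟨y, rfl, _⟩ := (mem_ch' T).mp hv'
      have h2 : x = y := h
      rw [h2]
    rw [h1]
    apply hW3 w
    intro x hx
    rw [Finset.mem_image] at hx
    obtain ⟨v, hv, rfl⟩ := hx
    obtain ⟨x, rfl, hxT⟩ := (mem_ch' T).mp hv
    exact hTW hxT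
  apply exists_flowMap T n hT1 d hd1 hch M hTcard z0
  · intro x w hxw
    exact hW2 x w (hTW hxw)
  · intro w s t hDv hs ht
    by_cases hs0 : s = []
    · subst hs0
      by_cases ht0 : t = []
      · subst ht0
        simp
      · have := hW5 w t ht0 (hTW ht)
        simp only [List.length_nil, Nat.cast_zero, zero_add, List.nil_append]
        linarith
    · by_cases ht0 : t = []
      · subst ht0
        have := hW5 w s hs0 (hTW hs)
        simp only [List.length_nil, Nat.cast_zero, add_zero, List.nil_append]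
        rw [dist_comm]
        linarith
      · have h1 := hT2 _ hs _ ht
        by_contra hcon
        apply h1
        refine ⟨w, s, t, hs0, ht0, rfl, rfl, hDv, ?_⟩
        rw [not_le] at hcon
        linarith

theorem sum_level {d : ℕ} {θ : List (Fin d) → ℝ} (h : IsUnitFlow θ) (n : ℕ) :
    ∑ w ∈ lvl (Fin d) n, θ w = 1 := by
  induction n with
  | zero =>
    have : lvl (Fin d) 0 = {[]} := by
      ext w
      rw [mem_lvl, Finset.mem_singleton, List.length_eq_zero_iff]
    rw [this, Finset.sum_singleton, h.1]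
  | succ n ih =>
    rw [← ih]
    have hmaps : ∀ v ∈ lvl (Fin d) (n + 1), v.tail ∈ lvl (Fin d) n := by
      intro v hv
      rw [mem_lvl] at hv ⊢
      rw [List.length_tail, hv]
      omega
    rw [← Finset.sum_fiberwise_of_maps_to hmaps]
    apply Finset.sum_congr rfl
    intro w hw
    rw [mem_lvl] at hw
    rw [h.2.2 w]
    symm
    apply Finset.sum_bij (fun b _ => b :: w)
    · intro b _
      rw [Finset.mem_filter, mem_lvl, List.length_cons, hw]
      exact ⟨rfl, rfl⟩
    · intro b _ b' _ hbb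
      rw [List.cons.injEq] at hbb
      exact hbb.1
    · intro v hv
      rw [Finset.mem_filter, mem_lvl] at hv
      obtain ⟨hv1, hv2⟩ := hv
      cases v with
      | nil => simp at hv1
      | cons b v =>
        rw [List.tail_cons] at hv2
        subst hv2
        exact ⟨b, Finset.mem_univ b, rfl⟩
    · intro b _
      rfl

theorem level_count {d : ℕ} {θ : List (Fin d) → ℝ} (h : IsUnitFlow θ)
    (hdec : ∀ w, θ w ≤ (1 / 2) ^ w.length) (n : ℕ) :
    2 ^ n ≤ {w : List (Fin d) | w.length = n ∧ 0 < θ w}.ncard := by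
  have e : {w : List (Fin d) | w.length = n ∧ 0 < θ w} =
      (((lvl (Fin d) n).filter (fun w => 0 < θ w) : Finset (List (Fin d))) :
        Set (List (Fin d))) := by
    ext w
    simp [mem_lvl]
  rw [e, Set.ncard_coe_finset]
  have h1 : (1 : ℝ) ≤ (((lvl (Fin d) n).filter (fun w => 0 < θ w)).card : ℝ) * (1 / 2) ^ n := by
    calc (1 : ℝ) = ∑ w ∈ lvl (Fin d) n, θ w := (sum_level h n).symm
      _ = ∑ w ∈ (lvl (Fin d) n).filter (fun w => 0 < θ w), θ w := by
          symm
          apply Finset.sum_filter_of_ne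
          intro w _ hw
          exact (h.2.1 w).lt_of_ne hw.symm
      _ ≤ ∑ w ∈ (lvl (Fin d) n).filter (fun w => 0 < θ w), (1 / 2 : ℝ) ^ n := by
          apply Finset.sum_le_sum
          intro w hw
          rw [Finset.mem_filter, mem_lvl] at hw
          have := hdec w
          rwa [hw.1] at this
      _ = _ := by rw [Finset.sum_const, nsmul_eq_mul]
  rw [div_pow, one_pow, mul_one_div, le_div_iff₀ (by positivity), one_mul] at h1
  exact_mod_cast h1

/-- **Trees of branching number at least two.** -/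
theorem exists_bilipschitz_flow {X : Type*} [MetricSpace X] [ProperSpace X]
    (hgeo : ∀ x y : X, ∃ γ : ℝ → X, γ 0 = x ∧ γ (dist x y) = y ∧
        ∀ s ∈ Set.Icc (0 : ℝ) (dist x y), ∀ t ∈ Set.Icc (0 : ℝ) (dist x y),
          dist (γ s) (γ t) = |s - t|)
    (hco : ∃ K : Set X, IsCompact K ∧ ∀ x : X, ∃ g : X ≃ᵢ X, g x ∈ K)
    (hexp : ∃ x₀ : X, ∃ C : ℝ, 0 < C ∧ ∃ c : ℝ, 1 < c ∧ ∀ n : ℕ, ∃ S : Finset X,
      (↑S : Set X) ⊆ Metric.closedBall x₀ (n : ℝ) ∧
      (∀ a ∈ S, ∀ b ∈ S, a ≠ b → 1 ≤ dist a b) ∧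
      C * c ^ n ≤ (S.card : ℝ)) :
    ∃ (d : ℕ) (θ : List (Fin d) → ℝ), IsUnitFlow θ ∧ (∀ w, θ w ≤ (1 / 2) ^ w.length) ∧
      ∃ (f : List (Fin d) → X) (a L : ℝ), 0 < a ∧
        ∀ u v : List (Fin d), 0 < θ u → 0 < θ v →
          a * ((regTree d).dist u v : ℝ) ≤ dist (f u) (f v) ∧
          dist (f u) (f v) ≤ L * ((regTree d).dist u v : ℝ) := by
  obtain ⟨x₀, C, hC, c, hc, hS⟩ := hexp
  obtain ⟨D0, hD0⟩ := cover_of_cocompact hgeo hco (1 / 3) (by norm_num)
  have hgeo' : ∀ (x y : X) (r : ℝ), 0 ≤ r → r ≤ dist x y →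
      ∃ p : X, dist x p = dist x y - r ∧ dist p y = r := by
    intro x y r hr0 hr
    obtain ⟨γ, g0, g1, hγ⟩ := hgeo x y
    have hm : dist x y - r ∈ Set.Icc (0 : ℝ) (dist x y) := ⟨by linarith, by linarith⟩
    refine ⟨γ (dist x y - r), ?_, ?_⟩
    · have := hγ 0 ⟨le_rfl, dist_nonneg⟩ (dist x y - r) hm
      rw [g0, zero_sub, abs_neg, abs_of_nonneg (by linarith)] at this
      exact this
    · have := hγ (dist x y - r) hm (dist x y) ⟨dist_nonneg, le_rfl⟩
      rw [g1] at this
      rw [this]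
      have e : dist x y - r - dist x y = -r := by ring
      rw [e, abs_neg, abs_of_nonneg hr0]
  have hDsep : ∀ (m : ℕ) (x : X) (Z : Finset X), Sep1 Z →
      (Z : Set X) ⊆ Metric.closedBall x m → Z.card ≤ (D0 + 1) ^ m := by
    intro m x Z h1 h2
    exact (sep_card hD0 m x Z h1 h2).trans (Nat.pow_le_pow_left (Nat.le_succ _) _)
  obtain ⟨d, L, hflow⟩ := exists_flowMaps hgeo' (D0 + 1) (by omega) hDsep x₀ C hC c hc hS
  obtain ⟨K, hK, hKcov⟩ := hco
  -- move the roots into `K`
  have hflow' : ∀ M : ℕ, ∃ (θ : List (Fin d) → ℝ) (f : List (Fin d) → X),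
      FlowMap X d L (1 / 4) M θ f ∧ f [] ∈ K := by
    intro M
    obtain ⟨θ, f, hf⟩ := hflow M
    obtain ⟨g, hg⟩ := hKcov (f [])
    refine ⟨θ, fun w => g (f w), ⟨hf.root, hf.nonneg, hf.decay, hf.conserve, ?_, ?_⟩, hg⟩
    · intro b w h
      obtain ⟨h1, h2⟩ := hf.edge b w h
      exact ⟨h1, by rw [g.dist_eq]; exact h2⟩
    · intro w s t h1 h2 h3
      show _ ≤ dist (g (f (s ++ w))) (g (f (t ++ w)))
      rw [g.dist_eq]
      exact hf.sep w s t h1 h2 h3
  choose θ f hf hfK using hflow'
  let U : Ultrafilter ℕ := Ultrafilter.of atTop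
  have hU : (U : Filter ℕ) ≤ atTop := Ultrafilter.of_le atTop
  -- the limit flow
  have hθlim : ∀ w : List (Fin d), ∃ l : ℝ, Tendsto (fun M => θ M w) U (𝓝 l) := by
    intro w
    have hmem : ∀ M, θ M w ∈ Set.Icc (0 : ℝ) 1 := by
      intro M
      refine ⟨(hf M).nonneg w, ((hf M).decay w).trans ?_⟩
      exact pow_le_one₀ (by norm_num) (by norm_num)
    obtain ⟨l, _, hl⟩ := isCompact_Icc.ultrafilter_le_nhds (U.map (fun M => θ M w))
      (by
        rw [Filter.le_principal_iff]
        exact Filter.eventually_map.mpr (Filter.Eventually.of_forall hmem))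
    exact ⟨l, hl⟩
  choose Θ hΘ using hθlim
  have hΘroot : Θ [] = 1 := by
    apply tendsto_nhds_unique (hΘ [])
    refine tendsto_const_nhds.congr (fun M => ?_)
    exact (hf M).root.symm
  have hΘnonneg : ∀ w, 0 ≤ Θ w := fun w =>
    ge_of_tendsto (hΘ w) (Filter.Eventually.of_forall fun M => (hf M).nonneg w)
  have hΘdecay : ∀ w, Θ w ≤ (1 / 2) ^ w.length := fun w =>
    le_of_tendsto (hΘ w) (Filter.Eventually.of_forall fun M => (hf M).decay w)
  have hΘcons : ∀ w, Θ w = ∑ b, Θ (b :: w) := by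
    intro w
    have h1 : Tendsto (fun M => ∑ b, θ M (b :: w)) U (𝓝 (∑ b, Θ (b :: w))) :=
      tendsto_finsetSum _ fun b _ => hΘ (b :: w)
    apply tendsto_nhds_unique (hΘ w)
    refine h1.congr' ?_
    have h2 : ∀ᶠ M in (U : Filter ℕ), w.length < M := hU (Filter.eventually_gt_atTop w.length)
    filter_upwards [h2] with M hM
    exact ((hf M).conserve w hM).symm
  have hpos : ∀ w, 0 < Θ w → ∀ᶠ M in (U : Filter ℕ), 0 < θ M w := fun w hw =>
    (hΘ w).eventually (lt_mem_nhds hw)
  -- distances to the root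
  have hroot : ∀ (M : ℕ) (w : List (Fin d)), 0 < θ M w →
      dist (f M w) (f M []) ≤ L * (w.length : ℝ) := by
    intro M w
    induction w with
    | nil =>
      intro _
      simp
    | cons b w ih =>
      intro h
      obtain ⟨h1, h2⟩ := (hf M).edge b w h
      rw [List.length_cons]
      push_cast
      calc dist (f M (b :: w)) (f M []) ≤ dist (f M (b :: w)) (f M w) + dist (f M w) (f M []) :=
            dist_triangle _ _ _
        _ ≤ L + L * (w.length : ℝ) := add_le_add h2 (ih h1)
        _ = L * ((w.length : ℝ) + 1) := by ring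
  have hflim : ∀ w : List (Fin d), ∃ y : X, 0 < Θ w → Tendsto (fun M => f M w) U (𝓝 y) := by
    intro w
    by_cases hw : 0 < Θ w
    · have hcomp : IsCompact (Metric.cthickening (L * (w.length : ℝ)) K) := hK.cthickening
      have hmem : ∀ᶠ M in (U : Filter ℕ), f M w ∈ Metric.cthickening (L * (w.length : ℝ)) K := by
        filter_upwards [hpos w hw] with M hM
        exact Metric.mem_cthickening_of_dist_le (f M w) (f M []) _ K (hfK M) (hroot M w hM)
      obtain ⟨y, _, hy⟩ := hcomp.ultrafilter_le_nhds (U.map (fun M => f M w)) (by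
        rw [Filter.le_principal_iff]
        exact hmem)
      exact ⟨y, fun _ => hy⟩
    · exact ⟨x₀, fun h => absurd h hw⟩
  choose F hF using hflim
  have hFedge : ∀ b w, 0 < Θ (b :: w) → 0 < Θ w ∧ dist (F (b :: w)) (F w) ≤ L := by
    intro b w h
    have h1 : 0 < Θ w := by
      rw [hΘcons w]
      apply lt_of_lt_of_le h
      exact Finset.single_le_sum (f := fun b => Θ (b :: w)) (fun b _ => hΘnonneg _)
        (Finset.mem_univ b)
    refine ⟨h1, ?_⟩
    apply le_of_tendsto ((hF (b :: w) h).dist (hF w h1))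
    filter_upwards [hpos _ h] with M hM
    exact ((hf M).edge b w hM).2
  have hFsep : ∀ w s t : List (Fin d), Dv s t → 0 < Θ (s ++ w) → 0 < Θ (t ++ w) →
      1 / 4 * ((s.length : ℝ) + t.length) ≤ dist (F (s ++ w)) (F (t ++ w)) := by
    intro w s t hDv hs ht
    apply ge_of_tendsto ((hF _ hs).dist (hF _ ht))
    filter_upwards [hpos _ hs, hpos _ ht] with M h1 h2
    exact (hf M).sep w s t hDv h1 h2
  have hFup : ∀ (s w : List (Fin d)), 0 < Θ (s ++ w) →
      0 < Θ w ∧ dist (F (s ++ w)) (F w) ≤ L * (s.length : ℝ) := by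
    intro s
    induction s with
    | nil =>
      intro w h
      exact ⟨h, by simp⟩
    | cons b s ih =>
      intro w h
      obtain ⟨h1, h2⟩ := hFedge b (s ++ w) h
      obtain ⟨h3, h4⟩ := ih w h1
      refine ⟨h3, ?_⟩
      rw [List.length_cons]
      push_cast
      calc dist (F (b :: (s ++ w))) (F w)
          ≤ dist (F (b :: (s ++ w))) (F (s ++ w)) + dist (F (s ++ w)) (F w) :=
            dist_triangle _ _ _
        _ ≤ L + L * (s.length : ℝ) := add_le_add h2 h4
        _ = L * ((s.length : ℝ) + 1) := by ring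
  -- the Lipschitz constant is nonnegative
  have hL : 0 ≤ L := by
    have h1 : ∃ b, 0 < Θ (b :: ([] : List (Fin d))) := by
      by_contra hcon
      push Not at hcon
      have h2 := hΘcons []
      rw [hΘroot] at h2
      have h3 : ∑ b, Θ (b :: ([] : List (Fin d))) ≤ 0 := Finset.sum_nonpos fun b _ => hcon b
      linarith
    obtain ⟨b, hb⟩ := h1
    exact dist_nonneg.trans (hFedge b [] hb).2
  refine ⟨d, Θ, ⟨hΘroot, hΘnonneg, hΘcons⟩, hΘdecay, F, 1 / 4, 2 * L, by norm_num, ?_⟩
  intro u v hu hv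
  obtain ⟨w, s, t, rfl, rfl, hDv⟩ := exists_meet' u v
  constructor
  · refine le_trans ?_ (hFsep w s t hDv hu hv)
    apply mul_le_mul_of_nonneg_left _ (by norm_num)
    exact_mod_cast regTree_dist_append_append s t w
  · have h1 := (hFup s w hu).2
    have h2 := (hFup t w hv).2
    have h3 : ((s.length : ℝ) + t.length) ≤ 2 * ((regTree d).dist (s ++ w) (t ++ w) : ℝ) := by
      exact_mod_cast add_length_le_dist s t w hDv
    calc dist (F (s ++ w)) (F (t ++ w)) ≤ dist (F (s ++ w)) (F w) + dist (F (t ++ w)) (F w) := by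
          rw [dist_comm (F (t ++ w))]
          exact dist_triangle _ _ _
      _ ≤ L * (s.length : ℝ) + L * (t.length : ℝ) := add_le_add h1 h2
      _ = L * ((s.length : ℝ) + t.length) := by ring
      _ ≤ L * (2 * ((regTree d).dist (s ++ w) (t ++ w) : ℝ)) :=
          mul_le_mul_of_nonneg_left h3 hL
      _ = 2 * L * ((regTree d).dist (s ++ w) (t ++ w) : ℝ) := by ring

end Pool.Agent.H67
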