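import Pool.Agent.H67.Box

/-!
Long lines: a lower bound on long sign-direction increments gives a point with a
large average unit increment.
-/

set_option autoImplicit false
set_option linter.unusedSectionVars false
set_option linter.unusedSimpArgs false

open Finset BigOperators

namespace Pool.Agent.H67

variable {ι : Type*} [Fintype ι] [DecidableEq ι]
variable {E : Type*} [NormedAddCommGroup E] [NormedSpace ℝ E]

/-- integer vector attached to a sign vector -/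
def sg (ε : ι → ℤˣ) : ι → ℤ := fun i => (ε i : ℤ)

/-- The integer box of radius `R`. -/
noncomputable def cube (ι : Type*) [Fintype ι] [DecidableEq ι] (R : ℕ) : Finset (ι → ℤ) :=
  Fintype.piFinset fun _ => Finset.Icc (-(R:ℤ)) R

lemma mem_cube {R : ℕ} {y : ι → ℤ} : y ∈ cube ι R ↔ ∀ i, |y i| ≤ R := by
  simp [cube, abs_le]

lemma card_cube (R : ℕ) : (cube ι R).card = (2 * R + 1) ^ (Fintype.card ι) := by
  simp only [cube, Fintype.card_piFinset, Int.card_Icc, Finset.prod_const, Finset.card_univ]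
  congr 1
  omega

lemma abs_sg (ε : ι → ℤˣ) (i : ι) : |sg ε i| = 1 := by
  rcases Int.units_eq_one_or (ε i) with h | h <;> simp [sg, h]

lemma line_lower (Ξ : (ι → ℤ) → E) (H M : ℕ) (hH : 0 < H) (c : ℝ)
    (hlow : ∀ y ∈ cube ι M, ∀ ε : ι → ℤˣ, (H:ℝ) * c ≤ ‖Ξ (y + (H:ℤ) • sg ε) - Ξ y‖)
    (hcard : ((cube ι (M + H)).card : ℝ) ≤ 2 * (cube ι M).card) (hc : 0 < c) :
    ∃ y ∈ cube ι (M + H), (2:ℝ) ^ (Fintype.card ι) * (c / 2)
      ≤ ∑ ε : ι → ℤˣ, ‖Ξ (y + sg ε) - Ξ y‖ := by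
  by_contra hcon
  push Not at hcon
  -- total count
  have hM0 : (0:ι → ℤ) ∈ cube ι M := by rw [mem_cube]; intro i; simp
  have hne : (cube ι (M+H)).Nonempty := ⟨0, by rw [mem_cube]; intro i; simp; positivity⟩
  have hcardM : (0:ℝ) < (cube ι M).card := by
    exact_mod_cast Finset.card_pos.mpr ⟨0, hM0⟩
  have A : ∑ y ∈ cube ι (M+H), ∑ ε : ι → ℤˣ, ‖Ξ (y + sg ε) - Ξ y‖
      < ((cube ι (M+H)).card : ℝ) * ((2:ℝ) ^ (Fintype.card ι) * (c / 2)) := by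
    have := Finset.sum_lt_sum_of_nonempty hne hcon
    rwa [Finset.sum_const, nsmul_eq_mul] at this
  -- lower bound by telescoping
  have B : ∀ y ∈ cube ι M, ∀ ε : ι → ℤˣ, (H:ℝ) * c ≤
      ∑ h ∈ Finset.range H, ‖Ξ ((y + (h:ℤ) • sg ε) + sg ε) - Ξ (y + (h:ℤ) • sg ε)‖ := by
    intro y hy ε
    refine (hlow y hy ε).trans ?_
    have tele := Finset.sum_range_sub (fun h : ℕ => Ξ (y + (h:ℤ) • sg ε)) H
    simp only [Nat.cast_zero, zero_smul, add_zero] at tele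
    rw [← tele]
    refine (norm_sum_le _ _).trans (le_of_eq ?_)
    refine Finset.sum_congr rfl fun h _ => ?_
    congr 3
    rw [add_assoc]
    congr 1
    push_cast
    rw [add_smul, one_smul]
  have C : ∀ h ∈ Finset.range H, ∀ ε : ι → ℤˣ,
      ∑ y ∈ cube ι M, ‖Ξ ((y + (h:ℤ) • sg ε) + sg ε) - Ξ (y + (h:ℤ) • sg ε)‖
      ≤ ∑ y ∈ cube ι (M+H), ‖Ξ (y + sg ε) - Ξ y‖ := by
    intro h hh ε
    have himg : (cube ι M).image (fun y => y + (h:ℤ) • sg ε) ⊆ cube ι (M+H) := by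
      intro y hy
      obtain ⟨y', hy', rfl⟩ := Finset.mem_image.mp hy
      rw [mem_cube] at hy' ⊢
      intro i
      have h1 := hy' i
      have h2 := abs_sg ε i
      have h3 : |(h:ℤ) * sg ε i| = h := by rw [abs_mul, h2]; simp
      have h4 : h < H := Finset.mem_range.mp hh
      calc |(y' + (h:ℤ) • sg ε) i| = |y' i + (h:ℤ) * sg ε i| := by simp
        _ ≤ |y' i| + |(h:ℤ) * sg ε i| := abs_add_le _ _
        _ ≤ M + h := by rw [h3]; linarith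
        _ ≤ ((M + H : ℕ) : ℤ) := by push_cast; omega
    calc ∑ y ∈ cube ι M, ‖Ξ ((y + (h:ℤ) • sg ε) + sg ε) - Ξ (y + (h:ℤ) • sg ε)‖
        = ∑ y ∈ (cube ι M).image (fun y => y + (h:ℤ) • sg ε), ‖Ξ (y + sg ε) - Ξ y‖ := by
          rw [Finset.sum_image]
          intro a _ b _ hab
          exact add_right_cancel hab
      _ ≤ _ := Finset.sum_le_sum_of_subset_of_nonneg himg (fun _ _ _ => norm_nonneg _)
  have hcardε : (Fintype.card (ι → ℤˣ) : ℝ) = (2:ℝ) ^ (Fintype.card ι) := by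
    rw [Fintype.card_fun, Fintype.card_units_int]; push_cast; rfl
  have D : ((cube ι M).card : ℝ) * ((2:ℝ) ^ (Fintype.card ι) * ((H:ℝ) * c))
      ≤ (H:ℝ) * ∑ y ∈ cube ι (M+H), ∑ ε : ι → ℤˣ, ‖Ξ (y + sg ε) - Ξ y‖ := by
    calc ((cube ι M).card : ℝ) * ((2:ℝ) ^ (Fintype.card ι) * ((H:ℝ) * c))
        = ∑ _y ∈ cube ι M, ∑ _ε : ι → ℤˣ, ((H:ℝ) * c) := by
          simp only [Finset.sum_const, Finset.card_univ, nsmul_eq_mul]
          rw [hcardε]
      _ ≤ ∑ y ∈ cube ι M, ∑ ε : ι → ℤˣ,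
          ∑ h ∈ Finset.range H, ‖Ξ ((y + (h:ℤ) • sg ε) + sg ε) - Ξ (y + (h:ℤ) • sg ε)‖ := by
          refine Finset.sum_le_sum fun y hy => Finset.sum_le_sum fun ε _ => B y hy ε
      _ = ∑ ε : ι → ℤˣ, ∑ h ∈ Finset.range H, ∑ y ∈ cube ι M,
          ‖Ξ ((y + (h:ℤ) • sg ε) + sg ε) - Ξ (y + (h:ℤ) • sg ε)‖ := by
          rw [Finset.sum_comm]
          exact Finset.sum_congr rfl fun ε _ => Finset.sum_comm
      _ = ∑ h ∈ Finset.range H, ∑ ε : ι → ℤˣ, ∑ y ∈ cube ι M,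
          ‖Ξ ((y + (h:ℤ) • sg ε) + sg ε) - Ξ (y + (h:ℤ) • sg ε)‖ := Finset.sum_comm
      _ ≤ ∑ h ∈ Finset.range H, ∑ ε : ι → ℤˣ, ∑ y ∈ cube ι (M+H), ‖Ξ (y + sg ε) - Ξ y‖ := by
          refine Finset.sum_le_sum fun h hh => Finset.sum_le_sum fun ε _ => C h hh ε
      _ = (H:ℝ) * ∑ y ∈ cube ι (M+H), ∑ ε : ι → ℤˣ, ‖Ξ (y + sg ε) - Ξ y‖ := by
          rw [Finset.sum_const, Finset.card_range, nsmul_eq_mul, Finset.sum_comm]
  have hHR : (0:ℝ) < H := by exact_mod_cast hH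
  have hA := mul_lt_mul_of_pos_left A hHR
  have h2 : (0:ℝ) < (2:ℝ) ^ (Fintype.card ι) := by positivity
  have : ((cube ι M).card : ℝ) * ((2:ℝ) ^ (Fintype.card ι) * ((H:ℝ) * c))
      < (H:ℝ) * ((2 * (cube ι M).card) * ((2:ℝ) ^ (Fintype.card ι) * (c / 2))) := by
    calc _ ≤ _ := D
      _ < _ := hA
      _ ≤ _ := by gcongr
  nlinarith

end Pool.Agent.H67
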