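import Pool.Agent.H67.Bilinear

/-!
The main inequality for `p = 1`.
-/

set_option autoImplicit false
set_option linter.unusedSectionVars false
set_option linter.unusedSimpArgs false

open Finset BigOperators

namespace Pool.Agent.H67

/-- the lattice map attached to a family of sign vectors -/
def J {n N : ℕ} (ζ : Fin N → Fin n → ℤˣ) (y : Fin n → ℤ) : Fin N → ℤ := fun j => dotp (ζ j) y

lemma J_add {n N : ℕ} (ζ : Fin N → Fin n → ℤˣ) (y v : Fin n → ℤ) : J ζ (y + v) = J ζ y + J ζ v := by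
  funext j
  simp [J, dotp, mul_add, Finset.sum_add_distrib]

lemma J_sub {n N : ℕ} (ζ : Fin N → Fin n → ℤˣ) (y v : Fin n → ℤ) : J ζ (y - v) = J ζ y - J ζ v := by
  funext j
  simp [J, dotp, mul_sub, Finset.sum_sub_distrib]

lemma J_single {n N : ℕ} (ζ : Fin N → Fin n → ℤˣ) (k : Fin n) :
    J ζ (Pi.single k 1) = fun j => (ζ j k : ℤ) := by
  funext j
  unfold J dotp
  rw [Finset.sum_eq_single k]
  · simp
  · intro b _ hb; simp [hb]
  · intro h; exact absurd (Finset.mem_univ _) h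

lemma l1_J_single {n N : ℕ} (ζ : Fin N → Fin n → ℤˣ) (k : Fin n) :
    l1 (J ζ (Pi.single k 1)) = N := by
  rw [J_single]
  unfold l1
  have : ∀ j : Fin N, ((ζ j k : ℤ)).natAbs = 1 := by
    intro j
    rcases Int.units_eq_one_or (ζ j k) with h | h <;> simp [h]
  simp [this]

lemma l1_J_sg {n N : ℕ} (ζ : Fin N → Fin n → ℤˣ) (ε : Fin n → ℤˣ) :
    l1 (J ζ (sg ε)) ≤ N * n := by
  unfold l1
  have : ∀ j : Fin N, (J ζ (sg ε) j).natAbs ≤ n := by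
    intro j
    unfold J
    have h1 := abs_dotp_le (ζ j) (sg ε) 1 (by rw [mem_cube]; intro i; rw [abs_sg]; simp)
    have h2 : ((dotp (ζ j) (sg ε)).natAbs : ℝ) ≤ n := by
      rw [Nat.cast_natAbs]
      push_cast
      simpa using h1
    exact_mod_cast h2
  calc ∑ j, (J ζ (sg ε) j).natAbs ≤ ∑ _j : Fin N, n := Finset.sum_le_sum fun j _ => this j
    _ = N * n := by simp

variable {E : Type*} [NormedAddCommGroup E] [NormedSpace ℝ E]

lemma boxAvg_lip {ι : Type*} [Fintype ι] [DecidableEq ι] {P : ℕ} (hP : 0 < P) (F : (ι → ℤ) → E) (κ : ℝ)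
    (h : ∀ z i, ‖F (z + Pi.single i 1) - F z‖ ≤ κ) (z : ι → ℤ) (i : ι) :
    ‖boxAvg P F (z + Pi.single i 1) - boxAvg P F z‖ ≤ κ := by
  rw [← boxAvg_shift_eq, ← boxAvg_sub]
  exact norm_boxAvg_le hP _ _ _ fun z' => h _ _

/-- doubly averaged slopes -/
noncomputable def slope {n N : ℕ} (P L : ℕ) (ζ : Fin N → Fin n → ℤˣ) (F : (Fin N → ℤ) → E)
    (y₀ : Fin n → ℤ) (j : Fin N) : E :=
  boxAvg L (fun y => boxAvg P (fun z => F (z + Pi.single j 1) - F z) (J ζ y)) y₀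

/-- doubly averaged function -/
noncomputable def Xi {n N : ℕ} (P L : ℕ) (ζ : Fin N → Fin n → ℤˣ) (F : (Fin N → ℤ) → E)
    (y₀ : Fin n → ℤ) : E :=
  boxAvg L (fun y => boxAvg P F (J ζ y)) y₀

lemma norm_slope_le {n N : ℕ} {P L : ℕ} (hP : 0 < P) (hL : 0 < L) (ζ : Fin N → Fin n → ℤˣ)
    (F : (Fin N → ℤ) → E) (κ : ℝ) (h : ∀ z i, ‖F (z + Pi.single i 1) - F z‖ ≤ κ)
    (y₀ : Fin n → ℤ) (j : Fin N) : ‖slope P L ζ F y₀ j‖ ≤ κ :=
  norm_boxAvg_le hL _ _ _ fun _ => norm_boxAvg_le hP _ _ _ fun _ => h _ _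

lemma Xi_linearise {n N : ℕ} {P L : ℕ} (hP : 0 < P) (hL : 0 < L) (ζ : Fin N → Fin n → ℤˣ)
    (F : (Fin N → ℤ) → E) (κ : ℝ) (hκ : 0 ≤ κ) (h : ∀ z i, ‖F (z + Pi.single i 1) - F z‖ ≤ κ)
    (y₀ v : Fin n → ℤ) (m : ℕ) (hm : l1 (J ζ v) ≤ m) :
    ‖Xi P L ζ F (y₀ + v) - Xi P L ζ F y₀ - ∑ j, ((J ζ v j : ℤ) : ℝ) • slope P L ζ F y₀ j‖
      ≤ 2 * κ / P * m ^ 2 := by
  have e : Xi P L ζ F (y₀ + v) - Xi P L ζ F y₀ - ∑ j, ((J ζ v j : ℤ) : ℝ) • slope P L ζ F y₀ j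
      = boxAvg L (fun y => boxAvg P F (J ζ y + J ζ v) - boxAvg P F (J ζ y)
        - ∑ j, ((J ζ v j : ℤ) : ℝ) • boxAvg P (fun z => F (z + Pi.single j 1) - F z) (J ζ y)) y₀ := by
    rw [boxAvg_sub, boxAvg_sub, boxAvg_sum]
    simp_rw [boxAvg_smul]
    unfold Xi slope
    rw [← boxAvg_shift_eq]
    simp_rw [J_add]
  rw [e]
  refine norm_boxAvg_le hL _ _ _ fun z => ?_
  refine (linearise hP F κ h _ _).trans ?_
  have : (l1 (J ζ v) : ℝ) ≤ m := by exact_mod_cast hm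
  gcongr

lemma norm_Xi_sub_le {n N : ℕ} {P L : ℕ} (hP : 0 < P) (hL : 0 < L) (hN : 0 < N) (ζ : Fin N → Fin n → ℤˣ)
    (F : (Fin N → ℤ) → E) (D : ℝ) (hD : 0 ≤ D) (h : ∀ z i, ‖F (z + Pi.single i 1) - F z‖ ≤ D / N)
    (y : Fin n → ℤ) :
    ‖Xi P L ζ F y - F (J ζ y)‖ ≤ D * (P + n * L) := by
  have hNR : (0:ℝ) < N := by exact_mod_cast hN
  have h1 : ‖Xi P L ζ F y - boxAvg P F (J ζ y)‖ ≤ D * (n * L) := by
    unfold Xi
    have := norm_boxAvg_sub_le hL (fun y => boxAvg P F (J ζ y)) D (fun y i => by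
      have h2 : J ζ (y + Pi.single i 1) = J ζ y + J ζ (Pi.single i 1) := J_add _ _ _
      rw [h2]
      refine (lattice_lip (boxAvg P F) (D / N) (boxAvg_lip hP F _ h) _ _).trans ?_
      rw [l1_J_single]
      exact le_of_eq (by field_simp)) y
    simpa using this
  have h2 : ‖boxAvg P F (J ζ y) - F (J ζ y)‖ ≤ D * P := by
    refine (norm_boxAvg_sub_le hP F _ h _).trans (le_of_eq ?_)
    rw [Fintype.card_fin]; field_simp
  calc ‖Xi P L ζ F y - F (J ζ y)‖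
      = ‖(Xi P L ζ F y - boxAvg P F (J ζ y)) + (boxAvg P F (J ζ y) - F (J ζ y))‖ := by congr 1; abel
    _ ≤ _ := norm_add_le _ _
    _ ≤ D * (n * L) + D * P := add_le_add h1 h2
    _ = _ := by ring

theorem main_ineq {n N : ℕ} (P L H M M' : ℕ) (hn : 0 < n) (hP : 0 < P) (hL : 0 < L) (hN : 0 < N)
    (hH : 0 < H) (ζ θ : Fin N → Fin n → ℤˣ) (η : ℝ) (hη0 : 0 ≤ η)
    (hη : ∀ j i, |(dotp (ζ j) (sg (θ i)) : ℝ)| ≤ η * n)
    (D r : ℝ) (hD : 0 ≤ D)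
    (FA FB : (Fin N → ℤ) → L1)
    (hA : ∀ z i, ‖FA (z + Pi.single i 1) - FA z‖ ≤ D / N)
    (hB : ∀ z i, ‖FB (z + Pi.single i 1) - FB z‖ ≤ D / N)
    (hM : M' + H + L ≤ M)
    (hglue : ∀ y ∈ cube (Fin n) M, ‖FA (J ζ y) - FB (J θ y)‖ ≤ D * r)
    (hlow : ∀ y ∈ cube (Fin n) M', ∀ ε : Fin n → ℤˣ,
      (H:ℝ) * (√n / 4) ≤ ‖FA (J ζ (y + (H:ℤ) • sg ε)) - FA (J ζ y)‖)
    (hHbig : 2 * (D * (P + n * L)) ≤ H * (√n / 8))
    (hcard : ((cube (Fin n) (M' + H)).card : ℝ) ≤ 2 * (cube (Fin n) M').card) :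
    √n / 16 ≤ √(η * n) * D + (n * (4 * D * N / P + 2 * (D * (r + 2 * P)) / L) + 2 * D * N * n ^ 2 / P) := by
  have hnR : (0:ℝ) < n := by exact_mod_cast hn
  have hNR : (0:ℝ) < N := by exact_mod_cast hN
  have hPR : (0:ℝ) < P := by exact_mod_cast hP
  have hLR : (0:ℝ) < L := by exact_mod_cast hL
  have hsn : 0 < √(n:ℝ) := Real.sqrt_pos.mpr hnR
  have hDN : 0 ≤ D / N := by positivity
  -- Step 1: a good base point
  obtain ⟨y₀, hy₀, hlarge⟩ := line_lower (Xi P L ζ FA) H M' hH (√n / 8) (by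
    intro y hy ε
    have h1 := hlow y hy ε
    have h2 := norm_Xi_sub_le hP hL hN ζ FA D hD hA (y + (H:ℤ) • sg ε)
    have h3 := norm_Xi_sub_le hP hL hN ζ FA D hD hA y
    have h4 : ‖FA (J ζ (y + (H:ℤ) • sg ε)) - FA (J ζ y)‖
        ≤ ‖Xi P L ζ FA (y + (H:ℤ) • sg ε) - Xi P L ζ FA y‖ + D * (P + n * L) + D * (P + n * L) := by
      have e : FA (J ζ (y + (H:ℤ) • sg ε)) - FA (J ζ y)
          = (Xi P L ζ FA (y + (H:ℤ) • sg ε) - Xi P L ζ FA y)
            - (Xi P L ζ FA (y + (H:ℤ) • sg ε) - FA (J ζ (y + (H:ℤ) • sg ε)))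
            + (Xi P L ζ FA y - FA (J ζ y)) := by abel
      rw [e]
      calc _ ≤ _ := norm_add_le _ _
        _ ≤ _ := add_le_add (norm_sub_le _ _) le_rfl
        _ ≤ _ := by gcongr
    linarith) hcard (by positivity)
  rw [Fintype.card_fin] at hlarge
  set G : Fin N → L1 := slope P L ζ FA y₀ with hG
  set K : Fin N → L1 := slope P L θ FB y₀ with hK
  set t : Fin n → L1 := fun k => ∑ j, ((ζ j k : ℤ) : ℝ) • G j with ht
  set t' : Fin n → L1 := fun k => ∑ j, ((θ j k : ℤ) : ℝ) • K j with ht'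
  -- Step 2: linearisation in sign directions
  have lin : ∀ ε : Fin n → ℤˣ, ‖Xi P L ζ FA (y₀ + sg ε) - Xi P L ζ FA y₀‖
      ≤ ‖∑ k, ((ε k : ℤ) : ℝ) • t k‖ + 2 * D * N * n ^ 2 / P := by
    intro ε
    have h1 := Xi_linearise hP hL ζ FA (D / N) hDN hA y₀ (sg ε) (N * n) (l1_J_sg ζ ε)
    have e1 : ∑ j, ((J ζ (sg ε) j : ℤ) : ℝ) • slope P L ζ FA y₀ j = ∑ k, ((ε k : ℤ) : ℝ) • t k := by
      simp only [ht, Finset.smul_sum, smul_smul]
      rw [Finset.sum_comm]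
      refine Finset.sum_congr rfl fun j _ => ?_
      rw [← Finset.sum_smul]
      congr 1
      unfold J dotp sg
      push_cast
      refine Finset.sum_congr rfl fun k _ => ?_
      ring
    rw [e1] at h1
    have e2 : 2 * (D / N) / P * ((N * n : ℕ) : ℝ) ^ 2 = 2 * D * N * n ^ 2 / P := by
      push_cast; field_simp
    rw [e2] at h1
    calc ‖Xi P L ζ FA (y₀ + sg ε) - Xi P L ζ FA y₀‖
        = ‖(Xi P L ζ FA (y₀ + sg ε) - Xi P L ζ FA y₀ - ∑ k, ((ε k : ℤ) : ℝ) • t k)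
            + ∑ k, ((ε k : ℤ) : ℝ) • t k‖ := by congr 1; abel
      _ ≤ _ := norm_add_le _ _
      _ ≤ _ := by linarith
  -- Step 3: the two gradients are close
  have grad : ∀ k, ‖t k - t' k‖ ≤ 4 * D * N / P + 2 * (D * (r + 2 * P)) / L := by
    intro k
    have h1 := Xi_linearise hP hL ζ FA (D / N) hDN hA y₀ (Pi.single k 1) N (l1_J_single ζ k).le
    have h2 := Xi_linearise hP hL θ FB (D / N) hDN hB y₀ (Pi.single k 1) N (l1_J_single θ k).le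
    have e1 : ∑ j, ((J ζ (Pi.single k 1) j : ℤ) : ℝ) • slope P L ζ FA y₀ j = t k := by
      rw [J_single]
    have e2 : ∑ j, ((J θ (Pi.single k 1) j : ℤ) : ℝ) • slope P L θ FB y₀ j = t' k := by
      rw [J_single]
    rw [e1] at h1
    rw [e2] at h2
    have e3 : 2 * (D / N) / P * (N : ℝ) ^ 2 = 2 * D * N / P := by field_simp
    rw [e3] at h1 h2
    have h3 : ‖(Xi P L ζ FA (y₀ + Pi.single k 1) - Xi P L θ FB (y₀ + Pi.single k 1))
        - (Xi P L ζ FA y₀ - Xi P L θ FB y₀)‖ ≤ 2 * (D * (r + 2 * P)) / L := by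
      have e4 : ∀ y, Xi P L ζ FA y - Xi P L θ FB y
          = boxAvg L (fun y => boxAvg P FA (J ζ y) - boxAvg P FB (J θ y)) y := by
        intro y; rw [boxAvg_sub]; rfl
      rw [e4, e4]
      refine norm_boxAvg_shift_le hL _ _ (D * (r + 2 * P)) ?_ k
      intro z hz
      have hmem : y₀ + z ∈ cube (Fin n) M := by
        rw [mem_cube] at hy₀ ⊢
        intro i
        have h5 := hy₀ i
        have h6 := hz i
        rw [abs_le] at h5 ⊢
        simp only [Pi.add_apply]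
        push_cast at h5
        omega
      have h7 := hglue _ hmem
      have h8 : ‖boxAvg P FA (J ζ (y₀ + z)) - FA (J ζ (y₀ + z))‖ ≤ D * P := by
        refine (norm_boxAvg_sub_le hP FA _ hA _).trans (le_of_eq ?_)
        rw [Fintype.card_fin]; field_simp
      have h9 : ‖boxAvg P FB (J θ (y₀ + z)) - FB (J θ (y₀ + z))‖ ≤ D * P := by
        refine (norm_boxAvg_sub_le hP FB _ hB _).trans (le_of_eq ?_)
        rw [Fintype.card_fin]; field_simp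
      have e5 : boxAvg P FA (J ζ (y₀ + z)) - boxAvg P FB (J θ (y₀ + z))
          = (boxAvg P FA (J ζ (y₀ + z)) - FA (J ζ (y₀ + z)))
            - (boxAvg P FB (J θ (y₀ + z)) - FB (J θ (y₀ + z)))
            + (FA (J ζ (y₀ + z)) - FB (J θ (y₀ + z))) := by abel
      rw [e5]
      calc _ ≤ _ := norm_add_le _ _
        _ ≤ _ := add_le_add (norm_sub_le _ _) le_rfl
        _ ≤ D * P + D * P + D * r := by gcongr
        _ = _ := by ring
    have e6 : t k - t' k = -(Xi P L ζ FA (y₀ + Pi.single k 1) - Xi P L ζ FA y₀ - t k)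
        + (Xi P L θ FB (y₀ + Pi.single k 1) - Xi P L θ FB y₀ - t' k)
        + ((Xi P L ζ FA (y₀ + Pi.single k 1) - Xi P L θ FB (y₀ + Pi.single k 1))
        - (Xi P L ζ FA y₀ - Xi P L θ FB y₀)) := by abel
    rw [e6]
    calc _ ≤ _ := norm_add_le _ _
      _ ≤ _ := add_le_add (norm_add_le _ _) le_rfl
      _ ≤ 2 * D * N / P + 2 * D * N / P + 2 * (D * (r + 2 * P)) / L := by
          rw [norm_neg]; gcongr
      _ = _ := by ring
  -- Step 4: bilinear estimate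
  have bil := bilinear_L1 ζ θ η hη0 hη G K
  have hGs : ∑ j, ‖G j‖ ≤ D := by
    calc ∑ j, ‖G j‖ ≤ ∑ _j : Fin N, D / N :=
          Finset.sum_le_sum fun j _ => norm_slope_le hP hL ζ FA _ hA y₀ j
      _ = D := by simp; field_simp
  have hKs : ∑ j, ‖K j‖ ≤ D := by
    calc ∑ j, ‖K j‖ ≤ ∑ _j : Fin N, D / N :=
          Finset.sum_le_sum fun j _ => norm_slope_le hP hL θ FB _ hB y₀ j
      _ = D := by simp; field_simp
  have hts : ∑ k, ‖t k - t' k‖ ≤ n * (4 * D * N / P + 2 * (D * (r + 2 * P)) / L) := by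
    calc ∑ k, ‖t k - t' k‖ ≤ ∑ _k : Fin n, (4 * D * N / P + 2 * (D * (r + 2 * P)) / L) :=
          Finset.sum_le_sum fun k _ => grad k
      _ = _ := by rw [Finset.sum_const, Finset.card_univ, Fintype.card_fin, nsmul_eq_mul]
  have h2n : (0:ℝ) < (2:ℝ) ^ n := by positivity
  have total : (2:ℝ) ^ n * (√n / 16)
      ≤ (2:ℝ) ^ n * (√(η * n) * D + (n * (4 * D * N / P + 2 * (D * (r + 2 * P)) / L)
        + 2 * D * N * n ^ 2 / P)) := by
    calc (2:ℝ) ^ n * (√n / 16) = (2:ℝ) ^ n * (√n / 8 / 2) := by ring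
      _ ≤ ∑ ε : Fin n → ℤˣ, ‖Xi P L ζ FA (y₀ + sg ε) - Xi P L ζ FA y₀‖ := hlarge
      _ ≤ ∑ ε : Fin n → ℤˣ, (‖∑ k, ((ε k : ℤ) : ℝ) • t k‖ + 2 * D * N * n ^ 2 / P) :=
          Finset.sum_le_sum fun ε _ => lin ε
      _ = (∑ ε : Fin n → ℤˣ, ‖∑ k, ((ε k : ℤ) : ℝ) • t k‖) + (2:ℝ) ^ n * (2 * D * N * n ^ 2 / P) := by
          rw [Finset.sum_add_distrib, Finset.sum_const, Finset.card_univ, nsmul_eq_mul, card_signsFin]
      _ ≤ (2:ℝ) ^ n * (√(η * n) * ((∑ j, ‖G j‖ + ∑ i, ‖K i‖) / 2) + ∑ k, ‖t k - t' k‖)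
          + (2:ℝ) ^ n * (2 * D * N * n ^ 2 / P) := by gcongr
      _ ≤ (2:ℝ) ^ n * (√(η * n) * ((D + D) / 2) + n * (4 * D * N / P + 2 * (D * (r + 2 * P)) / L))
          + (2:ℝ) ^ n * (2 * D * N * n ^ 2 / P) := by gcongr
      _ = _ := by ring
  exact le_of_mul_le_mul_left total h2n

end Pool.Agent.H67
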