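import Pool.Agent.H67.SupramDefs

/-!
# Invariant finitely additive measures from the failure of expansion
-/

set_option autoImplicit false

namespace Pool.Agent.H67

open Finset Classical Filter Topology
open scoped Pointwise

section

variable {G : Type*} [Group G]

/-- The points of `A` in the `K`-neighbourhood of `F`. -/
noncomputable def nb (A : Set G) (K F : Finset G) : Finset G := (F * K).filter (fun a => a ∈ A)

theorem mem_nb {A : Set G} {K F : Finset G} {a : G} :
    a ∈ nb A K F ↔ (∃ x ∈ F, ∃ k ∈ K, x * k = a) ∧ a ∈ A := by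
  rw [nb, Finset.mem_filter, Finset.mem_mul]

theorem nb_subset (A : Set G) (K F : Finset G) : (nb A K F : Set G) ⊆ A :=
  fun _ ha => (mem_nb.mp (Finset.mem_coe.mp ha)).2

theorem subset_nb {A : Set G} {K F : Finset G} (hK : (1 : G) ∈ K) (hF : (F : Set G) ⊆ A) :
    F ⊆ nb A K F := fun a ha => mem_nb.mpr ⟨⟨a, ha, 1, hK, mul_one a⟩, hF ha⟩

/-- The number of points of `S` in `B`. -/
noncomputable def cnt (S : Finset G) (B : Set G) : ℕ := (S.filter (fun x => x ∈ B)).card

theorem cnt_union (S : Finset G) {B C : Set G} (h : Disjoint B C) :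
    cnt S (B ∪ C) = cnt S B + cnt S C := by
  unfold cnt
  rw [← Finset.card_union_of_disjoint]
  · congr 1
    ext x
    simp only [Finset.mem_union, Finset.mem_filter, Set.mem_union]
    tauto
  · rw [Finset.disjoint_left]
    intro x hx hx'
    exact Set.disjoint_left.mp h (Finset.mem_filter.mp hx).2 (Finset.mem_filter.mp hx').2

/-- If expansion by the factor two fails at every scale then it fails by every factor. -/
theorem exists_almost_invariant {A : Set G}
    (H : ∀ K : Finset G, ∃ F : Finset G, (F : Set G) ⊆ A ∧ F.Nonempty ∧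
      (nb A K F).card < 2 * F.card)
    (K : Finset G) (hK : (1 : G) ∈ K) (ε : ℝ) (hε : 0 < ε) :
    ∃ F : Finset G, (F : Set G) ⊆ A ∧ F.Nonempty ∧
      ((nb A K F).card : ℝ) ≤ (1 + ε) * F.card := by
  by_contra hcon
  push Not at hcon
  obtain ⟨n, hn⟩ := pow_unbounded_of_one_lt 2 (show (1 : ℝ) < 1 + ε by linarith)
  obtain ⟨F, hFA, hFne, hF⟩ := H (K ^ n)
  have key : ∀ i : ℕ, ∃ E : Finset G, (E : Set G) ⊆ A ∧ E.Nonempty ∧ E ⊆ F * K ^ i ∧
      (1 + ε) ^ i * F.card ≤ (E.card : ℝ) := by
    intro i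
    induction i with
    | zero => exact ⟨F, hFA, hFne, by simp, by simp⟩
    | succ i ih =>
      obtain ⟨E, hEA, hEne, hEK, hE⟩ := ih
      refine ⟨nb A K E, nb_subset A K E, ?_, ?_, ?_⟩
      · exact hEne.mono (subset_nb hK hEA)
      · intro a ha
        obtain ⟨⟨x, hx, k, hk, rfl⟩, _⟩ := mem_nb.mp ha
        rw [pow_succ, ← mul_assoc]
        exact Finset.mul_mem_mul (hEK hx) hk
      · have h1 := hcon E hEA hEne
        rw [pow_succ]
        have h2 : (0 : ℝ) ≤ 1 + ε := by linarith
        calc (1 + ε) ^ i * (1 + ε) * F.card = (1 + ε) * ((1 + ε) ^ i * F.card) := by ring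
          _ ≤ (1 + ε) * E.card := mul_le_mul_of_nonneg_left hE h2
          _ ≤ _ := h1.le
  obtain ⟨E, hEA, _, hEK, hE⟩ := key n
  have h1 : E ⊆ nb A (K ^ n) F := by
    intro a ha
    rw [nb, Finset.mem_filter]
    exact ⟨hEK ha, hEA ha⟩
  have h2 : (E.card : ℝ) ≤ ((nb A (K ^ n) F).card : ℝ) := by
    exact_mod_cast Finset.card_le_card h1
  have h3 : ((nb A (K ^ n) F).card : ℝ) < 2 * F.card := by exact_mod_cast hF
  have h4 : (0 : ℝ) < F.card := by
    exact_mod_cast Finset.card_pos.mpr hFne
  nlinarith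

/-- The limit of a function with values in `[0, ∞]` along an ultrafilter. -/
theorem exists_ulim {ι : Type*} (U : Ultrafilter ι) (φ : ι → ENNReal) :
    ∃ l : ENNReal, Tendsto φ U (𝓝 l) := by
  refine ⟨(U.map φ).lim, ?_⟩
  exact (U.map φ).le_nhds_lim

/-- The chosen limit. -/
noncomputable def ulim {ι : Type*} (U : Ultrafilter ι) (φ : ι → ENNReal) : ENNReal :=
  (exists_ulim U φ).choose

theorem tendsto_ulim {ι : Type*} (U : Ultrafilter ι) (φ : ι → ENNReal) :
    Tendsto φ U (𝓝 (ulim U φ)) := (exists_ulim U φ).choose_spec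

theorem ulim_eq {ι : Type*} (U : Ultrafilter ι) {φ : ι → ENNReal} {l : ENNReal}
    (h : Tendsto φ U (𝓝 l)) : ulim U φ = l :=
  tendsto_nhds_unique (tendsto_ulim U φ) h

/-- **Measures from almost invariant sets.** -/
theorem exists_measure {A : Set G}
    (H : ∀ K : Finset G, ∃ F : Finset G, (F : Set G) ⊆ A ∧ F.Nonempty ∧
      (nb A K F).card < 2 * F.card) :
    ∃ ν : Set G → ENNReal, ν A = 1 ∧
      (∀ B C : Set G, Disjoint B C → ν (B ∪ C) = ν B + ν C) ∧
      ∀ (g : G) (B : Set G), ν ((fun x => x * g) '' B) = ν B := by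
  -- the index set
  let ι := Finset G × ℕ
  let K' : ι → Finset G := fun i => insert 1 (i.1 ∪ i.1⁻¹)
  have hK'1 : ∀ i, (1 : G) ∈ K' i := fun i => Finset.mem_insert_self _ _
  have hex : ∀ i : ι, ∃ F : Finset G, (F : Set G) ⊆ A ∧ F.Nonempty ∧
      ((nb A (K' i * K' i) F).card : ℝ) ≤ (1 + 1 / ((i.2 : ℝ) + 1)) * F.card := by
    intro i
    apply exists_almost_invariant H
    · rw [Finset.mem_mul]
      exact ⟨1, hK'1 i, 1, hK'1 i, mul_one 1⟩
    · positivity
  choose F hFA hFne hF using hex
  let U : Ultrafilter ι := Ultrafilter.of atTop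
  have hU : (U : Filter ι) ≤ atTop := Ultrafilter.of_le atTop
  have hUev : ∀ g : G, ∀ᶠ i in (U : Filter ι), g ∈ K' i ∧ g⁻¹ ∈ K' i := by
    intro g
    apply hU
    rw [Filter.mem_atTop_sets]
    refine ⟨({g}, 0), fun i hi => ?_⟩
    have hg : g ∈ i.1 := hi.1 (Finset.mem_singleton_self g)
    constructor
    · exact Finset.mem_insert_of_mem (Finset.mem_union_left _ hg)
    · exact Finset.mem_insert_of_mem (Finset.mem_union_right _ (Finset.inv_mem_inv hg))
  have hUn : Tendsto (fun i : ι => ENNReal.ofReal (1 / ((i.2 : ℝ) + 1))) U (𝓝 0) := by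
    have h1 : Tendsto (fun i : ι => i.2) U atTop := by
      refine Tendsto.mono_left ?_ hU
      rw [← Filter.prod_atTop_atTop_eq]
      exact Filter.tendsto_snd
    have h2 : Tendsto (fun n : ℕ => 1 / ((n : ℝ) + 1)) atTop (𝓝 0) :=
      tendsto_one_div_add_atTop_nhds_zero_nat
    have h3 := ENNReal.tendsto_ofReal (h2.comp h1)
    rw [ENNReal.ofReal_zero] at h3
    exact h3
  -- counting functions
  let S : ι → Finset G := fun i => F i * K' i
  let φ : Set G → ι → ENNReal := fun B i =>
    (cnt (S i) B : ENNReal) / ((F i).card : ENNReal)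
  let ψ : Set G → ι → ENNReal := fun B i =>
    (cnt (F i) B : ENNReal) / ((F i).card : ENNReal)
  have hFcard0 : ∀ i, ((F i).card : ENNReal) ≠ 0 := by
    intro i
    have := Finset.card_pos.mpr (hFne i)
    exact_mod_cast this.ne'
  have hFcardtop : ∀ i, ((F i).card : ENNReal) ≠ ⊤ := fun i => ENNReal.natCast_ne_top _
  -- comparison
  have hcomp : ∀ (g : G) (B : Set G), (∀ b ∈ B, b * g ∈ A) →
      ulim U (φ B) = ulim U (ψ ((fun x => x * g) '' B)) := by
    intro g B hB
    have hle1 : ∀ᶠ i in (U : Filter ι), ψ ((fun x => x * g) '' B) i ≤ φ B i := by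
      filter_upwards [hUev g] with i hi
      apply ENNReal.div_le_div_right
      have : cnt (F i) ((fun x => x * g) '' B) ≤ cnt (S i) B := by
        apply Finset.card_le_card_of_injOn (fun x => x * g⁻¹)
        · intro x hx
          rw [Finset.mem_coe, Finset.mem_filter] at hx
          obtain ⟨hxF, b, hb, rfl⟩ := hx
          rw [Finset.mem_coe, Finset.mem_filter]
          constructor
          · exact Finset.mul_mem_mul hxF hi.2
          · simpa using hb
        · intro x _ y _ hxy
          exact mul_right_cancel hxy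
      exact_mod_cast this
    have hle2 : ∀ᶠ i in (U : Filter ι), φ B i ≤ ψ ((fun x => x * g) '' B) i +
        ENNReal.ofReal (1 / ((i.2 : ℝ) + 1)) := by
      filter_upwards [hUev g] with i hi
      -- cardinalities
      have hsplit : cnt (S i) B ≤ cnt (F i) ((fun x => x * g) '' B) +
            ((nb A (K' i * K' i) (F i)) \ F i).card := by
        have h1 : cnt (S i) B ≤
            (((F i).filter (fun x => x ∈ (fun x => x * g) '' B)) ∪
              ((nb A (K' i * K' i) (F i)) \ F i)).card := by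
          apply Finset.card_le_card_of_injOn (fun x => x * g)
          · intro x hx
            rw [Finset.mem_coe, Finset.mem_filter] at hx
            obtain ⟨hxS, hxB⟩ := hx
            rw [Finset.mem_coe, Finset.mem_union]
            by_cases hxF : x * g ∈ F i
            · left
              exact Finset.mem_filter.mpr ⟨hxF, x, hxB, rfl⟩
            · right
              rw [Finset.mem_sdiff]
              refine ⟨mem_nb.mpr ⟨?_, hB x hxB⟩, hxF⟩
              obtain ⟨y, hy, k, hk, hyk⟩ := Finset.mem_mul.mp hxS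
              refine ⟨y, hy, k * g, Finset.mul_mem_mul hk hi.1, ?_⟩
              show y * (k * g) = x * g
              rw [← mul_assoc, hyk]
          · intro x _ y _ hxy
            exact mul_right_cancel hxy
        exact h1.trans (Finset.card_union_le _ _)
      have hsub : F i ⊆ nb A (K' i * K' i) (F i) := by
        apply subset_nb _ (hFA i)
        rw [Finset.mem_mul]
        exact ⟨1, hK'1 i, 1, hK'1 i, mul_one 1⟩
      have hdiff : (((nb A (K' i * K' i) (F i)) \ F i).card : ℝ) ≤
          (1 / ((i.2 : ℝ) + 1)) * (F i).card := by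
        rw [Finset.card_sdiff_of_subset hsub, Nat.cast_sub (Finset.card_le_card hsub)]
        have := hF i
        linarith
      have hdiff' : (((nb A (K' i * K' i) (F i)) \ F i).card : ENNReal) ≤
          ENNReal.ofReal (1 / ((i.2 : ℝ) + 1)) * ((F i).card : ENNReal) := by
        have h1 := ENNReal.ofReal_le_ofReal hdiff
        rw [ENNReal.ofReal_natCast, ENNReal.ofReal_mul (by positivity),
          ENNReal.ofReal_natCast] at h1
        exact h1
      show (cnt (S i) B : ENNReal) / ((F i).card : ENNReal) ≤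
        (cnt (F i) ((fun x => x * g) '' B) : ENNReal) /
          ((F i).card : ENNReal) + ENNReal.ofReal (1 / ((i.2 : ℝ) + 1))
      rw [ENNReal.div_le_iff (hFcard0 i) (hFcardtop i), add_mul,
        ENNReal.div_mul_cancel (hFcard0 i) (hFcardtop i)]
      calc (cnt (S i) B : ENNReal)
          ≤ (cnt (F i) ((fun x => x * g) '' B) : ENNReal) +
            (((nb A (K' i * K' i) (F i)) \ F i).card : ENNReal) := by exact_mod_cast hsplit
        _ ≤ _ := by gcongr
    apply le_antisymm
    · have h1 := (tendsto_ulim U (ψ ((fun x => x * g) '' B))).add hUn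
      rw [add_zero] at h1
      exact le_of_tendsto_of_tendsto (tendsto_ulim U (φ B)) h1 hle2
    · exact le_of_tendsto_of_tendsto (tendsto_ulim U (ψ ((fun x => x * g) '' B)))
        (tendsto_ulim U (φ B)) hle1
  have hadd : ∀ B C : Set G, Disjoint B C →
      ulim U (φ (B ∪ C)) = ulim U (φ B) + ulim U (φ C) := by
    intro B C hBC
    apply ulim_eq
    have h1 := (tendsto_ulim U (φ B)).add (tendsto_ulim U (φ C))
    refine h1.congr (fun i => ?_)
    show (cnt (S i) B : ENNReal) / ((F i).card : ENNReal) +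
      (cnt (S i) C : ENNReal) / ((F i).card : ENNReal) =
      (cnt (S i) (B ∪ C) : ENNReal) / ((F i).card : ENNReal)
    rw [← ENNReal.add_div, cnt_union _ hBC, Nat.cast_add]
  -- boundedness
  let Bdd : Set G → Prop := fun B => ∃ T : Finset G, ∀ b ∈ B, ∃ g ∈ T, b * g ∈ A
  have hBddunion : ∀ B C : Set G, Bdd (B ∪ C) ↔ Bdd B ∧ Bdd C := by
    intro B C
    constructor
    · rintro ⟨T, hT⟩
      exact ⟨⟨T, fun b hb => hT b (Or.inl hb)⟩, ⟨T, fun b hb => hT b (Or.inr hb)⟩⟩
    · rintro ⟨⟨T, hT⟩, ⟨T', hT'⟩⟩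
      refine ⟨T ∪ T', fun b hb => ?_⟩
      rcases hb with hb | hb
      · obtain ⟨g, hg, h⟩ := hT b hb
        exact ⟨g, Finset.mem_union_left _ hg, h⟩
      · obtain ⟨g, hg, h⟩ := hT' b hb
        exact ⟨g, Finset.mem_union_right _ hg, h⟩
  have hBddtrans1 : ∀ (h : G) (B : Set G), Bdd B → Bdd ((fun x => x * h) '' B) := by
    rintro h B ⟨T, hT⟩
    refine ⟨T.image (fun g => h⁻¹ * g), ?_⟩
    rintro _ ⟨b, hb, rfl⟩
    obtain ⟨g, hg, hbg⟩ := hT b hb
    refine ⟨h⁻¹ * g, Finset.mem_image_of_mem _ hg, ?_⟩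
    show b * h * (h⁻¹ * g) ∈ A
    rwa [mul_assoc, mul_inv_cancel_left]
  have hBddtrans : ∀ (h : G) (B : Set G), Bdd ((fun x => x * h) '' B) ↔ Bdd B := by
    intro h B
    refine ⟨fun hB => ?_, hBddtrans1 h B⟩
    have h1 := hBddtrans1 h⁻¹ _ hB
    rwa [Set.image_image, show (fun x => x * h * h⁻¹) '' B = B by simp] at h1
  have hinv : ∀ (h : G) (T : Finset G) (B : Set G), (∀ b ∈ B, ∃ g ∈ T, b * g ∈ A) →
      ulim U (φ ((fun x => x * h) '' B)) = ulim U (φ B) := by
    intro h T
    induction T using Finset.induction_on with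
    | empty =>
      intro B hB
      have : B = ∅ := by
        rw [Set.eq_empty_iff_forall_notMem]
        intro b hb
        obtain ⟨g, hg, _⟩ := hB b hb
        exact absurd hg (Finset.notMem_empty g)
      rw [this, Set.image_empty]
    | insert g T hgT ih =>
      intro B hB
      have hsplit : B = {b | b ∈ B ∧ b * g ∈ A} ∪ {b | b ∈ B ∧ ¬ b * g ∈ A} := by
        ext b
        simp only [Set.mem_union, Set.mem_ofPred_eq]
        tauto
      have hd : Disjoint {b | b ∈ B ∧ b * g ∈ A} {b | b ∈ B ∧ ¬ b * g ∈ A} := by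
        rw [Set.disjoint_left]
        rintro b ⟨_, h1⟩ ⟨_, h2⟩
        exact h2 h1
      have e1 : ulim U (φ ((fun x => x * h) '' {b | b ∈ B ∧ b * g ∈ A})) =
          ulim U (φ {b | b ∈ B ∧ b * g ∈ A}) := by
        have h1 := hcomp g {b | b ∈ B ∧ b * g ∈ A} (fun b hb => hb.2)
        have h2 := hcomp (h⁻¹ * g) ((fun x => x * h) '' {b | b ∈ B ∧ b * g ∈ A}) (by
          rintro _ ⟨b, hb, rfl⟩
          show b * h * (h⁻¹ * g) ∈ A
          rw [mul_assoc, mul_inv_cancel_left]
          exact hb.2)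
        rw [h1, h2, Set.image_image]
        congr 2
        apply congrArg (fun f : G → G => f '' {b | b ∈ B ∧ b * g ∈ A})
        funext x
        show x * h * (h⁻¹ * g) = x * g
        rw [mul_assoc, mul_inv_cancel_left]
      have e2 : ulim U (φ ((fun x => x * h) '' {b | b ∈ B ∧ ¬ b * g ∈ A})) =
          ulim U (φ {b | b ∈ B ∧ ¬ b * g ∈ A}) := by
        apply ih
        rintro b ⟨hb, hbg⟩
        obtain ⟨g', hg', hbg'⟩ := hB b hb
        rw [Finset.mem_insert] at hg'
        rcases hg' with h1 | h1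
        · exact absurd (h1 ▸ hbg') hbg
        · exact ⟨g', h1, hbg'⟩
      have hd' : Disjoint ((fun x => x * h) '' {b | b ∈ B ∧ b * g ∈ A})
          ((fun x => x * h) '' {b | b ∈ B ∧ ¬ b * g ∈ A}) :=
        Set.disjoint_image_of_injective (mul_left_injective h) hd
      rw [hsplit, Set.image_union, hadd _ _ hd', hadd _ _ hd, e1, e2]
  refine ⟨fun B => if Bdd B then ulim U (φ B) else ⊤, ?_, ?_, ?_⟩
  · have hA : Bdd A := ⟨{1}, fun b hb => ⟨1, Finset.mem_singleton_self 1, by rwa [mul_one]⟩⟩
    show (if Bdd A then ulim U (φ A) else ⊤) = 1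
    rw [if_pos hA, hcomp 1 A (fun b hb => by rwa [mul_one])]
    apply ulim_eq
    refine tendsto_const_nhds.congr (fun i => ?_)
    show (1 : ENNReal) = (cnt (F i) ((fun x => x * 1) '' A) : ENNReal) / ((F i).card : ENNReal)
    rw [cnt, Finset.filter_true_of_mem, ENNReal.div_self (hFcard0 i) (hFcardtop i)]
    intro x hx
    exact ⟨x, hFA i hx, mul_one x⟩
  · intro B C hBC
    show (if Bdd (B ∪ C) then ulim U (φ (B ∪ C)) else ⊤) =
      (if Bdd B then ulim U (φ B) else ⊤) + (if Bdd C then ulim U (φ C) else ⊤)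
    by_cases hB : Bdd B
    · by_cases hC : Bdd C
      · rw [if_pos ((hBddunion B C).mpr ⟨hB, hC⟩), if_pos hB, if_pos hC, hadd B C hBC]
      · rw [if_neg (fun h => hC ((hBddunion B C).mp h).2), if_neg hC, add_top]
    · rw [if_neg (fun h => hB ((hBddunion B C).mp h).1), if_neg hB, top_add]
  · intro h B
    show (if Bdd ((fun x => x * h) '' B) then ulim U (φ ((fun x => x * h) '' B)) else ⊤) =
      (if Bdd B then ulim U (φ B) else ⊤)
    by_cases hB : Bdd B
    · rw [if_pos ((hBddtrans h B).mpr hB), if_pos hB]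
      obtain ⟨T, hT⟩ := hB
      exact hinv h T B hT
    · rw [if_neg (fun h' => hB ((hBddtrans h B).mp h')), if_neg hB]

end

end Pool.Agent.H67
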