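import Mathlib

/-!
# Avoiding weighted patterns

A counting version (in the style of Rosenfeld) of the local lemma for colourings: if through every
variable the total weight of patterns is at most one, then some colouring avoids all patterns.
-/

set_option autoImplicit false

namespace Pool.Agent.H67

open Finset Classical

section finite

variable {V I Q : Type*} [Fintype V] [Fintype Q]

/-- Colourings supported in `W` that avoid all patterns of `P` living on `W`. -/
noncomputable def goodSet (P : Finset I) (U : I → Finset V) (σ : I → V → Q) (q0 : Q)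
    (W : Finset V) : Finset (V → Q) :=
  univ.filter (fun c => (∀ v, v ∉ W → c v = q0) ∧ ∀ A ∈ P, U A ⊆ W → ∃ v ∈ U A, c v ≠ σ A v)

theorem mem_goodSet {P : Finset I} {U : I → Finset V} {σ : I → V → Q} {q0 : Q}
    {W : Finset V} {c : V → Q} :
    c ∈ goodSet P U σ q0 W ↔
      (∀ v, v ∉ W → c v = q0) ∧ ∀ A ∈ P, U A ⊆ W → ∃ v ∈ U A, c v ≠ σ A v := by
  simp [goodSet]

/-- Chain lemma. -/
theorem goodSet_chain (P : Finset I) (U : I → Finset V) (σ : I → V → Q) (q0 : Q)
    (W : Finset V) (a : ℝ) (ha : 0 ≤ a)
    (IH : ∀ W' : Finset V, W'.card < W.card → ∀ v ∉ W',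
      a * ((goodSet P U σ q0 W').card : ℝ) ≤ ((goodSet P U σ q0 (insert v W')).card : ℝ))
    (W0 : Finset V) (D : Finset V) (hd : Disjoint W0 D) (hW : W0 ∪ D ⊆ W) :
    a ^ D.card * ((goodSet P U σ q0 W0).card : ℝ) ≤ ((goodSet P U σ q0 (W0 ∪ D)).card : ℝ) := by
  induction D using Finset.induction_on with
  | empty => simp
  | insert d D hdD ih =>
    have hd' : Disjoint W0 D := by
      rw [Finset.disjoint_insert_right] at hd
      exact hd.2
    have hdW0 : d ∉ W0 := by
      rw [Finset.disjoint_insert_right] at hd
      exact hd.1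
    have hsub : W0 ∪ D ⊆ W := by
      refine Finset.Subset.trans ?_ hW
      exact Finset.union_subset_union_right (Finset.subset_insert _ _)
    have h1 := ih hd' hsub
    have hnot : d ∉ W0 ∪ D := by
      simp [hdW0, hdD]
    have hlt : (W0 ∪ D).card < W.card := by
      apply Finset.card_lt_card
      refine ⟨hsub, fun h => hnot (h (hW ?_))⟩
      simp
    have h2 := IH (W0 ∪ D) hlt d hnot
    have h3 : W0 ∪ insert d D = insert d (W0 ∪ D) := by
      rw [Finset.union_insert]
    rw [h3, Finset.card_insert_of_notMem hdD, pow_succ]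
    calc a ^ D.card * a * ((goodSet P U σ q0 W0).card : ℝ)
        = a * (a ^ D.card * ((goodSet P U σ q0 W0).card : ℝ)) := by ring
      _ ≤ a * ((goodSet P U σ q0 (W0 ∪ D)).card : ℝ) := mul_le_mul_of_nonneg_left h1 ha
      _ ≤ _ := h2

theorem goodSet_step (P : Finset I) (U : I → Finset V) (σ : I → V → Q) (q0 : Q)
    (hw : ∀ v : V, ∑ A ∈ P.filter (fun A => v ∈ U A),
      (2 / (Fintype.card Q : ℝ)) ^ (U A).card ≤ 1)
    (n : ℕ) : ∀ W : Finset V, W.card = n → ∀ v ∉ W,
      ((Fintype.card Q : ℝ) / 2) * ((goodSet P U σ q0 W).card : ℝ) ≤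
        ((goodSet P U σ q0 (insert v W)).card : ℝ) := by
  induction n using Nat.strong_induction_on with
  | _ n IHn =>
  intro W hWn v hv
  set q : ℝ := (Fintype.card Q : ℝ) with hq
  have hqpos : 0 < q := by
    rw [hq]
    have : 0 < Fintype.card Q := Fintype.card_pos_iff.mpr ⟨q0⟩
    exact_mod_cast this
  have IH : ∀ W' : Finset V, W'.card < W.card → ∀ v ∉ W',
      (q / 2) * ((goodSet P U σ q0 W').card : ℝ) ≤
        ((goodSet P U σ q0 (insert v W')).card : ℝ) := by
    intro W' hW' v' hv'
    exact IHn W'.card (by omega) W' rfl v' hv'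
  -- the set of one-step extensions
  let E : Finset (V → Q) :=
    ((goodSet P U σ q0 W) ×ˢ (univ : Finset Q)).image (fun p => Function.update p.1 v p.2)
  have hEmem : ∀ c, c ∈ E ↔ Function.update c v q0 ∈ goodSet P U σ q0 W := by
    intro c
    constructor
    · intro hc
      obtain ⟨p, hp, rfl⟩ := Finset.mem_image.mp hc
      rw [Finset.mem_product] at hp
      have hp0 : p.1 v = q0 := (mem_goodSet.mp hp.1).1 v hv
      have : Function.update (Function.update p.1 v p.2) v q0 = p.1 := by
        rw [Function.update_idem, ← hp0, Function.update_eq_self]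
      rw [this]
      exact hp.1
    · intro hc
      refine Finset.mem_image.mpr ⟨(Function.update c v q0, c v), ?_, ?_⟩
      · simp [hc]
      · simp
  have hEcard : (E.card : ℝ) = q * ((goodSet P U σ q0 W).card : ℝ) := by
    have : E.card = (goodSet P U σ q0 W).card * Fintype.card Q := by
      rw [Finset.card_image_of_injOn, Finset.card_product, Finset.card_univ]
      rintro ⟨c1, a1⟩ h1 ⟨c2, a2⟩ h2 h12
      have h1' := (Finset.mem_product.mp (Finset.mem_coe.mp h1)).1
      have h2' := (Finset.mem_product.mp (Finset.mem_coe.mp h2)).1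
      have e1 : c1 v = q0 := (mem_goodSet.mp h1').1 v hv
      have e2 : c2 v = q0 := (mem_goodSet.mp h2').1 v hv
      have h12' : Function.update c1 v a1 = Function.update c2 v a2 := h12
      have ea : a1 = a2 := by
        have := congrFun h12' v
        simpa using this
      have ec : c1 = c2 := by
        funext u
        by_cases hu : u = v
        · rw [hu, e1, e2]
        · have := congrFun h12' u
          simpa [Function.update_of_ne hu] using this
      rw [ea, ec]
    rw [this, hq]
    push_cast
    ring
  -- the bad extensions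
  let Bad : I → Finset (V → Q) := fun A =>
    E.filter (fun c => U A ⊆ insert v W ∧ ∀ u ∈ U A, c u = σ A u)
  have hcover : E ⊆ goodSet P U σ q0 (insert v W) ∪
      (P.filter (fun A => v ∈ U A)).biUnion Bad := by
    intro c hc
    rw [Finset.mem_union]
    by_cases hcg : c ∈ goodSet P U σ q0 (insert v W)
    · exact Or.inl hcg
    · right
      have hcu := (mem_goodSet.mp ((hEmem c).mp hc))
      rw [mem_goodSet] at hcg
      have hsupp : ∀ u, u ∉ insert v W → c u = q0 := by
        intro u hu
        rw [Finset.mem_insert, not_or] at hu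
        have := hcu.1 u hu.2
        rwa [Function.update_of_ne hu.1] at this
      have hex : ∃ A ∈ P, U A ⊆ insert v W ∧ ∀ u ∈ U A, c u = σ A u := by
        by_contra hno
        apply hcg
        refine ⟨hsupp, ?_⟩
        intro A hA hUA
        by_contra hcon
        apply hno
        refine ⟨A, hA, hUA, ?_⟩
        intro u hu
        by_contra hne
        exact hcon ⟨u, hu, hne⟩
      obtain ⟨A, hA, hUA, hmatch⟩ := hex
      have hvA : v ∈ U A := by
        by_contra hvA
        have hUW : U A ⊆ W := by
          intro u hu
          have := hUA hu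
          rw [Finset.mem_insert] at this
          rcases this with h | h
          · exact absurd (h ▸ hu) hvA
          · exact h
        obtain ⟨u, hu, hne⟩ := hcu.2 A hA hUW
        have huv : u ≠ v := fun h => hvA (h ▸ hu)
        rw [Function.update_of_ne huv] at hne
        exact hne (hmatch u hu)
      rw [Finset.mem_biUnion]
      refine ⟨A, Finset.mem_filter.mpr ⟨hA, hvA⟩, ?_⟩
      exact Finset.mem_filter.mpr ⟨hc, hUA, hmatch⟩
  -- bound on the bad extensions
  have hBad : ∀ A ∈ P.filter (fun A => v ∈ U A),
      ((Bad A).card : ℝ) ≤ (q / 2) * ((goodSet P U σ q0 W).card : ℝ) * (2 / q) ^ (U A).card := by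
    intro A hA
    rw [Finset.mem_filter] at hA
    have hvA := hA.2
    by_cases hUA : U A ⊆ insert v W
    · have hle : (Bad A).card ≤ (goodSet P U σ q0 (W \ U A)).card := by
        apply Finset.card_le_card_of_injOn (fun c => fun u => if u ∈ U A then q0 else c u)
        · intro c hc
          have hc' := Finset.mem_filter.mp (Finset.mem_coe.mp hc)
          have hcE := hc'.1
          have hcu := (mem_goodSet.mp ((hEmem c).mp hcE))
          rw [Finset.mem_coe, mem_goodSet]
          constructor
          · intro u hu
            by_cases huA : u ∈ U A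
            · simp [huA]
            · simp only [huA, if_false]
              have huW : u ∉ W := by
                intro h
                apply hu
                rw [Finset.mem_sdiff]
                exact ⟨h, huA⟩
              have huv : u ≠ v := fun h => huA (h ▸ hvA)
              have := hcu.1 u huW
              rwa [Function.update_of_ne huv] at this
          · intro A' hA' hUA'
            have hUW : U A' ⊆ W := hUA'.trans Finset.sdiff_subset
            obtain ⟨u, hu, hne⟩ := hcu.2 A' hA' hUW
            have huv : u ≠ v := fun h => hv (h ▸ hUW hu)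
            have huA : u ∉ U A := (Finset.mem_sdiff.mp (hUA' hu)).2
            rw [Function.update_of_ne huv] at hne
            refine ⟨u, hu, ?_⟩
            simpa [huA] using hne
        · intro c1 h1 c2 h2 h12
          have h1' := (Finset.mem_filter.mp (Finset.mem_coe.mp h1)).2.2
          have h2' := (Finset.mem_filter.mp (Finset.mem_coe.mp h2)).2.2
          funext u
          by_cases hu : u ∈ U A
          · rw [h1' u hu, h2' u hu]
          · have := congrFun h12 u
            simpa [hu] using this
      have hchain := goodSet_chain P U σ q0 W (q / 2) (by positivity) IH (W \ U A) (W ∩ U A)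
        (by
          rw [Finset.disjoint_left]
          intro u hu hu'
          exact (Finset.mem_sdiff.mp hu).2 (Finset.mem_inter.mp hu').2)
        (by
          intro u hu
          rw [Finset.mem_union] at hu
          rcases hu with h | h
          · exact (Finset.mem_sdiff.mp h).1
          · exact (Finset.mem_inter.mp h).1)
      rw [Finset.sdiff_union_inter] at hchain
      have hcardUA : (U A).card = (W ∩ U A).card + 1 := by
        have : U A = insert v (W ∩ U A) := by
          ext u
          rw [Finset.mem_insert, Finset.mem_inter]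
          constructor
          · intro hu
            have := hUA hu
            rw [Finset.mem_insert] at this
            rcases this with h | h
            · exact Or.inl h
            · exact Or.inr ⟨h, hu⟩
          · rintro (h | h)
            · rw [h]; exact hvA
            · exact h.2
        have hc := congrArg Finset.card this
        rw [Finset.card_insert_of_notMem (fun h => hv (Finset.mem_inter.mp h).1)] at hc
        exact hc
      rw [hcardUA]
      have hle' : ((Bad A).card : ℝ) ≤ ((goodSet P U σ q0 (W \ U A)).card : ℝ) := by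
        exact_mod_cast hle
      have hpow : (0 : ℝ) < (q / 2) ^ (W ∩ U A).card := by positivity
      have hid : (2 / q) ^ ((W ∩ U A).card + 1) * (q / 2) = ((q / 2) ^ (W ∩ U A).card)⁻¹ := by
        rw [pow_succ]
        have h1 : (2 / q) = (q / 2)⁻¹ := by
          rw [inv_div]
        rw [h1, inv_pow]
        field_simp
      calc ((Bad A).card : ℝ) ≤ ((goodSet P U σ q0 (W \ U A)).card : ℝ) := hle'
        _ = ((q / 2) ^ (W ∩ U A).card)⁻¹ *
            ((q / 2) ^ (W ∩ U A).card * ((goodSet P U σ q0 (W \ U A)).card : ℝ)) := by
            rw [← mul_assoc, inv_mul_cancel₀ hpow.ne', one_mul]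
        _ ≤ ((q / 2) ^ (W ∩ U A).card)⁻¹ * ((goodSet P U σ q0 W).card : ℝ) :=
            mul_le_mul_of_nonneg_left hchain (by positivity)
        _ = _ := by
            rw [← hid]
            ring
    · have : Bad A = ∅ := by
        apply Finset.filter_eq_empty_iff.mpr
        intro c _ h
        exact hUA h.1
      rw [this]
      simp only [Finset.card_empty, Nat.cast_zero]
      positivity
  have hsum : (((P.filter (fun A => v ∈ U A)).biUnion Bad).card : ℝ) ≤
      (q / 2) * ((goodSet P U σ q0 W).card : ℝ) := by
    calc (((P.filter (fun A => v ∈ U A)).biUnion Bad).card : ℝ)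
        ≤ ∑ A ∈ P.filter (fun A => v ∈ U A), ((Bad A).card : ℝ) := by
          exact_mod_cast Finset.card_biUnion_le
      _ ≤ ∑ A ∈ P.filter (fun A => v ∈ U A),
          (q / 2) * ((goodSet P U σ q0 W).card : ℝ) * (2 / q) ^ (U A).card :=
          Finset.sum_le_sum hBad
      _ = (q / 2) * ((goodSet P U σ q0 W).card : ℝ) *
          ∑ A ∈ P.filter (fun A => v ∈ U A), (2 / q) ^ (U A).card := by
          rw [Finset.mul_sum]
      _ ≤ (q / 2) * ((goodSet P U σ q0 W).card : ℝ) * 1 :=
          mul_le_mul_of_nonneg_left (hw v) (by positivity)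
      _ = _ := by ring
  have hE2 : (E.card : ℝ) ≤ ((goodSet P U σ q0 (insert v W)).card : ℝ) +
      (((P.filter (fun A => v ∈ U A)).biUnion Bad).card : ℝ) := by
    have := (Finset.card_le_card hcover).trans (Finset.card_union_le _ _)
    exact_mod_cast this
  rw [hEcard] at hE2
  linarith

/-- Finite version. -/
theorem exists_avoiding_fin (P : Finset I) (U : I → Finset V) (σ : I → V → Q) [Nonempty Q]
    (hne : ∀ A ∈ P, (U A).Nonempty)
    (hw : ∀ v : V, ∑ A ∈ P.filter (fun A => v ∈ U A),
      (2 / (Fintype.card Q : ℝ)) ^ (U A).card ≤ 1) :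
    ∃ c : V → Q, ∀ A ∈ P, ∃ v ∈ U A, c v ≠ σ A v := by
  obtain ⟨q0⟩ := (inferInstance : Nonempty Q)
  have key : ∀ W : Finset V, 0 < (goodSet P U σ q0 W).card := by
    intro W
    induction W using Finset.induction_on with
    | empty =>
      rw [Finset.card_pos]
      refine ⟨fun _ => q0, mem_goodSet.mpr ⟨fun _ _ => rfl, ?_⟩⟩
      intro A hA hUA
      obtain ⟨v, hv⟩ := hne A hA
      exact absurd (hUA hv) (Finset.notMem_empty v)
    | insert v W hv ih =>
      have := goodSet_step P U σ q0 hw W.card W rfl v hv
      have hq : (0 : ℝ) < (Fintype.card Q : ℝ) := by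
        have : 0 < Fintype.card Q := Fintype.card_pos_iff.mpr ⟨q0⟩
        exact_mod_cast this
      have hpos : (0 : ℝ) < ((goodSet P U σ q0 W).card : ℝ) := by exact_mod_cast ih
      have : (0 : ℝ) < ((goodSet P U σ q0 (insert v W)).card : ℝ) :=
        lt_of_lt_of_le (by positivity) this
      exact_mod_cast this
  obtain ⟨c, hc⟩ := Finset.card_pos.mp (key univ)
  refine ⟨c, fun A hA => (mem_goodSet.mp hc).2 A hA (Finset.subset_univ _)⟩

end finite

/-- Infinite version, by compactness. -/
theorem exists_avoiding {V I Q : Type*} [Fintype Q] [Nonempty Q]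
    (U : I → Finset V) (σ : I → V → Q)
    (hne : ∀ A, (U A).Nonempty)
    (hw : ∀ (P : Finset I) (v : V), ∑ A ∈ P.filter (fun A => v ∈ U A),
      (2 / (Fintype.card Q : ℝ)) ^ (U A).card ≤ 1) :
    ∃ c : V → Q, ∀ A, ∃ v ∈ U A, c v ≠ σ A v := by
  let _ : TopologicalSpace Q := ⊥
  have : DiscreteTopology Q := ⟨rfl⟩
  have hcl : ∀ A : I, IsClosed {c : V → Q | ∃ v ∈ U A, c v ≠ σ A v} := by
    intro A
    have : {c : V → Q | ∃ v ∈ U A, c v ≠ σ A v} =
        ⋃ v ∈ U A, {c : V → Q | c v ≠ σ A v} := by
      ext c
      simp
    rw [this]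
    apply Set.Finite.isClosed_biUnion (U A).finite_toSet
    intro v _
    have : {c : V → Q | c v ≠ σ A v} = (fun c : V → Q => c v) ⁻¹' {a | a ≠ σ A v} := rfl
    rw [this]
    exact IsClosed.preimage (continuous_apply v) (isClosed_discrete _)
  have hfin : ∀ P : Finset I, (⋂ A ∈ P, {c : V → Q | ∃ v ∈ U A, c v ≠ σ A v}).Nonempty := by
    intro P
    let S : Finset V := P.biUnion U
    have hS : ∀ A ∈ P, U A ⊆ S := fun A hA => Finset.subset_biUnion_of_mem U hA
    obtain ⟨q0⟩ := (inferInstance : Nonempty Q)
    have := exists_avoiding_fin (V := {v // v ∈ S}) (Q := Q) P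
      (fun A => (U A).subtype (fun v => v ∈ S)) (fun A v => σ A v.1)
      (by
        intro A hA
        obtain ⟨v, hv⟩ := hne A
        exact ⟨⟨v, hS A hA hv⟩, by simpa using hv⟩)
      (by
        intro v
        refine le_trans (le_of_eq ?_) (hw P v.1)
        apply Finset.sum_congr
        · ext A
          simp
        · intro A hA
          have hA' := (Finset.mem_filter.mp hA).1
          rw [Finset.card_subtype, Finset.filter_true_of_mem]
          intro u hu
          exact hS A hA' hu)
    obtain ⟨c, hc⟩ := this
    refine ⟨fun v => if h : v ∈ S then c ⟨v, h⟩ else q0, ?_⟩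
    simp only [Set.mem_iInter, Set.mem_ofPred_eq]
    intro A hA
    obtain ⟨v, hv, hne'⟩ := hc A hA
    refine ⟨v.1, by simpa using hv, ?_⟩
    have : v.1 ∈ S := v.2
    simpa [this] using hne'
  obtain ⟨c, hc⟩ := CompactSpace.iInter_nonempty hcl hfin
  refine ⟨c, fun A => ?_⟩
  exact Set.mem_iInter.mp hc A

end Pool.Agent.H67
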