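import Mathlib

/-!
# Percolation on a tree of words

A counting argument: a tree of words in which every vertex has few weighted conflicts contains a
conflict-free subtree which keeps an exponentially controlled proportion of every given level.
-/

set_option autoImplicit false

namespace Pool.Agent.H67

open Finset Classical

/-- The ancestors of a word, itself included. -/
noncomputable def anc {α : Type*} (v : List α) : Finset (List α) := v.tails.toFinset

theorem mem_anc {α : Type*} {u v : List α} : u ∈ anc v ↔ u <:+ v := by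
  rw [anc, List.mem_toFinset, List.mem_tails]

theorem self_mem_anc {α : Type*} (v : List α) : v ∈ anc v := mem_anc.mpr (List.suffix_refl v)

theorem anc_subset {α : Type*} {u v : List α} (h : u <:+ v) : anc u ⊆ anc v :=
  fun _ hx => mem_anc.mpr ((mem_anc.mp hx).trans h)

theorem card_anc_le {α : Type*} (v : List α) : (anc v).card ≤ v.length + 1 := by
  refine (List.toFinset_card_le _).trans ?_
  rw [List.length_tails]

section perc

variable {α : Type*} {W : Finset (List α)} {q : ℕ} [NeZero q]

/-- All ancestors of `v` have colour zero. -/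
def Kept (c : {w // w ∈ W} → Fin q) (v : List α) : Prop :=
  ∀ x : {w // w ∈ W}, x.1 ∈ anc v → c x = 0

/-- The colourings for which `v` is kept and no kept word is in conflict with a member of `S`. -/
noncomputable def evt (Conf : List α → List α → Prop) (v : List α) (S : Finset (List α)) :
    Finset ({w // w ∈ W} → Fin q) :=
  univ.filter (fun c => Kept c v ∧ ∀ a ∈ S, ∀ v' ∈ W, Conf a v' → ¬ Kept c v')

theorem mem_evt {Conf : List α → List α → Prop} {v : List α} {S : Finset (List α)}
    {c : {w // w ∈ W} → Fin q} :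
    c ∈ evt Conf v S ↔ Kept c v ∧ ∀ a ∈ S, ∀ v' ∈ W, Conf a v' → ¬ Kept c v' := by
  simp [evt]

theorem zeroing (E : Finset ({w // w ∈ W} → Fin q)) (B : Finset {w // w ∈ W})
    (hE : ∀ c ∈ E, ∀ c' : {w // w ∈ W} → Fin q, (∀ x, x ∉ B → c' x = c x) →
      (∀ x ∈ B, c x = 0) → c' ∈ E) :
    (E.filter (fun c => ∀ x ∈ B, c x = 0)).card * q ^ B.card ≤ E.card := by
  let P : Finset ({w // w ∈ W} → Fin q) :=
    Fintype.piFinset (fun x => if x ∈ B then univ else {0})
  have hP : P.card = q ^ B.card := by
    rw [Fintype.card_piFinset]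
    have : ∀ x : {w // w ∈ W}, ((if x ∈ B then univ else {0} : Finset (Fin q))).card =
        if x ∈ B then q else 1 := by
      intro x
      split_ifs <;> simp
    simp only [this]
    rw [Finset.prod_ite_mem, Finset.univ_inter, Finset.prod_const]
  rw [← hP, ← Finset.card_product]
  apply Finset.card_le_card_of_injOn (fun p x => if x ∈ B then p.2 x else p.1 x)
  · intro p hp
    rw [Finset.mem_coe, Finset.mem_product, Finset.mem_filter] at hp
    obtain ⟨⟨hE1, h0⟩, _⟩ := hp
    rw [Finset.mem_coe]
    apply hE p.1 hE1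
    · intro x hx
      simp [hx]
    · exact h0
  · rintro ⟨c1, a1⟩ h1 ⟨c2, a2⟩ h2 h12
    rw [Finset.mem_coe, Finset.mem_product, Finset.mem_filter, Fintype.mem_piFinset] at h1 h2
    obtain ⟨⟨_, hc1⟩, ha1⟩ := h1
    obtain ⟨⟨_, hc2⟩, ha2⟩ := h2
    have ec : c1 = c2 := by
      funext x
      by_cases hx : x ∈ B
      · exact (hc1 x hx).trans (hc2 x hx).symm
      · have := congrFun h12 x
        simpa [hx] using this
    have ea : a1 = a2 := by
      funext x
      by_cases hx : x ∈ B
      · have := congrFun h12 x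
        simpa [hx] using this
      · have e1 := ha1 x
        have e2 := ha2 x
        simp only [hx, if_false, Finset.mem_singleton] at e1 e2
        exact e1.trans e2.symm
    rw [ec, ea]

theorem evt_step (hW : ∀ v ∈ W, ∀ u : List α, u <:+ v → u ∈ W)
    (Conf : List α → List α → Prop)
    (h : ∀ v ∈ W, ∀ a ∈ anc v, ∑ v' ∈ W.filter (fun v' => Conf a v'),
      (1 / (q : ℝ)) ^ (anc v' \ anc v).card ≤ 1 / 2)
    (v : List α) (hv : v ∈ W) (S : Finset (List α)) (a : List α) (ha : a ∈ anc v) :
    ((evt (W := W) (q := q) Conf v S).card : ℝ) / 2 ≤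
      ((evt (W := W) (q := q) Conf v (insert a S)).card : ℝ) := by
  have hq : (0 : ℝ) < q := by exact_mod_cast Nat.pos_of_ne_zero (NeZero.ne q)
  set E := evt (W := W) (q := q) Conf v S with hE
  have hcover : E ⊆ evt (W := W) (q := q) Conf v (insert a S) ∪
      (W.filter (fun v' => Conf a v')).biUnion (fun v' => E.filter (fun c => Kept c v')) := by
    intro c hc
    rw [Finset.mem_union]
    by_cases hbad : ∃ v' ∈ W, Conf a v' ∧ Kept c v'
    · right
      obtain ⟨v', hv', h1, h2⟩ := hbad
      rw [Finset.mem_biUnion]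
      exact ⟨v', Finset.mem_filter.mpr ⟨hv', h1⟩, Finset.mem_filter.mpr ⟨hc, h2⟩⟩
    · left
      push Not at hbad
      obtain ⟨h1, h2⟩ := mem_evt.mp hc
      refine mem_evt.mpr ⟨h1, ?_⟩
      intro a' ha' v' hv' hconf
      rcases Finset.mem_insert.mp ha' with rfl | h3
      · exact hbad v' hv' hconf
      · exact h2 a' h3 v' hv' hconf
  have hterm : ∀ v' ∈ W.filter (fun v' => Conf a v'),
      ((E.filter (fun c => Kept c v')).card : ℝ) ≤
        (1 / (q : ℝ)) ^ (anc v' \ anc v).card * (E.card : ℝ) := by
    intro v' hv'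
    rw [Finset.mem_filter] at hv'
    let B : Finset {w // w ∈ W} := (anc v' \ anc v).subtype (fun w => w ∈ W)
    have hB : ∀ x : {w // w ∈ W}, x ∈ B ↔ x.1 ∈ anc v' ∧ x.1 ∉ anc v := by
      intro x
      rw [Finset.mem_subtype, Finset.mem_sdiff]
    have hBcard : B.card = (anc v' \ anc v).card := by
      rw [Finset.card_subtype, Finset.filter_true_of_mem]
      intro x hx
      exact hW v' hv'.1 x (mem_anc.mp (Finset.mem_sdiff.mp hx).1)
    have h1 := zeroing E B (by
      intro c hc c' hcc' hc0
      obtain ⟨h1, h2⟩ := mem_evt.mp hc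
      refine mem_evt.mpr ⟨?_, ?_⟩
      · intro x hx
        rw [hcc' x (fun hxB => ((hB x).mp hxB).2 hx)]
        exact h1 x hx
      · intro a' ha' v'' hv'' hconf hkept
        apply h2 a' ha' v'' hv'' hconf
        intro x hx
        by_cases hxB : x ∈ B
        · exact hc0 x hxB
        · rw [← hcc' x hxB]
          exact hkept x hx)
    have h2 : (E.filter (fun c => Kept c v')).card ≤
        (E.filter (fun c => ∀ x ∈ B, c x = 0)).card := by
      apply Finset.card_le_card
      intro c hc
      rw [Finset.mem_filter] at hc ⊢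
      exact ⟨hc.1, fun x hx => hc.2 x ((hB x).mp hx).1⟩
    have h3 : ((E.filter (fun c => Kept c v')).card : ℝ) * (q : ℝ) ^ (anc v' \ anc v).card ≤
        (E.card : ℝ) := by
      rw [← hBcard]
      have : (E.filter (fun c => Kept c v')).card * q ^ B.card ≤ E.card :=
        (Nat.mul_le_mul_right _ h2).trans h1
      exact_mod_cast this
    rw [one_div, inv_pow, inv_mul_eq_div, le_div_iff₀ (by positivity)]
    exact h3
  have hsum : (((W.filter (fun v' => Conf a v')).biUnion
      (fun v' => E.filter (fun c => Kept c v'))).card : ℝ) ≤ (E.card : ℝ) / 2 := by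
    calc (((W.filter (fun v' => Conf a v')).biUnion
        (fun v' => E.filter (fun c => Kept c v'))).card : ℝ)
        ≤ ∑ v' ∈ W.filter (fun v' => Conf a v'), ((E.filter (fun c => Kept c v')).card : ℝ) := by
          exact_mod_cast Finset.card_biUnion_le
      _ ≤ ∑ v' ∈ W.filter (fun v' => Conf a v'),
          (1 / (q : ℝ)) ^ (anc v' \ anc v).card * (E.card : ℝ) := Finset.sum_le_sum hterm
      _ = (∑ v' ∈ W.filter (fun v' => Conf a v'),
          (1 / (q : ℝ)) ^ (anc v' \ anc v).card) * (E.card : ℝ) := by rw [Finset.sum_mul]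
      _ ≤ (1 / 2) * (E.card : ℝ) :=
          mul_le_mul_of_nonneg_right (h v hv a ha) (Nat.cast_nonneg _)
      _ = (E.card : ℝ) / 2 := by ring
  have h4 : (E.card : ℝ) ≤ ((evt (W := W) (q := q) Conf v (insert a S)).card : ℝ) +
      (((W.filter (fun v' => Conf a v')).biUnion
        (fun v' => E.filter (fun c => Kept c v'))).card : ℝ) := by
    have := (Finset.card_le_card hcover).trans (Finset.card_union_le _ _)
    exact_mod_cast this
  linarith

theorem evt_card (hW : ∀ v ∈ W, ∀ u : List α, u <:+ v → u ∈ W)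
    (Conf : List α → List α → Prop)
    (h : ∀ v ∈ W, ∀ a ∈ anc v, ∑ v' ∈ W.filter (fun v' => Conf a v'),
      (1 / (q : ℝ)) ^ (anc v' \ anc v).card ≤ 1 / 2)
    (v : List α) (hv : v ∈ W) :
    (q : ℝ) ^ W.card * (1 / (2 * (q : ℝ))) ^ (v.length + 1) ≤
      ((evt (W := W) (q := q) Conf v (anc v)).card : ℝ) := by
  have hq1 : 1 ≤ q := Nat.pos_of_ne_zero (NeZero.ne q)
  have hq : (1 : ℝ) ≤ q := by exact_mod_cast hq1
  -- the base case
  have h0 : (q : ℝ) ^ W.card ≤
      ((evt (W := W) (q := q) Conf v ∅).card : ℝ) * (q : ℝ) ^ (anc v).card := by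
    let B : Finset {w // w ∈ W} := (anc v).subtype (fun w => w ∈ W)
    have hBcard : B.card = (anc v).card := by
      rw [Finset.card_subtype, Finset.filter_true_of_mem]
      intro x hx
      exact hW v hv x (mem_anc.mp hx)
    have e1 : evt (W := W) (q := q) Conf v ∅ =
        Fintype.piFinset (fun x => if x ∈ B then {0} else univ) := by
      ext c
      rw [mem_evt, Fintype.mem_piFinset]
      constructor
      · rintro ⟨h1, _⟩ x
        by_cases hx : x ∈ B
        · simp only [hx, if_true, Finset.mem_singleton]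
          exact h1 x (Finset.mem_subtype.mp hx)
        · simp [hx]
      · intro h1
        refine ⟨?_, by simp⟩
        intro x hx
        have := h1 x
        have hxB : x ∈ B := Finset.mem_subtype.mpr hx
        simpa [hxB] using this
    have e2 : (evt (W := W) (q := q) Conf v ∅).card * q ^ B.card = q ^ W.card := by
      rw [e1, Fintype.card_piFinset]
      have : ∀ x : {w // w ∈ W}, ((if x ∈ B then {0} else univ : Finset (Fin q))).card =
          if x ∈ B then 1 else q := by
        intro x
        split_ifs <;> simp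
      simp only [this]
      have e3 : q ^ B.card = ∏ x : {w // w ∈ W}, (if x ∈ B then q else 1) := by
        rw [Finset.prod_ite_mem, Finset.univ_inter, Finset.prod_const]
      rw [e3, ← Finset.prod_mul_distrib]
      have : ∀ x : {w // w ∈ W}, (if x ∈ B then 1 else q) * (if x ∈ B then q else 1) = q := by
        intro x
        split_ifs <;> simp
      simp only [this]
      rw [Finset.prod_const, Finset.card_univ, Fintype.card_coe]
    rw [← hBcard]
    exact_mod_cast e2.ge
  have h1 : ∀ S : Finset (List α), S ⊆ anc v →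
      ((evt (W := W) (q := q) Conf v ∅).card : ℝ) * (1 / 2) ^ S.card ≤
        ((evt (W := W) (q := q) Conf v S).card : ℝ) := by
    intro S
    induction S using Finset.induction_on with
    | empty => intro _; simp
    | insert a S ha ih =>
      intro hS
      have h2 := ih ((Finset.subset_insert a S).trans hS)
      have h3 := evt_step hW Conf h v hv S a (hS (Finset.mem_insert_self a S))
      rw [Finset.card_insert_of_notMem ha, pow_succ]
      linarith
  have h2 := h1 (anc v) (Finset.Subset.refl _)
  have h3 : (0 : ℝ) < (q : ℝ) ^ (anc v).card := by positivity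
  have h4 : (q : ℝ) ^ W.card * (1 / (2 * (q : ℝ))) ^ (anc v).card ≤
      ((evt (W := W) (q := q) Conf v (anc v)).card : ℝ) := by
    refine le_trans ?_ h2
    have e : (1 / (2 * (q : ℝ))) ^ (anc v).card =
        (1 / 2) ^ (anc v).card * ((q : ℝ) ^ (anc v).card)⁻¹ := by
      rw [one_div, mul_inv, mul_pow, inv_pow (q : ℝ), one_div]
    rw [e]
    have h5 : (q : ℝ) ^ W.card * ((q : ℝ) ^ (anc v).card)⁻¹ ≤
        ((evt (W := W) (q := q) Conf v ∅).card : ℝ) := by
      rw [← div_eq_mul_inv, div_le_iff₀ h3]
      exact h0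
    calc (q : ℝ) ^ W.card * ((1 / 2) ^ (anc v).card * ((q : ℝ) ^ (anc v).card)⁻¹)
        = ((q : ℝ) ^ W.card * ((q : ℝ) ^ (anc v).card)⁻¹) * (1 / 2) ^ (anc v).card := by ring
      _ ≤ _ := mul_le_mul_of_nonneg_right h5 (by positivity)
  refine le_trans ?_ h4
  apply mul_le_mul_of_nonneg_left _ (by positivity)
  apply pow_le_pow_of_le_one (by positivity)
  · rw [div_le_one (by positivity)]
    linarith
  · exact card_anc_le v

end perc

/-- **Percolation lemma.** -/
theorem percolation {α : Type*} (W : Finset (List α))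
    (hW : ∀ v ∈ W, ∀ u : List α, u <:+ v → u ∈ W)
    (Conf : List α → List α → Prop) (q : ℕ) (hq : 1 ≤ q)
    (h : ∀ v ∈ W, ∀ a ∈ anc v, ∑ v' ∈ W.filter (fun v' => Conf a v'),
      (1 / (q : ℝ)) ^ (anc v' \ anc v).card ≤ 1 / 2) (n : ℕ) :
    ∃ T : Finset (List α), T ⊆ W ∧ (∀ v ∈ T, ∀ u : List α, u <:+ v → u ∈ T) ∧
      (∀ u ∈ T, ∀ v ∈ T, ¬ Conf u v) ∧
      ((W.filter (fun w => w.length = n)).card : ℝ) * (1 / (2 * (q : ℝ))) ^ (n + 1) ≤
        ((T.filter (fun w => w.length = n)).card : ℝ) := by
  have : NeZero q := ⟨by omega⟩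
  let T : ({w // w ∈ W} → Fin q) → Finset (List α) := fun c =>
    W.filter (fun v => c ∈ evt (W := W) (q := q) Conf v (anc v))
  have hT1 : ∀ c, T c ⊆ W := fun c => Finset.filter_subset _ _
  have hT2 : ∀ c, ∀ v ∈ T c, ∀ u : List α, u <:+ v → u ∈ T c := by
    intro c v hv u hu
    rw [Finset.mem_filter, mem_evt] at hv
    obtain ⟨h1, h2, h3⟩ := hv
    refine Finset.mem_filter.mpr ⟨hW v h1 u hu, mem_evt.mpr ⟨?_, ?_⟩⟩
    · exact fun x hx => h2 x (anc_subset hu hx)
    · exact fun a ha => h3 a (anc_subset hu ha)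
  have hT3 : ∀ c, ∀ u ∈ T c, ∀ v ∈ T c, ¬ Conf u v := by
    intro c u hu v hv hconf
    rw [Finset.mem_filter, mem_evt] at hu hv
    exact hu.2.2 u (self_mem_anc u) v hv.1 hconf hv.2.1
  have hex : ∃ c : {w // w ∈ W} → Fin q,
      ((W.filter (fun w => w.length = n)).card : ℝ) * (1 / (2 * (q : ℝ))) ^ (n + 1) ≤
        (((T c).filter (fun w => w.length = n)).card : ℝ) := by
    by_contra hcon
    push Not at hcon
    have hsum : ∑ c : {w // w ∈ W} → Fin q, (((T c).filter (fun w => w.length = n)).card : ℝ) =
        ∑ v ∈ W.filter (fun w => w.length = n),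
          ((evt (W := W) (q := q) Conf v (anc v)).card : ℝ) := by
      have e1 : ∀ c : {w // w ∈ W} → Fin q,
          (((T c).filter (fun w => w.length = n)).card : ℝ) =
            ∑ v ∈ W.filter (fun w => w.length = n),
              (if c ∈ evt (W := W) (q := q) Conf v (anc v) then (1 : ℝ) else 0) := by
        intro c
        rw [Finset.sum_boole]
        congr 2
        ext v
        simp only [T, Finset.mem_filter]
        tauto
      simp only [e1]
      rw [Finset.sum_comm]
      apply Finset.sum_congr rfl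
      intro v _
      rw [Finset.sum_boole]
      congr 2
      ext c
      simp
    have hlow : ((W.filter (fun w => w.length = n)).card : ℝ) *
        ((q : ℝ) ^ W.card * (1 / (2 * (q : ℝ))) ^ (n + 1)) ≤
        ∑ v ∈ W.filter (fun w => w.length = n),
          ((evt (W := W) (q := q) Conf v (anc v)).card : ℝ) := by
      rw [← nsmul_eq_mul]
      apply Finset.card_nsmul_le_sum
      intro v hv
      rw [Finset.mem_filter] at hv
      have := evt_card hW Conf h v hv.1
      rw [hv.2] at this
      exact this
    have hup : ∑ c : {w // w ∈ W} → Fin q, (((T c).filter (fun w => w.length = n)).card : ℝ) <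
        ∑ _c : {w // w ∈ W} → Fin q, ((W.filter (fun w => w.length = n)).card : ℝ) *
          (1 / (2 * (q : ℝ))) ^ (n + 1) := by
      apply Finset.sum_lt_sum_of_nonempty
      · exact ⟨fun _ => 0, Finset.mem_univ _⟩
      · exact fun c _ => hcon c
    rw [Finset.sum_const, Finset.card_univ, Fintype.card_fun, Fintype.card_fin, Fintype.card_coe,
      nsmul_eq_mul, hsum] at hup
    push_cast at hup
    linarith
  obtain ⟨c, hc⟩ := hex
  exact ⟨T c, hT1 c, hT2 c, hT3 c, hc⟩

end Pool.Agent.H67
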