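import Pool.Agent.H67.Line

/-!
Counting form of concentration for sums of independent bounded variables, and
moments of sums of signs.
-/

set_option autoImplicit false
set_option linter.unusedSectionVars false
set_option linter.unusedSimpArgs false

open Finset BigOperators

namespace Pool.Agent.H67

/-- Counting version of a one sided Hoeffding inequality. -/
lemma count_hoeffding {κ S : Type*} [Fintype κ] [DecidableEq κ] [Fintype S] [Nonempty S]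
    (X : S → ℝ) (b : ℝ) (hb : 0 < b) (hX : ∀ s, |X s| ≤ b) (hmean : ∑ s, X s = 0)
    (δ : ℝ) (hδ0 : 0 ≤ δ) (hδ : δ ≤ 2)
    [DecidablePred fun ω : κ → S => (Fintype.card κ : ℝ) * b * δ ≤ ∑ j, X (ω j)] :
    ((Finset.univ.filter fun ω : κ → S => (Fintype.card κ : ℝ) * b * δ ≤ ∑ j, X (ω j)).card : ℝ)
      ≤ (Fintype.card S : ℝ) ^ (Fintype.card κ) * Real.exp (-(Fintype.card κ : ℝ) * δ ^ 2 / 4) := by
  set N := Fintype.card κ
  set l : ℝ := δ / (2 * b) with hl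
  have hl0 : 0 ≤ l := by positivity
  have step1 : ∑ s, Real.exp (l * X s) ≤ (Fintype.card S : ℝ) * Real.exp (δ ^ 2 / 4) := by
    have hs : ∀ s, Real.exp (l * X s) ≤ 1 + l * X s + δ ^ 2 / 4 := by
      intro s
      have h1 : |l * X s| ≤ δ / 2 := by
        rw [abs_mul, abs_of_nonneg hl0]
        calc l * |X s| ≤ l * b := by gcongr; exact hX s
          _ = δ / 2 := by rw [hl]; field_simp
      have h2 : |l * X s| ≤ 1 := by linarith
      have h3 := (abs_le.mp (Real.abs_exp_sub_one_sub_id_le h2)).2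
      have h4 : (l * X s) ^ 2 ≤ (δ / 2) ^ 2 := by
        rw [← sq_abs]
        exact pow_le_pow_left₀ (abs_nonneg _) h1 2
      nlinarith
    calc ∑ s, Real.exp (l * X s) ≤ ∑ s, (1 + l * X s + δ ^ 2 / 4) := Finset.sum_le_sum fun s _ => hs s
      _ = (Fintype.card S : ℝ) * (1 + δ ^ 2 / 4) := by
          rw [Finset.sum_add_distrib, Finset.sum_add_distrib, ← Finset.mul_sum, hmean]
          simp; ring
      _ ≤ (Fintype.card S : ℝ) * Real.exp (δ ^ 2 / 4) := by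
          gcongr
          linarith [Real.add_one_le_exp (δ ^ 2 / 4)]
  have step2 : ∑ ω : κ → S, Real.exp (l * ∑ j, X (ω j)) = (∑ s, Real.exp (l * X s)) ^ N := by
    have h1 : ∀ ω : κ → S, Real.exp (l * ∑ j, X (ω j)) = ∏ j, Real.exp (l * X (ω j)) := by
      intro ω
      rw [Finset.mul_sum, Real.exp_sum]
    simp_rw [h1]
    have := Finset.sum_prod_piFinset (ι := κ) (Finset.univ : Finset S) (fun _ s => Real.exp (l * X s))
    rw [Fintype.piFinset_univ] at this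
    rw [this]
    simp [N]
  have step3 : ((Finset.univ.filter fun ω : κ → S => (N : ℝ) * b * δ ≤ ∑ j, X (ω j)).card : ℝ)
      * Real.exp ((N : ℝ) * δ ^ 2 / 2) ≤ ∑ ω : κ → S, Real.exp (l * ∑ j, X (ω j)) := by
    calc _ = ∑ _ω ∈ Finset.univ.filter (fun ω : κ → S => (N : ℝ) * b * δ ≤ ∑ j, X (ω j)),
          Real.exp ((N : ℝ) * δ ^ 2 / 2) := by simp
      _ ≤ ∑ ω ∈ Finset.univ.filter (fun ω : κ → S => (N : ℝ) * b * δ ≤ ∑ j, X (ω j)),
          Real.exp (l * ∑ j, X (ω j)) := by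
          refine Finset.sum_le_sum fun ω hω => ?_
          rw [Finset.mem_filter] at hω
          apply Real.exp_le_exp.mpr
          calc (N : ℝ) * δ ^ 2 / 2 = l * ((N : ℝ) * b * δ) := by rw [hl]; field_simp
            _ ≤ l * ∑ j, X (ω j) := by gcongr; exact hω.2
      _ ≤ _ := Finset.sum_le_sum_of_subset_of_nonneg (Finset.filter_subset _ _)
          (fun _ _ _ => (Real.exp_pos _).le)
  have step4 : (∑ s, Real.exp (l * X s)) ^ N
      ≤ (Fintype.card S : ℝ) ^ N * Real.exp ((N:ℝ) * (δ ^ 2 / 4)) := by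
    calc _ ≤ ((Fintype.card S : ℝ) * Real.exp (δ ^ 2 / 4)) ^ N := by
          gcongr
      _ = _ := by rw [mul_pow, ← Real.exp_nat_mul]
  have step5 := step3.trans (step2.le.trans step4)
  have e1 : Real.exp (-(N : ℝ) * δ ^ 2 / 4)
      = Real.exp ((N:ℝ) * (δ ^ 2 / 4)) / Real.exp ((N : ℝ) * δ ^ 2 / 2) := by
    rw [← Real.exp_sub]; congr 1; ring
  rw [e1, ← mul_div_assoc, le_div_iff₀ (Real.exp_pos _)]
  convert step5

/-- Two sided version. -/
lemma count_hoeffding_abs {κ S : Type*} [Fintype κ] [DecidableEq κ] [Fintype S] [Nonempty S]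
    (X : S → ℝ) (b : ℝ) (hb : 0 < b) (hX : ∀ s, |X s| ≤ b) (hmean : ∑ s, X s = 0)
    (δ : ℝ) (hδ0 : 0 ≤ δ) (hδ : δ ≤ 2)
    [DecidablePred fun ω : κ → S => (Fintype.card κ : ℝ) * b * δ ≤ |∑ j, X (ω j)|] :
    ((Finset.univ.filter fun ω : κ → S => (Fintype.card κ : ℝ) * b * δ ≤ |∑ j, X (ω j)|).card : ℝ)
      ≤ 2 * ((Fintype.card S : ℝ) ^ (Fintype.card κ)
        * Real.exp (-(Fintype.card κ : ℝ) * δ ^ 2 / 4)) := by
  classical
  have h1 := count_hoeffding (κ := κ) X b hb hX hmean δ hδ0 hδ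
  have h2 := count_hoeffding (κ := κ) (fun s => - X s) b hb (fun s => by rw [abs_neg]; exact hX s)
    (by rw [Finset.sum_neg_distrib, hmean, neg_zero]) δ hδ0 hδ
  have hsub : (Finset.univ.filter fun ω : κ → S => (Fintype.card κ : ℝ) * b * δ ≤ |∑ j, X (ω j)|)
      ⊆ (Finset.univ.filter fun ω : κ → S => (Fintype.card κ : ℝ) * b * δ ≤ ∑ j, X (ω j))
        ∪ (Finset.univ.filter fun ω : κ → S => (Fintype.card κ : ℝ) * b * δ ≤ ∑ j, - X (ω j)) := by
    intro ω hω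
    rw [Finset.mem_filter] at hω
    rw [Finset.mem_union, Finset.mem_filter, Finset.mem_filter]
    rcases le_abs.mp hω.2 with h | h
    · exact Or.inl ⟨Finset.mem_univ _, h⟩
    · refine Or.inr ⟨Finset.mem_univ _, ?_⟩
      rwa [Finset.sum_neg_distrib]
  have h3 := (Finset.card_le_card hsub).trans (Finset.card_union_le _ _)
  have h4 : ((Finset.univ.filter fun ω : κ → S => (Fintype.card κ : ℝ) * b * δ ≤ |∑ j, X (ω j)|).card : ℝ)
      ≤ ((Finset.univ.filter fun ω : κ → S => (Fintype.card κ : ℝ) * b * δ ≤ ∑ j, X (ω j)).card : ℝ)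
        + ((Finset.univ.filter fun ω : κ → S => (Fintype.card κ : ℝ) * b * δ ≤ ∑ j, - X (ω j)).card : ℝ) := by
    exact_mod_cast h3
  linarith

section moments

variable {ι : Type*} [Fintype ι] [DecidableEq ι]

lemma card_signs : (Fintype.card (ι → ℤˣ) : ℝ) = (2:ℝ) ^ (Fintype.card ι) := by
  rw [Fintype.card_fun, Fintype.card_units_int]; push_cast; rfl

lemma sum_sign_mul (k l : ι) : ∑ ε : ι → ℤˣ, ((sg ε k : ℝ) * (sg ε l : ℝ))
    = if k = l then (2:ℝ) ^ (Fintype.card ι) else 0 := by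
  by_cases h : k = l
  · subst h
    rw [if_pos rfl]
    have : ∀ ε : ι → ℤˣ, ((sg ε k : ℝ) * (sg ε k : ℝ)) = 1 := by
      intro ε
      rcases Int.units_eq_one_or (ε k) with h | h <;> simp [sg, h]
    simp_rw [this]
    rw [Finset.sum_const, Finset.card_univ, nsmul_eq_mul, mul_one, card_signs]
  · rw [if_neg h]
    let e : (ι → ℤˣ) ≃ (ι → ℤˣ) := Equiv.mulLeft (Pi.mulSingle k (-1))
    have h1 : ∑ ε : ι → ℤˣ, ((sg ε k : ℝ) * (sg ε l : ℝ))
        = ∑ ε : ι → ℤˣ, ((sg (e ε) k : ℝ) * (sg (e ε) l : ℝ)) :=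
      (Equiv.sum_comp e fun ε => ((sg ε k : ℝ) * (sg ε l : ℝ))).symm
    have h2 : ∀ ε : ι → ℤˣ, ((sg (e ε) k : ℝ) * (sg (e ε) l : ℝ))
        = - ((sg ε k : ℝ) * (sg ε l : ℝ)) := by
      intro ε
      have hk : sg (e ε) k = - sg ε k := by simp [e, sg]
      have hl : sg (e ε) l = sg ε l := by
        simp [e, sg, Pi.mulSingle_eq_of_ne (Ne.symm h)]
      rw [hk, hl]; push_cast; ring
    simp_rw [h2] at h1
    rw [Finset.sum_neg_distrib] at h1
    linarith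

lemma sum_sq_signs (t : ι → ℝ) :
    ∑ ε : ι → ℤˣ, (∑ k, (sg ε k : ℝ) * t k) ^ 2 = (2:ℝ) ^ (Fintype.card ι) * ∑ k, t k ^ 2 := by
  have h1 : ∀ ε : ι → ℤˣ, (∑ k, (sg ε k : ℝ) * t k) ^ 2
      = ∑ k, ∑ l, (t k * t l) * ((sg ε k : ℝ) * (sg ε l : ℝ)) := by
    intro ε
    rw [sq, Finset.sum_mul_sum]
    refine Finset.sum_congr rfl fun k _ => Finset.sum_congr rfl fun l _ => ?_
    ring
  simp_rw [h1]
  rw [Finset.sum_comm]
  have h2 : ∀ k, ∑ ε : ι → ℤˣ, ∑ l, (t k * t l) * ((sg ε k : ℝ) * (sg ε l : ℝ))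
      = (2:ℝ) ^ (Fintype.card ι) * t k ^ 2 := by
    intro k
    rw [Finset.sum_comm]
    have : ∀ l, ∑ ε : ι → ℤˣ, (t k * t l) * ((sg ε k : ℝ) * (sg ε l : ℝ))
        = if k = l then (t k * t l) * (2:ℝ) ^ (Fintype.card ι) else 0 := by
      intro l
      rw [← Finset.mul_sum, sum_sign_mul]
      split_ifs <;> simp
    simp_rw [this]
    rw [Finset.sum_ite_eq]
    simp; ring
  simp_rw [h2]
  rw [Finset.mul_sum]

lemma sum_abs_signs_le (t : ι → ℝ) :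
    ∑ ε : ι → ℤˣ, |∑ k, (sg ε k : ℝ) * t k| ≤ (2:ℝ) ^ (Fintype.card ι) * √(∑ k, t k ^ 2) := by
  have h1 : (∑ ε : ι → ℤˣ, |∑ k, (sg ε k : ℝ) * t k|) ^ 2
      ≤ ((2:ℝ) ^ (Fintype.card ι)) ^ 2 * ∑ k, t k ^ 2 := by
    have := sq_sum_le_card_mul_sum_sq (s := (Finset.univ : Finset (ι → ℤˣ)))
      (f := fun ε => |∑ k, (sg ε k : ℝ) * t k|)
    rw [Finset.card_univ, card_signs] at this
    simp_rw [sq_abs] at this
    rw [sum_sq_signs] at this
    calc _ ≤ _ := this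
      _ = _ := by ring
  have h2 : 0 ≤ ∑ k, t k ^ 2 := Finset.sum_nonneg fun _ _ => sq_nonneg _
  calc ∑ ε : ι → ℤˣ, |∑ k, (sg ε k : ℝ) * t k|
      ≤ √(((2:ℝ) ^ (Fintype.card ι)) ^ 2 * ∑ k, t k ^ 2) := by
        apply Real.le_sqrt_of_sq_le h1
    _ = _ := by
        rw [Real.sqrt_mul (by positivity), Real.sqrt_sq (by positivity)]

end moments

section fourth

lemma sum_signs_succ (n : ℕ) (φ : ℤ → ℝ) :
    ∑ ε : Fin (n+1) → ℤˣ, φ (∑ k, sg ε k)
      = ∑ ε : Fin n → ℤˣ, (φ (1 + ∑ k, sg ε k) + φ (-1 + ∑ k, sg ε k)) := by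
  rw [← Equiv.sum_comp (Fin.consEquiv (fun _ => ℤˣ)), Fintype.sum_prod_type]
  rw [Finset.sum_comm]
  refine Finset.sum_congr rfl fun ε _ => ?_
  have huniv : (Finset.univ : Finset ℤˣ) = {1, -1} := by decide
  rw [huniv, Finset.sum_pair (by decide)]
  simp [sg, Fin.sum_univ_succ, Fin.consEquiv]

lemma sum_S2 (n : ℕ) : ∑ ε : Fin n → ℤˣ, ((∑ k, sg ε k : ℤ) : ℝ) ^ 2 = (2:ℝ) ^ n * n := by
  induction n with
  | zero => simp
  | succ n ih =>
    have := sum_signs_succ n (fun x => (x:ℝ) ^ 2)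
    rw [this]
    have h : ∀ ε : Fin n → ℤˣ, (((1 + ∑ k, sg ε k : ℤ) : ℝ) ^ 2 + ((-1 + ∑ k, sg ε k : ℤ) : ℝ) ^ 2)
        = 2 + 2 * ((∑ k, sg ε k : ℤ) : ℝ) ^ 2 := by
      intro ε; push_cast; ring
    simp_rw [h]
    rw [Finset.sum_add_distrib, ← Finset.mul_sum, ih]
    simp only [Finset.sum_const, Finset.card_univ, Fintype.card_fun, Fintype.card_units_int,
      Fintype.card_fin, nsmul_eq_mul]
    push_cast; ring

lemma sum_S4 (n : ℕ) : ∑ ε : Fin n → ℤˣ, ((∑ k, sg ε k : ℤ) : ℝ) ^ 4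
    = (2:ℝ) ^ n * (3 * n ^ 2 - 2 * n) := by
  induction n with
  | zero => simp
  | succ n ih =>
    have := sum_signs_succ n (fun x => (x:ℝ) ^ 4)
    rw [this]
    have h : ∀ ε : Fin n → ℤˣ, (((1 + ∑ k, sg ε k : ℤ) : ℝ) ^ 4 + ((-1 + ∑ k, sg ε k : ℤ) : ℝ) ^ 4)
        = 2 + 12 * ((∑ k, sg ε k : ℤ) : ℝ) ^ 2 + 2 * ((∑ k, sg ε k : ℤ) : ℝ) ^ 4 := by
      intro ε; push_cast; ring
    simp_rw [h]
    rw [Finset.sum_add_distrib, Finset.sum_add_distrib, ← Finset.mul_sum, ← Finset.mul_sum, ih, sum_S2]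
    simp only [Finset.sum_const, Finset.card_univ, Fintype.card_fun, Fintype.card_units_int,
      Fintype.card_fin, nsmul_eq_mul]
    push_cast; ring

/-- First absolute moment of a sum of signs. -/
lemma sum_abs_S_ge (n : ℕ) : (2:ℝ) ^ n * (√n / 2) ≤ ∑ ε : Fin n → ℤˣ, |((∑ k, sg ε k : ℤ) : ℝ)| := by
  rcases Nat.eq_zero_or_pos n with rfl | hn
  · simp
  have hnR : (0:ℝ) < n := by exact_mod_cast hn
  set s : ℝ := √n with hs
  have hs0 : 0 < s := Real.sqrt_pos.mpr hnR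
  have hs2 : s ^ 2 = n := Real.sq_sqrt hnR.le
  -- pointwise: |x| ≥ x²·(5/6)/s·... 
  have pt : ∀ x : ℝ, (5/2) * (x ^ 2 / (3 * s) - x ^ 4 / (3 * s) ^ 3) ≤ |x| := by
    intro x
    set u : ℝ := |x| / (3 * s) with hu
    have hu0 : 0 ≤ u := by positivity
    have e1 : |x| = 3 * s * u := by rw [hu]; field_simp
    have e2 : x ^ 2 = (3 * s * u) ^ 2 := by rw [← e1, sq_abs]
    have e4 : x ^ 4 = (3 * s * u) ^ 4 := by
      have : x ^ 4 = (x ^ 2) ^ 2 := by ring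
      rw [this, e2]; ring
    rw [e2, e4, e1]
    have : (5/2) * ((3 * s * u) ^ 2 / (3 * s) - (3 * s * u) ^ 4 / (3 * s) ^ 3)
        = 3 * s * ((5/2) * (u ^ 2 - u ^ 4)) := by field_simp
    rw [this]
    have key : (5/2) * (u ^ 2 - u ^ 4) ≤ u := by
      -- u - (5/2)(u² - u⁴) = u (1 - (5/2) u + (5/2) u³) ≥ 0
      have h3 : 0 ≤ 1 - (5/2) * u + (5/2) * u ^ 3 := by
        nlinarith [sq_nonneg (u - 29/50), mul_nonneg hu0 (sq_nonneg (u - 29/50)), sq_nonneg u]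
      nlinarith [mul_nonneg hu0 h3]
    have : 0 < 3 * s := by positivity
    nlinarith
  have sum_pt : ∑ ε : Fin n → ℤˣ, (5/2) * (((∑ k, sg ε k : ℤ) : ℝ) ^ 2 / (3 * s)
      - ((∑ k, sg ε k : ℤ) : ℝ) ^ 4 / (3 * s) ^ 3) ≤ ∑ ε : Fin n → ℤˣ, |((∑ k, sg ε k : ℤ) : ℝ)| :=
    Finset.sum_le_sum fun ε _ => pt _
  refine le_trans ?_ sum_pt
  rw [← Finset.mul_sum, Finset.sum_sub_distrib, ← Finset.sum_div, ← Finset.sum_div, sum_S2, sum_S4]
  have h2n : (0:ℝ) < (2:ℝ) ^ n := by positivity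
  rw [← hs2]
  have e : (5/2) * ((2:ℝ) ^ n * s ^ 2 / (3 * s) - (2:ℝ) ^ n * (3 * (s ^ 2) ^ 2 - 2 * s ^ 2) / (3 * s) ^ 3)
      = (2:ℝ) ^ n * ((5/2) * (s / 3 - s / 9 + 2 / (27 * s))) := by
    field_simp
    ring
  rw [e]
  have : 0 < 2 / (27 * s) := by positivity
  have h3 : s / 2 ≤ (5/2) * (s / 3 - s / 9 + 2 / (27 * s)) := by linarith
  exact mul_le_mul_of_nonneg_left h3 h2n.le

end fourth

end Pool.Agent.H67
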