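import Pool.Agent.H67.Cocompact
import Pool.Agent.H67.Measure

/-!
# Non-supramenable groups and binary trees
-/

set_option autoImplicit false

namespace Pool.Agent.H67

open Finset Classical Filter
open scoped Pointwise

/-- The metric space given by a connected graph. -/
@[reducible] noncomputable def graphMetric {V : Type*} (Γ : SimpleGraph V) (h : Γ.Connected) :
    MetricSpace V where
  dist x y := (Γ.dist x y : ℝ)
  dist_self x := by simp
  dist_comm x y := by rw [SimpleGraph.dist_comm]
  dist_triangle x y z := by exact_mod_cast h.dist_triangle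
  eq_of_dist_eq_zero := by
    intro x y hxy
    have : Γ.dist x y = 0 := by exact_mod_cast hxy
    exact h.dist_eq_zero_iff.mp this

section

variable {G : Type*} [Group G] {S : Set G}

theorem cayley_adj_mul {s : G} (hs : s ∈ S) (hs1 : s ≠ 1) (g : G) :
    (cayleyGraph S).Adj g (g * s) := by
  rw [cayleyGraph, SimpleGraph.fromRel_adj]
  refine ⟨?_, Or.inl ⟨s, hs, rfl⟩⟩
  intro h
  exact hs1 (by simpa using h)

theorem cayley_reachable (hgen : Subgroup.closure S = ⊤) (k : G) :
    ∀ x : G, (cayleyGraph S).Reachable x (x * k) := by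
  have hk : k ∈ Subgroup.closure S := by rw [hgen]; trivial
  induction hk using Subgroup.closure_induction with
  | mem s hs =>
    intro x
    by_cases h1 : s = 1
    · rw [h1, mul_one]
    · exact (cayley_adj_mul hs h1 x).reachable
  | one =>
    intro x
    rw [mul_one]
  | mul a b _ _ ha hb =>
    intro x
    rw [← mul_assoc]
    exact (ha x).trans (hb (x * a))
  | inv a _ ha =>
    intro x
    have := ha (x * a⁻¹)
    rw [inv_mul_cancel_right] at this
    exact this.symm

theorem cayley_connected (hgen : Subgroup.closure S = ⊤) : (cayleyGraph S).Connected := by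
  constructor
  intro u v
  have := cayley_reachable hgen (u⁻¹ * v) u
  rwa [mul_inv_cancel_left] at this

theorem cayley_dist_mul (hgen : Subgroup.closure S = ⊤) (k : G) :
    ∃ R : ℕ, ∀ x : G, (cayleyGraph S).dist x (x * k) ≤ R := by
  have hk : k ∈ Subgroup.closure S := by rw [hgen]; trivial
  induction hk using Subgroup.closure_induction with
  | mem s hs =>
    refine ⟨1, fun x => ?_⟩
    by_cases h1 : s = 1
    · rw [h1, mul_one, SimpleGraph.dist_self]
      exact Nat.zero_le _
    · exact (SimpleGraph.dist_eq_one_iff_adj.mpr (cayley_adj_mul hs h1 x)).le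
  | one =>
    refine ⟨0, fun x => ?_⟩
    rw [mul_one, SimpleGraph.dist_self]
  | mul a b _ _ ha hb =>
    obtain ⟨R1, h1⟩ := ha
    obtain ⟨R2, h2⟩ := hb
    refine ⟨R1 + R2, fun x => ?_⟩
    rw [← mul_assoc]
    exact ((cayley_connected hgen).dist_triangle).trans (add_le_add (h1 x) (h2 (x * a)))
  | inv a _ ha =>
    obtain ⟨R1, h1⟩ := ha
    refine ⟨R1, fun x => ?_⟩
    have := h1 (x * a⁻¹)
    rw [inv_mul_cancel_right] at this
    rwa [SimpleGraph.dist_comm]

/-- Balls of the Cayley graph are translates of finite sets of exponential size. -/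
theorem cayley_ball (hS : S.Finite) (hgen : Subgroup.closure S = ⊤) :
    ∃ K : Finset G, ∀ (m : ℕ) (x y : G), (cayleyGraph S).dist x y ≤ m → x⁻¹ * y ∈ K ^ m := by
  let K : Finset G := insert 1 (hS.toFinset ∪ hS.toFinset⁻¹)
  have hK1 : (1 : G) ∈ K := Finset.mem_insert_self _ _
  have hwalk : ∀ {x y : G} (p : (cayleyGraph S).Walk x y), x⁻¹ * y ∈ K ^ p.length := by
    intro x y p
    induction p with
    | nil => simp
    | cons h p ih =>
      rename_i a b c
      rw [SimpleGraph.Walk.length_cons, pow_succ', Finset.mem_mul]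
      refine ⟨a⁻¹ * b, ?_, b⁻¹ * c, ih, by group⟩
      rw [cayleyGraph, SimpleGraph.fromRel_adj] at h
      rcases h.2 with ⟨s, hs, hb⟩ | ⟨s, hs, hb⟩
      · apply Finset.mem_insert_of_mem
        apply Finset.mem_union_left
        rw [hb, inv_mul_cancel_left]
        exact hS.mem_toFinset.mpr hs
      · apply Finset.mem_insert_of_mem
        apply Finset.mem_union_right
        rw [Finset.mem_inv]
        exact ⟨s, hS.mem_toFinset.mpr hs, by rw [hb]; group⟩
  refine ⟨K, fun m x y hxy => ?_⟩
  obtain ⟨p, hp⟩ := (cayley_connected hgen x y).exists_walk_length_eq_dist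
  have h1 := hwalk p
  rw [hp] at h1
  exact Finset.pow_subset_pow_right hK1 hxy h1

/-- Covering numbers of the word metric. -/
theorem cayley_cover (hS : S.Finite) (hgen : Subgroup.closure S = ⊤) :
    letI := graphMetric (cayleyGraph S) (cayley_connected hgen)
    ∀ ρ : ℝ, 0 < ρ → ∃ D : ℕ, ∀ (m : ℕ) (x : G), ∃ T : Finset G, T.card ≤ D ^ m ∧
      Metric.closedBall x (m : ℝ) ⊆ ⋃ y ∈ T, Metric.closedBall y ρ := by
  letI := graphMetric (cayleyGraph S) (cayley_connected hgen)
  intro ρ hρ
  obtain ⟨K, hK⟩ := cayley_ball hS hgen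
  refine ⟨K.card, fun m x => ⟨(K ^ m).image (fun k => x * k), ?_, ?_⟩⟩
  · exact Finset.card_image_le.trans Finset.card_pow_le
  · intro y hy
    rw [Metric.mem_closedBall, dist_comm] at hy
    have h1 : (cayleyGraph S).dist x y ≤ m := by
      have : ((cayleyGraph S).dist x y : ℝ) ≤ m := hy
      exact_mod_cast this
    have h2 := hK m x y h1
    simp only [Set.mem_iUnion, exists_prop]
    refine ⟨y, Finset.mem_image.mpr ⟨x⁻¹ * y, h2, mul_inv_cancel_left x y⟩, ?_⟩
    exact Metric.mem_closedBall_self hρ.le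

/-- Finite additivity over a finite family. -/
theorem measure_biUnion {ν : Set G → ENNReal} (h0 : ν ∅ = 0)
    (hadd : ∀ B C : Set G, Disjoint B C → ν (B ∪ C) = ν B + ν C)
    {κ : Type*} (T : Finset κ) (E : κ → Set G)
    (hE : ∀ i ∈ T, ∀ j ∈ T, i ≠ j → Disjoint (E i) (E j)) :
    ν (⋃ i ∈ T, E i) = ∑ i ∈ T, ν (E i) := by
  induction T using Finset.induction_on with
  | empty => simpa using h0
  | insert i T hi ih =>
    rw [Finset.set_biUnion_insert, Finset.sum_insert hi, hadd, ih]
    · intro a ha b hb hab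
      exact hE a (Finset.mem_insert_of_mem ha) b (Finset.mem_insert_of_mem hb) hab
    · rw [Set.disjoint_iUnion₂_right]
      intro j hj
      apply hE i (Finset.mem_insert_self _ _) j (Finset.mem_insert_of_mem hj)
      intro h
      exact hi (h ▸ hj)

/-- An embedded tree obstructs supramenability. -/
theorem not_supramenable_of_tree (hS : S.Finite) (hgen : Subgroup.closure S = ⊤)
    (h : GraphBilipschitzTree (cayleyGraph S)) : ¬ Supramenable G := by
  obtain ⟨f, c, C, hc, hf⟩ := h
  intro hsup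
  have hinj : Function.Injective f := by
    intro u v huv
    by_contra hne
    have h1 := (hf u v).1
    rw [huv, SimpleGraph.dist_self, Nat.cast_zero] at h1
    have h2 : 0 < binTree.dist u v := treeG_connected.pos_dist_of_ne hne
    have h3 : (0 : ℝ) < (binTree.dist u v : ℝ) := by exact_mod_cast h2
    nlinarith
  obtain ⟨μ, hμ1, hμadd, hμinv⟩ := hsup ((Set.range f)⁻¹) (Set.range_nonempty f).inv
  -- right invariant version
  let ν : Set G → ENNReal := fun B => μ B⁻¹
  have hν1 : ν (Set.range f) = 1 := hμ1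
  have hνadd : ∀ B C : Set G, Disjoint B C → ν (B ∪ C) = ν B + ν C := by
    intro B C hBC
    show μ (B ∪ C)⁻¹ = μ B⁻¹ + μ C⁻¹
    rw [Set.union_inv]
    apply hμadd
    rw [Set.disjoint_left] at hBC ⊢
    intro x hx hx'
    exact hBC (Set.mem_inv.mp hx) (Set.mem_inv.mp hx')
  have hνinv : ∀ (g : G) (B : Set G), ν ((fun x => x * g) '' B) = ν B := by
    intro g B
    show μ ((fun x => x * g) '' B)⁻¹ = μ B⁻¹
    rw [← hμinv g⁻¹ B⁻¹]
    congr 1
    ext x
    rw [Set.mem_inv]
    constructor
    · rintro ⟨b, hb, hbx⟩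
      refine ⟨b⁻¹, Set.inv_mem_inv.mpr hb, ?_⟩
      show g⁻¹ * b⁻¹ = x
      have : b * g = x⁻¹ := hbx
      rw [← mul_inv_rev, this, inv_inv]
    · rintro ⟨b, hb, hbx⟩
      refine ⟨b⁻¹, Set.mem_inv.mp hb, ?_⟩
      show b⁻¹ * g = x⁻¹
      have : g⁻¹ * b = x := hbx
      rw [← this, mul_inv_rev, inv_inv]
  have hν0 : ν ∅ = 0 := by
    have h1 := hνadd (Set.range f) ∅ (Set.disjoint_empty _)
    rw [Set.union_empty, hν1] at h1
    by_contra h2
    have h3 : (1 : ENNReal) < 1 + ν ∅ := ENNReal.lt_add_right ENNReal.one_ne_top h2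
    rw [← h1] at h3
    exact lt_irrefl _ h3
  -- finitely many displacements
  obtain ⟨K, hK⟩ := cayley_ball hS hgen
  obtain ⟨m, hm⟩ := exists_nat_ge C
  have hdisp : ∀ (b : Bool) (w : List Bool), (f w)⁻¹ * f (b :: w) ∈ K ^ m := by
    intro b w
    apply hK m
    have h1 := (hf w (b :: w)).2
    have h2 : binTree.dist w (b :: w) = 1 :=
      SimpleGraph.dist_eq_one_iff_adj.mpr (treeG_adj_cons b w).symm
    rw [h2, Nat.cast_one, mul_one] at h1
    exact_mod_cast h1.trans hm
  have hkey : ∀ b : Bool, ν (Set.range (fun w => f (b :: w))) = 1 := by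
    intro b
    let E : G → Set G := fun k => f '' {w | (f w)⁻¹ * f (b :: w) = k}
    have e1 : Set.range f = ⋃ k ∈ K ^ m, E k := by
      ext x
      simp only [Set.mem_iUnion, exists_prop]
      constructor
      · rintro ⟨w, rfl⟩
        exact ⟨_, hdisp b w, w, rfl, rfl⟩
      · rintro ⟨k, _, w, _, rfl⟩
        exact ⟨w, rfl⟩
    have e2 : Set.range (fun w => f (b :: w)) = ⋃ k ∈ K ^ m, (fun x => x * k) '' E k := by
      ext x
      simp only [Set.mem_iUnion, exists_prop]
      constructor
      · rintro ⟨w, rfl⟩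
        refine ⟨_, hdisp b w, f w, ⟨w, rfl, rfl⟩, ?_⟩
        show f w * ((f w)⁻¹ * f (b :: w)) = f (b :: w)
        rw [mul_inv_cancel_left]
      · rintro ⟨k, _, y, ⟨w, hw, rfl⟩, rfl⟩
        refine ⟨w, ?_⟩
        have hw' : (f w)⁻¹ * f (b :: w) = k := hw
        show f (b :: w) = f w * k
        rw [← hw', mul_inv_cancel_left]
    have d1 : ∀ i ∈ K ^ m, ∀ j ∈ K ^ m, i ≠ j → Disjoint (E i) (E j) := by
      intro i _ j _ hij
      rw [Set.disjoint_left]
      rintro x ⟨w, hw, rfl⟩ ⟨w', hw', hww⟩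
      have := hinj hww
      subst this
      have h1 : (f w')⁻¹ * f (b :: w') = i := hw
      have h2 : (f w')⁻¹ * f (b :: w') = j := hw'
      exact hij (h1.symm.trans h2)
    have d2 : ∀ i ∈ K ^ m, ∀ j ∈ K ^ m, i ≠ j →
        Disjoint ((fun x => x * i) '' E i) ((fun x => x * j) '' E j) := by
      intro i _ j _ hij
      rw [Set.disjoint_left]
      rintro x ⟨y, ⟨w, hw, rfl⟩, rfl⟩ ⟨y', ⟨w', hw', rfl⟩, hxx⟩
      have h1 : (f w)⁻¹ * f (b :: w) = i := hw
      have h2 : (f w')⁻¹ * f (b :: w') = j := hw'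
      have h3 : f w' * j = f w * i := hxx
      rw [← h1, ← h2, mul_inv_cancel_left, mul_inv_cancel_left] at h3
      have h4 := hinj h3
      rw [List.cons.injEq] at h4
      rw [h4.2] at h2
      exact hij (h1.symm.trans h2)
    rw [e2, measure_biUnion hν0 hνadd _ _ d2, ← hν1, e1, measure_biUnion hν0 hνadd _ _ d1]
    exact Finset.sum_congr rfl (fun k _ => hνinv k _)
  have hdisj : Disjoint (Set.range (fun w => f (false :: w)))
      (Set.range (fun w => f (true :: w))) := by
    rw [Set.disjoint_left]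
    rintro x ⟨w, rfl⟩ ⟨w', hww⟩
    have := hinj hww
    simp at this
  have hdisj2 : Disjoint (Set.range (fun w => f (false :: w)) ∪
      Set.range (fun w => f (true :: w))) {f []} := by
    rw [Set.disjoint_singleton_right]
    rintro (⟨w, hw⟩ | ⟨w, hw⟩)
    · have := hinj hw
      simp at this
    · have := hinj hw
      simp at this
  have hunion : Set.range f = (Set.range (fun w => f (false :: w)) ∪
      Set.range (fun w => f (true :: w))) ∪ {f []} := by
    ext x
    constructor
    · rintro ⟨w, rfl⟩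
      rcases w with _ | ⟨b, w⟩
      · right
        rfl
      · left
        cases b
        · left
          exact ⟨w, rfl⟩
        · right
          exact ⟨w, rfl⟩
    · rintro ((⟨w, rfl⟩ | ⟨w, rfl⟩) | h)
      · exact ⟨_, rfl⟩
      · exact ⟨_, rfl⟩
      · rw [Set.mem_singleton_iff] at h
        exact ⟨[], h.symm⟩
  have h1 := hν1
  rw [hunion, hνadd _ _ hdisj2, hνadd _ _ hdisj, hkey false, hkey true] at h1
  have h2 : (1 : ENNReal) < 1 + 1 := by norm_num
  have h3 : (1 : ENNReal) + 1 ≤ 1 + 1 + ν {f []} := le_self_add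
  rw [h1] at h3
  exact absurd h2 (not_lt.mpr h3)

/-- A non-supramenable finitely generated group has an expanding subset. -/
theorem expanding_of_not_supramenable (hgen : Subgroup.closure S = ⊤)
    (h : ¬ Supramenable G) :
    letI := graphMetric (cayleyGraph S) (cayley_connected hgen)
    ExpandingSubset G := by
  letI := graphMetric (cayleyGraph S) (cayley_connected hgen)
  rw [Supramenable] at h
  push Not at h
  obtain ⟨A, hA, hμ⟩ := h
  have hK : ∃ K : Finset G, ∀ F : Finset G, (F : Set G) ⊆ A⁻¹ → F.Nonempty →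
      2 * F.card ≤ (nb A⁻¹ K F).card := by
    by_contra hcon
    push Not at hcon
    obtain ⟨ν, h1, h2, h3⟩ := exists_measure hcon
    obtain ⟨g, B, hgB⟩ := hμ (fun B => ν B⁻¹) h1 (by
      intro B C hBC
      show ν (B ∪ C)⁻¹ = ν B⁻¹ + ν C⁻¹
      rw [Set.union_inv]
      apply h2
      rw [Set.disjoint_left] at hBC ⊢
      intro x hx hx'
      exact hBC (Set.mem_inv.mp hx) (Set.mem_inv.mp hx'))
    apply hgB
    show ν ((fun x => g * x) '' B)⁻¹ = ν B⁻¹
    rw [← h3 g⁻¹ B⁻¹]
    congr 1
    ext x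
    rw [Set.mem_inv]
    constructor
    · rintro ⟨b, hb, hbx⟩
      refine ⟨b⁻¹, Set.inv_mem_inv.mpr hb, ?_⟩
      show b⁻¹ * g⁻¹ = x
      have : g * b = x⁻¹ := hbx
      rw [← mul_inv_rev, this, inv_inv]
    · rintro ⟨b, hb, hbx⟩
      refine ⟨b⁻¹, Set.mem_inv.mp hb, ?_⟩
      show g * b⁻¹ = x⁻¹
      have : b * g⁻¹ = x := hbx
      rw [← this, mul_inv_rev, inv_inv]
  obtain ⟨K, hK⟩ := hK
  -- a bound for the displacement by elements of K
  obtain ⟨R, hR⟩ : ∃ R : ℕ, ∀ k ∈ K, ∀ x : G, (cayleyGraph S).dist x (x * k) ≤ R := by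
    choose r hr using cayley_dist_mul hgen
    refine ⟨K.sup r, fun k hk x => (hr k x).trans (Finset.le_sup (f := r) hk)⟩
  refine ⟨A⁻¹, 1, R, hA.inv, one_pos, ?_, ?_⟩
  · intro a _ b _ hab
    have h1 : 0 < (cayleyGraph S).dist a b := (cayley_connected hgen).pos_dist_of_ne hab
    have h2 : (1 : ℝ) ≤ ((cayleyGraph S).dist a b : ℝ) := by exact_mod_cast h1
    exact h2
  · intro F hF
    rcases F.eq_empty_or_nonempty with h0 | hne
    · rw [h0, Finset.card_empty, mul_zero]
      exact zero_le
    · have h1 := hK F hF hne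
      have h2 : ((nb A⁻¹ K F : Finset G) : Set G) ⊆
          {a : G | a ∈ A⁻¹ ∧ ∃ x ∈ F, dist x a ≤ (R : ℝ)} := by
        intro a ha
        obtain ⟨⟨x, hx, k, hk, rfl⟩, haA⟩ := mem_nb.mp (Finset.mem_coe.mp ha)
        refine ⟨haA, x, hx, ?_⟩
        have h3 : ((cayleyGraph S).dist x (x * k) : ℝ) ≤ (R : ℝ) := by
          exact_mod_cast hR k hk x
        exact h3
      calc ((2 * F.card : ℕ) : ℕ∞) ≤ ((nb A⁻¹ K F).card : ℕ∞) := by exact_mod_cast h1
        _ = ((nb A⁻¹ K F : Finset G) : Set G).encard :=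
            (Set.encard_coe_eq_coe_finsetCard _).symm
        _ ≤ _ := Set.encard_le_encard h2

/-- **Non-supramenable = contains a tree.** -/
theorem group_tfae (hS : S.Finite) (hgen : Subgroup.closure S = ⊤) :
    List.TFAE [GraphCoarseTree (cayleyGraph S), GraphBilipschitzTree (cayleyGraph S),
      ¬ Supramenable G] := by
  letI := graphMetric (cayleyGraph S) (cayley_connected hgen)
  have h := tree_tfae (cayley_cover hS hgen)
  have e1 : GraphCoarseTree (cayleyGraph S) ↔ CoarseTree G := Iff.rfl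
  have e2 : GraphBilipschitzTree (cayleyGraph S) ↔ BilipschitzTree G := Iff.rfl
  tfae_have 1 → 2 := fun h1 => e2.mpr ((h.out 0 2).mp (e1.mp h1))
  tfae_have 2 → 1 := fun h1 => e1.mpr ((h.out 0 2).mpr (e2.mp h1))
  tfae_have 2 → 3 := not_supramenable_of_tree hS hgen
  tfae_have 3 → 2 := fun h3 =>
    e2.mpr ((h.out 5 2).mp (expanding_of_not_supramenable hgen h3))
  tfae_finish

end

end Pool.Agent.H67
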