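import Pool.Agent.H67.TreeDefs

/-!
# Supramenable groups, Cayley graphs and binary trees in graphs
-/

namespace Pool.Agent.H67

/-- A group is supramenable (Rosenblatt) if for every nonempty subset `A` there is a finitely
additive measure `μ` on all subsets of `G`, with values in `[0, ∞]`, which is invariant under left
translations and satisfies `μ A = 1`. -/
def Supramenable (G : Type*) [Group G] : Prop :=
  ∀ A : Set G, A.Nonempty → ∃ μ : Set G → ENNReal, μ A = 1 ∧
    (∀ B C : Set G, Disjoint B C → μ (B ∪ C) = μ B + μ C) ∧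
    ∀ (g : G) (B : Set G), μ ((fun x => g * x) '' B) = μ B

/-- The Cayley graph of `G` with respect to `S`: edges join `g` to `g * s` for `s ∈ S`. Its graph
distance is the (left-invariant) word metric of `S` when `S` generates `G`. -/
def cayleyGraph {G : Type*} [Group G] (S : Set G) : SimpleGraph G :=
  SimpleGraph.fromRel (fun g h : G => ∃ s ∈ S, h = g * s)

/-- The binary tree embeds coarsely into the graph `Γ` (with its graph distance). -/
def GraphCoarseTree {V : Type*} (Γ : SimpleGraph V) : Prop :=
  ∃ (f : List Bool → V) (rhoL rhoU : ℝ → ℝ),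
    Filter.Tendsto rhoL Filter.atTop Filter.atTop ∧
    ∀ u v : List Bool, rhoL (binTree.dist u v : ℝ) ≤ (Γ.dist (f u) (f v) : ℝ) ∧
      (Γ.dist (f u) (f v) : ℝ) ≤ rhoU (binTree.dist u v : ℝ)

/-- The binary tree embeds bi-Lipschitzly into the graph `Γ` (with its graph distance). -/
def GraphBilipschitzTree {V : Type*} (Γ : SimpleGraph V) : Prop :=
  ∃ (f : List Bool → V) (c C : ℝ), 0 < c ∧
    ∀ u v : List Bool, c * (binTree.dist u v : ℝ) ≤ (Γ.dist (f u) (f v) : ℝ) ∧
      (Γ.dist (f u) (f v) : ℝ) ≤ C * (binTree.dist u v : ℝ)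

end Pool.Agent.H67
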