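import Pool.Agent.H67.TreeSel

/-!
# The binary tree as a graph on words, and maps from it into metric spaces
-/

set_option autoImplicit false

namespace Pool.Agent.H67

open Finset Classical

/-- The binary tree on finite words: the two children of `q` are `false :: q` and `true :: q`. -/
abbrev treeG : SimpleGraph (List Bool) :=
  SimpleGraph.fromRel (fun p q : List Bool => ∃ b : Bool, p = b :: q)

theorem treeG_adj {u v : List Bool} :
    treeG.Adj u v ↔ (∃ b : Bool, u = b :: v) ∨ (∃ b : Bool, v = b :: u) := by
  rw [SimpleGraph.fromRel_adj]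
  constructor
  · exact fun h => h.2
  · intro h
    refine ⟨?_, h⟩
    rintro rfl
    rcases h with ⟨b, h⟩ | ⟨b, h⟩
    · exact absurd (congrArg List.length h) (by simp)
    · exact absurd (congrArg List.length h) (by simp)

theorem treeG_adj_cons (b : Bool) (w : List Bool) : treeG.Adj (b :: w) w :=
  treeG_adj.mpr (Or.inl ⟨b, rfl⟩)

theorem treeG_reachable_append (s w : List Bool) : treeG.Reachable (s ++ w) w := by
  induction s with
  | nil => exact SimpleGraph.Reachable.refl _
  | cons b s ih => exact (treeG_adj_cons b (s ++ w)).reachable.trans ih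

theorem treeG_connected : treeG.Connected := by
  constructor
  intro u v
  have h1 := treeG_reachable_append u []
  have h2 := treeG_reachable_append v []
  rw [List.append_nil] at h1 h2
  exact h1.trans h2.symm

theorem treeG_dist_append (s w : List Bool) : treeG.dist (s ++ w) w ≤ s.length := by
  induction s with
  | nil => simp
  | cons b s ih =>
    have h1 : treeG.dist (b :: (s ++ w)) (s ++ w) = 1 :=
      SimpleGraph.dist_eq_one_iff_adj.mpr (treeG_adj_cons b (s ++ w))
    have h2 := treeG_connected.dist_triangle (u := b :: (s ++ w)) (v := s ++ w) (w := w)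
    rw [List.cons_append, List.length_cons]
    omega

theorem treeG_dist_append_append (s t w : List Bool) :
    treeG.dist (s ++ w) (t ++ w) ≤ s.length + t.length := by
  have h1 := treeG_dist_append s w
  have h2 := treeG_dist_append t w
  have h3 := treeG_connected.dist_triangle (u := s ++ w) (v := w) (w := t ++ w)
  rw [SimpleGraph.dist_comm (u := w)] at h3
  omega

theorem suffix_of_walk {u v : List Bool} (p : treeG.Walk u v) :
    ∀ z : List Bool, z <:+ u → z.length + p.length ≤ u.length → z <:+ v := by
  induction p with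
  | nil => exact fun z h _ => h
  | cons h p ih =>
    intro z hz hlen
    rw [SimpleGraph.Walk.length_cons] at hlen
    apply ih
    · rcases treeG_adj.mp h with ⟨b, hb⟩ | ⟨b, hb⟩
      · subst hb
        rcases List.suffix_cons_iff.mp hz with h' | h'
        · rw [h'] at hlen
          omega
        · exact h'
      · rw [hb]
        exact hz.trans (List.suffix_cons b _)
    · rcases treeG_adj.mp h with ⟨b, hb⟩ | ⟨b, hb⟩
      · have := congrArg List.length hb
        rw [List.length_cons] at this
        omega
      · have := congrArg List.length hb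
        rw [List.length_cons] at this
        omega

/-- Balls inside a level of the tree are small. -/
theorem card_level_ball (n m : ℕ) (u : List Bool) (hu : u.length = n) :
    ((lvl Bool n).filter (fun v => treeG.dist u v ≤ m)).card ≤ 2 ^ m := by
  have hsub : (lvl Bool n).filter (fun v => treeG.dist u v ≤ m) ⊆
      (lvl Bool (min m n)).image (fun s => s ++ u.drop m) := by
    intro v hv
    rw [Finset.mem_filter, mem_lvl] at hv
    obtain ⟨p, hp⟩ := (treeG_connected u v).exists_walk_length_eq_dist
    rw [Finset.mem_image]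
    rcases le_total m n with h | h
    · have hz : u.drop m <:+ v := by
        apply suffix_of_walk p _ (List.drop_suffix m u)
        rw [List.length_drop, hu]
        omega
      obtain ⟨s, hs⟩ := hz
      refine ⟨s, ?_, hs⟩
      rw [mem_lvl]
      have := congrArg List.length hs
      rw [List.length_append, List.length_drop, hv.1, hu] at this
      omega
    · refine ⟨v, ?_, ?_⟩
      · rw [mem_lvl, hv.1]
        omega
      · rw [List.drop_eq_nil_of_le (by omega), List.append_nil]
  calc _ ≤ ((lvl Bool (min m n)).image (fun s => s ++ u.drop m)).card := Finset.card_le_card hsub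
    _ ≤ (lvl Bool (min m n)).card := Finset.card_image_le
    _ = 2 ^ (min m n) := by rw [card_lvl, Fintype.card_bool]
    _ ≤ 2 ^ m := Nat.pow_le_pow_right (by norm_num) (min_le_left _ _)

/-- Every two words have a last common ancestor. -/
theorem exists_meet (u v : List Bool) : ∃ w s t : List Bool, u = s ++ w ∧ v = t ++ w ∧
    ∀ β : Bool, ¬ ([β] <:+ s ∧ [β] <:+ t) := by
  induction u using List.reverseRecOn generalizing v with
  | nil =>
    refine ⟨[], [], v, rfl, (List.append_nil v).symm, ?_⟩
    rintro β ⟨h, _⟩
    exact absurd h (by simp)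
  | append_singleton u a ih =>
    rcases List.eq_nil_or_concat v with h | ⟨v', b, h⟩
    · subst h
      refine ⟨[], u ++ [a], [], by simp, rfl, ?_⟩
      rintro β ⟨_, h⟩
      exact absurd h (by simp)
    · subst h
      by_cases hab : a = b
      · subst hab
        obtain ⟨w, s, t, h1, h2, h3⟩ := ih v'
        refine ⟨w ++ [a], s, t, ?_, ?_, h3⟩
        · rw [h1, List.append_assoc]
        · rw [h2]
          simp
      · refine ⟨[], u ++ [a], v' ++ [b], by simp, by simp, ?_⟩
        rintro β ⟨h1, h2⟩
        apply hab
        obtain ⟨r, hr⟩ := h1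
        obtain ⟨r', hr'⟩ := h2
        have e1 := (List.append_inj' hr rfl).2
        have e2 := (List.append_inj' hr' rfl).2
        simp only [List.cons.injEq, and_true] at e1 e2
        rw [← e1, ← e2]

section metric

variable {X : Type*} [PseudoMetricSpace X]

theorem dist_le_of_edges (f : List Bool → X) (C : ℝ)
    (hf : ∀ (w : List Bool) (b : Bool), dist (f (b :: w)) (f w) ≤ C) (u v : List Bool) :
    dist (f u) (f v) ≤ C * (treeG.dist u v : ℝ) := by
  obtain ⟨p, hp⟩ := (treeG_connected u v).exists_walk_length_eq_dist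
  rw [← hp]
  clear hp
  induction p with
  | nil => simp
  | cons h p ih =>
    rename_i a b c
    have h1 : dist (f a) (f b) ≤ C := by
      rcases treeG_adj.mp h with ⟨β, hb⟩ | ⟨β, hb⟩
      · rw [hb]
        exact hf _ _
      · rw [hb, dist_comm]
        exact hf _ _
    rw [SimpleGraph.Walk.length_cons]
    push_cast
    calc dist (f a) (f c) ≤ dist (f a) (f b) + dist (f b) (f c) := dist_triangle _ _ _
      _ ≤ C + C * (p.length : ℝ) := add_le_add h1 ih
      _ = C * ((p.length : ℝ) + 1) := by ring

theorem dist_append_le (f : List Bool → X) (C : ℝ)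
    (hf : ∀ (w : List Bool) (b : Bool), dist (f (b :: w)) (f w) ≤ C) (s w : List Bool) :
    dist (f (s ++ w)) (f w) ≤ C * (s.length : ℝ) := by
  induction s with
  | nil => simp
  | cons b s ih =>
    rw [List.cons_append, List.length_cons]
    push_cast
    calc dist (f (b :: (s ++ w))) (f w)
        ≤ dist (f (b :: (s ++ w))) (f (s ++ w)) + dist (f (s ++ w)) (f w) := dist_triangle _ _ _
      _ ≤ C + C * (s.length : ℝ) := add_le_add (hf _ _) ih
      _ = C * ((s.length : ℝ) + 1) := by ring

/-- **Straightening.** A Lipschitz map of the tree with small multiplicity on the levels, into a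
space whose balls can be covered by exponentially few small balls, yields a bi-Lipschitz
embedding of the tree. -/
theorem exists_bilipschitz (f : List Bool → X) (C : ℝ)
    (hf : ∀ (w : List Bool) (b : Bool), dist (f (b :: w)) (f w) ≤ C) (ρ : ℝ) (k D : ℕ)
    (hk : ∀ (n : ℕ) (x : X), ((lvl Bool n).filter (fun w => dist (f w) x ≤ ρ)).card ≤ k)
    (hD : ∀ (m : ℕ) (x : X), ∃ T : Finset X, T.card ≤ D ^ m ∧
      Metric.closedBall x (m : ℝ) ⊆ ⋃ y ∈ T, Metric.closedBall y ρ) :
    ∃ (F : List Bool → X) (c c' : ℝ), 0 < c ∧ ∀ u v : List Bool,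
      c * (treeG.dist u v : ℝ) ≤ dist (F u) (F v) ∧
      dist (F u) (F v) ≤ c' * (treeG.dist u v : ℝ) := by
  obtain ⟨κ, hκ1, hκ⟩ : ∃ κ : ℕ, 1 ≤ κ ∧ D ≤ 2 ^ κ := by
    refine ⟨D + 1, by omega, ?_⟩
    exact (Nat.le_succ D).trans Nat.lt_two_pow_self.le
  have hκpos : (0 : ℝ) < κ := by exact_mod_cast hκ1
  have H : ∀ (n M : ℕ) (x : X),
      ((lvl Bool n).filter (fun w => dist (f w) x < (1 / (κ : ℝ)) * M)).card ≤
        (k * 2 ^ κ) * 2 ^ M := by
    intro n M x
    obtain ⟨T, hT, hcov⟩ := hD (M / κ + 1) x
    have hsub : (lvl Bool n).filter (fun w => dist (f w) x < (1 / (κ : ℝ)) * M) ⊆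
        T.biUnion (fun y => (lvl Bool n).filter (fun w => dist (f w) y ≤ ρ)) := by
      intro w hw
      rw [Finset.mem_filter] at hw
      have h1 : f w ∈ Metric.closedBall x ((M / κ + 1 : ℕ) : ℝ) := by
        rw [Metric.mem_closedBall]
        refine hw.2.le.trans ?_
        rw [one_div, inv_mul_le_iff₀ hκpos]
        have h2 : M < κ * (M / κ + 1) := Nat.lt_mul_div_succ M hκ1
        exact_mod_cast h2.le
      have h3 := hcov h1
      simp only [Set.mem_iUnion, Metric.mem_closedBall, exists_prop] at h3
      obtain ⟨y, hy, hwy⟩ := h3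
      rw [Finset.mem_biUnion]
      exact ⟨y, hy, Finset.mem_filter.mpr ⟨hw.1, hwy⟩⟩
    calc _ ≤ (T.biUnion (fun y => (lvl Bool n).filter (fun w => dist (f w) y ≤ ρ))).card :=
          Finset.card_le_card hsub
      _ ≤ T.card * k := Finset.card_biUnion_le_card_mul _ _ _ (fun y _ => hk n y)
      _ ≤ D ^ (M / κ + 1) * k := Nat.mul_le_mul_right _ hT
      _ ≤ (2 ^ κ) ^ (M / κ + 1) * k := Nat.mul_le_mul_right _ (Nat.pow_le_pow_left hκ _)
      _ = 2 ^ (κ * (M / κ + 1)) * k := by rw [← pow_mul]
      _ ≤ 2 ^ (M + κ) * k := by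
          apply Nat.mul_le_mul_right
          apply Nat.pow_le_pow_right (by norm_num)
          have := Nat.mul_div_le M κ
          rw [Nat.mul_add, Nat.mul_one]
          omega
      _ = (k * 2 ^ κ) * 2 ^ M := by rw [pow_add]; ring
  obtain ⟨N, h, hh, hsep⟩ := exists_separated_subtree (fun x y : X => dist x y)
    (fun _ _ => dist_nonneg) (fun x y => dist_comm x y) f (k * 2 ^ κ) (1 / (κ : ℝ)) H
  refine ⟨fun w => f (h w), 1 / (κ : ℝ), C * N, by positivity, ?_⟩
  intro u v
  constructor
  · obtain ⟨w, s, t, hu, hv, hdiv⟩ := exists_meet u v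
    have h1 := hsep w s t hdiv
    rw [← hu, ← hv] at h1
    refine le_trans ?_ h1
    apply mul_le_mul_of_nonneg_left _ (by positivity)
    rw [hu, hv]
    exact_mod_cast treeG_dist_append_append s t w
  · apply dist_le_of_edges (fun w => f (h w)) (C * N)
    intro w b
    obtain ⟨s, hs, hhs⟩ := hh w b
    show dist (f (h (b :: w))) (f (h w)) ≤ C * N
    rw [hhs, ← hs]
    exact dist_append_le f C hf s (h w)

end metric

end Pool.Agent.H67
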