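import Pool.Agent.H67.Pattern

/-!
# Selecting a separated subtree

Given a map from the tree of words whose levels are spread out, a block subtree is selected whose
image is linearly separated.
-/

set_option autoImplicit false

namespace Pool.Agent.H67

open Finset Classical

/-- The words of length `n`. -/
noncomputable def lvl (α : Type*) [Fintype α] (n : ℕ) : Finset (List α) :=
  (univ : Finset (List.Vector α n)).image List.Vector.toList

theorem mem_lvl {α : Type*} [Fintype α] {n : ℕ} {w : List α} : w ∈ lvl α n ↔ w.length = n := by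
  unfold lvl
  simp only [Finset.mem_image, Finset.mem_univ, true_and]
  constructor
  · rintro ⟨a, rfl⟩
    exact a.toList_length
  · intro h
    exact ⟨⟨w, h⟩, rfl⟩

theorem card_lvl {α : Type*} [Fintype α] (n : ℕ) : (lvl α n).card = Fintype.card α ^ n := by
  unfold lvl
  rw [Finset.card_image_of_injective _ List.Vector.toList_injective, Finset.card_univ, card_vector]

section words

variable {Q : Type*}

/-- The variables read when climbing from `z` along `s`. -/
noncomputable def vars (z : List (Bool × Q)) : List (Bool × Q) → Finset (List (Bool × Q) × Bool)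
  | [] => ∅
  | p :: s => insert (s ++ z, p.1) (vars z s)

/-- The colouring `c` follows the word `s` above `z`. -/
def Follow (c : List (Bool × Q) × Bool → Q) (z : List (Bool × Q)) : List (Bool × Q) → Prop
  | [] => True
  | p :: s => c (s ++ z, p.1) = p.2 ∧ Follow c z s

theorem mem_vars {z : List (Bool × Q)} : ∀ {s : List (Bool × Q)} {v : List (Bool × Q) × Bool},
    v ∈ vars z s ↔ ∃ p s1 s2, s = s1 ++ p :: s2 ∧ v = (s2 ++ z, p.1)
  | [], v => by simp [vars]
  | p :: s, v => by
    rw [vars, Finset.mem_insert, mem_vars]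
    constructor
    · rintro (h | ⟨p', s1, s2, hs, hv⟩)
      · exact ⟨p, [], s, rfl, h⟩
      · exact ⟨p', p :: s1, s2, by rw [hs]; rfl, hv⟩
    · rintro ⟨p', s1, s2, hs, hv⟩
      cases s1 with
      | nil =>
        left
        simp only [List.nil_append, List.cons.injEq] at hs
        rw [hv, hs.1, hs.2]
      | cons a s1 =>
        right
        simp only [List.cons_append, List.cons.injEq] at hs
        exact ⟨p', s1, s2, hs.2, hv⟩

theorem vars_length {z s : List (Bool × Q)} {v : List (Bool × Q) × Bool} (h : v ∈ vars z s) :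
    z.length ≤ v.1.length ∧ v.1.length < z.length + s.length ∧
      z = v.1.drop (v.1.length - z.length) := by
  obtain ⟨p, s1, s2, hs, hv⟩ := mem_vars.mp h
  rw [hv, hs]
  refine ⟨?_, ?_, ?_⟩
  · simp
  · simp only [List.length_append, List.length_cons]
    omega
  · simp

theorem card_vars (z : List (Bool × Q)) : ∀ s : List (Bool × Q), (vars z s).card = s.length
  | [] => by simp [vars]
  | p :: s => by
    rw [vars, Finset.card_insert_of_notMem, card_vars z s]
    · simp
    · intro h
      have := (vars_length h).2.1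
      simp only [List.length_append] at this
      omega

/-- No common first step. -/
def Div {α : Type*} (s t : List (Bool × α)) : Prop :=
  ∀ (β : Bool) (a a' : α), ¬ ([(β, a)] <:+ s ∧ [(β, a')] <:+ t)

theorem Div.symm {α : Type*} {s t : List (Bool × α)} (h : Div s t) : Div t s :=
  fun β a a' h' => h β a' a ⟨h'.2, h'.1⟩

theorem disjoint_vars {z s t : List (Bool × Q)} (h : Div s t) :
    Disjoint (vars z s) (vars z t) := by
  rw [Finset.disjoint_left]
  intro v hs ht
  obtain ⟨p, s1, s2, hs, hv⟩ := mem_vars.mp hs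
  obtain ⟨p', t1, t2, ht, hv'⟩ := mem_vars.mp ht
  rw [hv] at hv'
  have h1 : s2 ++ z = t2 ++ z := congrArg Prod.fst hv'
  have h2 : p.1 = p'.1 := congrArg Prod.snd hv'
  have h3 : s2 = t2 := List.append_cancel_right h1
  rcases List.eq_nil_or_concat s2 with h4 | ⟨L, r, h4⟩
  · subst h3
    subst h4
    apply h p.1 p.2 p'.2
    constructor
    · exact ⟨s1, by rw [hs]⟩
    · refine ⟨t1, ?_⟩
      rw [ht, h2]
  · subst h3
    apply h r.1 r.2 r.2
    constructor
    · refine ⟨s1 ++ p :: L, ?_⟩
      rw [hs, h4]
      simp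
    · refine ⟨t1 ++ p' :: L, ?_⟩
      rw [ht, h4]
      simp

theorem follow_iff {c0 c : List (Bool × Q) × Bool → Q} {z : List (Bool × Q)} :
    ∀ {s : List (Bool × Q)}, Follow c0 z s → (Follow c z s ↔ ∀ v ∈ vars z s, c v = c0 v)
  | [], _ => by simp [Follow, vars]
  | p :: s, h => by
    obtain ⟨h1, h2⟩ := h
    rw [Follow, follow_iff h2]
    constructor
    · rintro ⟨h3, h4⟩ v hv
      rw [vars, Finset.mem_insert] at hv
      rcases hv with hv | hv
      · rw [hv, h3, h1]
      · exact h4 v hv
    · intro h3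
      refine ⟨?_, ?_⟩
      · rw [h3 (s ++ z, p.1) (by rw [vars]; exact Finset.mem_insert_self _ _), h1]
      · intro v hv
        exact h3 v (by rw [vars]; exact Finset.mem_insert_of_mem hv)

end words

theorem geom_eight (n : ℕ) : ∑ j ∈ range (n + 1), (8 : ℝ) ^ j ≤ 2 * 8 ^ n := by
  induction n with
  | zero => norm_num
  | succ n ih =>
    rw [Finset.sum_range_succ]
    have : (0 : ℝ) < 8 ^ n := by positivity
    calc ∑ j ∈ range (n + 1), (8 : ℝ) ^ j + 8 ^ (n + 1) ≤ 2 * 8 ^ n + 8 ^ (n + 1) := by linarith
      _ ≤ 2 * 8 ^ (n + 1) := by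
        rw [pow_succ]
        linarith

theorem two_mul_succ_le (n : ℕ) : 2 * ((n : ℝ) + 1) ≤ 4 ^ (n + 1) := by
  induction n with
  | zero => norm_num
  | succ n ih =>
    push_cast
    rw [pow_succ]
    have : (0 : ℝ) ≤ n := Nat.cast_nonneg n
    nlinarith

/-- The weight estimate. -/
theorem weight_sum_le (k0 : ℕ) (hk0 : 1 ≤ k0) (q : ℝ) (hq : 256 * (k0 : ℝ) ≤ q) (N : ℕ) :
    ∑ i ∈ range N, ∑ j ∈ range (i + 2),
      ((i : ℝ) + 1) * (2 * q) ^ j * (k0 * 2 ^ (i + 1 + j)) * (2 / q) ^ (i + 1 + j) ≤ 1 := by
  have hk : (1 : ℝ) ≤ k0 := by exact_mod_cast hk0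
  have hqpos : 0 < q := by linarith
  have h1 : ∀ i ∈ range N, ∑ j ∈ range (i + 2),
      ((i : ℝ) + 1) * (2 * q) ^ j * (k0 * 2 ^ (i + 1 + j)) * (2 / q) ^ (i + 1 + j) ≤
        (1 / 2) * (1 / 2) ^ i := by
    intro i _
    have e : ∀ j, ((i : ℝ) + 1) * (2 * q) ^ j * (k0 * 2 ^ (i + 1 + j)) * (2 / q) ^ (i + 1 + j) =
        (k0 * ((i : ℝ) + 1) * (4 / q) ^ (i + 1)) * 8 ^ j := by
      intro j
      have e1 : (2 : ℝ) ^ (i + 1 + j) * (2 / q) ^ (i + 1 + j) = (4 / q) ^ (i + 1) * (4 / q) ^ j := by
        rw [← mul_pow, ← pow_add]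
        congr 1
        ring
      have e2 : (2 * q) ^ j * (4 / q) ^ j = 8 ^ j := by
        rw [← mul_pow]
        congr 1
        field_simp
        norm_num
      calc ((i : ℝ) + 1) * (2 * q) ^ j * (k0 * 2 ^ (i + 1 + j)) * (2 / q) ^ (i + 1 + j)
          = ((i : ℝ) + 1) * k0 * (2 * q) ^ j * (2 ^ (i + 1 + j) * (2 / q) ^ (i + 1 + j)) := by ring
        _ = ((i : ℝ) + 1) * k0 * (4 / q) ^ (i + 1) * ((2 * q) ^ j * (4 / q) ^ j) := by
            rw [e1]; ring
        _ = _ := by rw [e2]; ring
    simp only [e]
    rw [← Finset.mul_sum]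
    have h2 := geom_eight (i + 1)
    have h3 : (0 : ℝ) ≤ k0 * ((i : ℝ) + 1) * (4 / q) ^ (i + 1) := by positivity
    have h4 := two_mul_succ_le i
    have h5 : (128 / q) ≤ 1 / (2 * k0) := by
      rw [div_le_div_iff₀ hqpos (by positivity)]
      linarith
    have h6 : (128 / q) ≤ 1 / 2 := by
      refine h5.trans ?_
      rw [div_le_div_iff₀ (by positivity) (by norm_num)]
      linarith
    calc (k0 * ((i : ℝ) + 1) * (4 / q) ^ (i + 1)) * ∑ j ∈ range (i + 2), (8 : ℝ) ^ j
        ≤ (k0 * ((i : ℝ) + 1) * (4 / q) ^ (i + 1)) * (2 * 8 ^ (i + 1)) :=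
          mul_le_mul_of_nonneg_left h2 h3
      _ = k0 * (2 * ((i : ℝ) + 1)) * ((4 / q) ^ (i + 1) * 8 ^ (i + 1)) := by ring
      _ ≤ k0 * 4 ^ (i + 1) * ((4 / q) ^ (i + 1) * 8 ^ (i + 1)) := by
          apply mul_le_mul_of_nonneg_right _ (by positivity)
          exact mul_le_mul_of_nonneg_left h4 (by positivity)
      _ = k0 * (128 / q) ^ (i + 1) := by
          rw [← mul_pow, mul_assoc, ← mul_pow]
          congr 2
          ring
      _ = k0 * (128 / q) * (128 / q) ^ i := by rw [pow_succ]; ring
      _ ≤ k0 * (1 / (2 * k0)) * (1 / 2) ^ i := by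
          apply mul_le_mul
          · exact mul_le_mul_of_nonneg_left h5 (by positivity)
          · exact pow_le_pow_left₀ (by positivity) h6 i
          · positivity
          · positivity
      _ = (1 / 2) * (1 / 2) ^ i := by
          congr 1
          field_simp
  calc _ ≤ ∑ i ∈ range N, (1 / 2 : ℝ) * (1 / 2) ^ i := Finset.sum_le_sum h1
    _ = (1 / 2) * ∑ i ∈ range N, (1 / 2 : ℝ) ^ i := by rw [Finset.mul_sum]
    _ ≤ (1 / 2) * 2 := mul_le_mul_of_nonneg_left (sum_geometric_two_le N) (by norm_num)
    _ = 1 := by norm_num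

section select

variable {Q X : Type*} [Fintype Q] [Nonempty Q]

/-- Conflicting pairs of words above a base word. -/
def Conf (d : X → X → ℝ) (g : List (Bool × Q) → X) (c : ℝ) : Type _ :=
  {A : List (Bool × Q) × List (Bool × Q) × List (Bool × Q) //
    Div A.2.1 A.2.2 ∧ A.2.2.length ≤ A.2.1.length ∧
    d (g (A.2.1 ++ A.1)) (g (A.2.2 ++ A.1)) < c * ((A.2.1.length + A.2.2.length : ℕ) : ℝ) ∧
    ∃ c0 : List (Bool × Q) × Bool → Q, Follow c0 A.1 A.2.1 ∧ Follow c0 A.1 A.2.2}

theorem select (d : X → X → ℝ) (hd0 : ∀ x y, 0 ≤ d x y) (hsymm : ∀ x y, d x y = d y x)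
    (g : List (Bool × Q) → X) (k0 : ℕ) (hk0 : 1 ≤ k0) (c : ℝ)
    (hq : 256 * k0 ≤ Fintype.card Q)
    (H : ∀ (n M : ℕ) (x : X),
      ((lvl (Bool × Q) n).filter (fun u => d (g u) x < c * M)).card ≤ k0 * 2 ^ M) :
    ∃ χ : List (Bool × Q) × Bool → Q, ∀ z s t : List (Bool × Q), Div s t →
      Follow χ z s → Follow χ z t →
      c * ((s.length + t.length : ℕ) : ℝ) ≤ d (g (s ++ z)) (g (t ++ z)) := by
  let I := Conf d g c
  let U : I → Finset (List (Bool × Q) × Bool) := fun A => vars A.1.1 A.1.2.1 ∪ vars A.1.1 A.1.2.2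
  let σ : I → (List (Bool × Q) × Bool) → Q := fun A => A.2.2.2.2.choose
  have hσ : ∀ A : I, Follow (σ A) A.1.1 A.1.2.1 ∧ Follow (σ A) A.1.1 A.1.2.2 :=
    fun A => A.2.2.2.2.choose_spec
  have hUcard : ∀ A : I, (U A).card = A.1.2.1.length + A.1.2.2.length := by
    intro A
    have := Finset.card_union_of_disjoint (disjoint_vars (z := A.1.1) A.2.1)
    rw [show U A = vars A.1.1 A.1.2.1 ∪ vars A.1.1 A.1.2.2 from rfl, this, card_vars, card_vars]
  have hpos : ∀ A : I, 1 ≤ A.1.2.1.length := by
    intro A
    by_contra h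
    have h0 : A.1.2.1.length = 0 := by omega
    have h1 : A.1.2.2.length = 0 := by
      have := A.2.2.1
      omega
    have h2 := A.2.2.2.1
    rw [h0, h1] at h2
    simp only [add_zero, Nat.cast_zero, mul_zero] at h2
    exact absurd h2 (not_lt.mpr (hd0 _ _))
  have hne : ∀ A : I, (U A).Nonempty := by
    intro A
    rw [← Finset.card_pos, hUcard]
    have := hpos A
    omega
  set q : ℝ := (Fintype.card Q : ℝ) with hqdef
  have hqR : 256 * (k0 : ℝ) ≤ q := by
    rw [hqdef]
    exact_mod_cast hq
  have hw : ∀ (P : Finset I) (v : List (Bool × Q) × Bool),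
      ∑ A ∈ P.filter (fun A => v ∈ U A), (2 / q) ^ (U A).card ≤ 1 := by
    intro P v
    set S := P.filter (fun A => v ∈ U A) with hS
    obtain ⟨N, hN⟩ : ∃ N : ℕ, ∀ A ∈ S, A.1.2.1.length ≤ N := by
      refine ⟨S.sup (fun A => A.1.2.1.length), fun A hA => ?_⟩
      exact Finset.le_sup (f := fun A : I => A.1.2.1.length) hA
    have hmaps1 : ∀ A ∈ S, A.1.2.1.length - 1 ∈ range N := by
      intro A hA
      rw [Finset.mem_range]
      have := hN A hA
      have := hpos A
      omega
    rw [← Finset.sum_fiberwise_of_maps_to hmaps1]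
    have hinner : ∀ i ∈ range N, ∑ A ∈ S.filter (fun A => A.1.2.1.length - 1 = i),
        (2 / q) ^ (U A).card ≤ ∑ j ∈ range (i + 2),
          ((i : ℝ) + 1) * (2 * q) ^ j * (k0 * 2 ^ (i + 1 + j)) * (2 / q) ^ (i + 1 + j) := by
      intro i _
      have hmaps2 : ∀ A ∈ S.filter (fun A => A.1.2.1.length - 1 = i),
          A.1.2.2.length ∈ range (i + 2) := by
        intro A hA
        rw [Finset.mem_range]
        have h1 := (Finset.mem_filter.mp hA).2
        have h2 := A.2.2.1
        omega
      rw [← Finset.sum_fiberwise_of_maps_to hmaps2]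
      apply Finset.sum_le_sum
      intro j _
      set F := (S.filter (fun A => A.1.2.1.length - 1 = i)).filter
        (fun A => A.1.2.2.length = j) with hF
      have hFmem : ∀ A ∈ F, A ∈ S ∧ A.1.2.1.length = i + 1 ∧ A.1.2.2.length = j := by
        intro A hA
        rw [hF, Finset.mem_filter, Finset.mem_filter] at hA
        have := hpos A
        exact ⟨hA.1.1, by omega, hA.2⟩
      have hcongr : ∑ A ∈ F, (2 / q) ^ (U A).card = (F.card : ℝ) * (2 / q) ^ (i + 1 + j) := by
        rw [Finset.sum_congr rfl (g := fun _ => (2 / q) ^ (i + 1 + j))]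
        · rw [Finset.sum_const, nsmul_eq_mul]
        · intro A hA
          obtain ⟨_, h1, h2⟩ := hFmem A hA
          rw [hUcard, h1, h2]
      rw [hcongr]
      -- counting
      let w := v.1
      let Z : Finset (ℕ × List (Bool × Q) × List (Bool × Q)) :=
        (range (i + 1)).biUnion fun e => (lvl (Bool × Q) j).biUnion fun t =>
          ((lvl (Bool × Q) ((w.drop e).length + (i + 1))).filter
            (fun u => d (g u) (g (t ++ w.drop e)) < c * ((i + 1 + j : ℕ) : ℝ))).image
              (fun u => (e, t, u))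
      have hZ : Z.card ≤ (i + 1) * ((2 * Fintype.card Q) ^ j * (k0 * 2 ^ (i + 1 + j))) := by
        refine (Finset.card_biUnion_le).trans ?_
        refine (Finset.sum_le_card_nsmul _ _
          ((2 * Fintype.card Q) ^ j * (k0 * 2 ^ (i + 1 + j))) ?_).trans ?_
        · intro e _
          refine (Finset.card_biUnion_le).trans ?_
          refine (Finset.sum_le_card_nsmul _ _ (k0 * 2 ^ (i + 1 + j)) ?_).trans ?_
          · intro t _
            exact (Finset.card_image_le).trans (H _ _ _)
          · rw [card_lvl, Fintype.card_prod, Fintype.card_bool, smul_eq_mul]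
        · rw [Finset.card_range, smul_eq_mul]
      have hvmem : ∀ A ∈ F, A.1.1.length ≤ w.length ∧ w.length < A.1.1.length + (i + 1) ∧
          A.1.1 = w.drop (w.length - A.1.1.length) := by
        intro A hA
        obtain ⟨h0, h1, h2⟩ := hFmem A hA
        have hv : v ∈ U A := (Finset.mem_filter.mp h0).2
        rcases Finset.mem_union.mp hv with h | h
        · have := vars_length h
          rw [h1] at this
          exact this
        · have h3 := vars_length h
          refine ⟨h3.1, ?_, h3.2.2⟩
          have h4 := A.2.2.1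
          have h5 := h3.2.1
          have h6 : w.length = v.1.length := rfl
          omega
      have hFZ : F.card ≤ Z.card := by
        apply Finset.card_le_card_of_injOn
          (fun A => (w.length - A.1.1.length, A.1.2.2, A.1.2.1 ++ A.1.1))
        · intro A hA
          have hA' := Finset.mem_coe.mp hA
          obtain ⟨h0, h1, h2⟩ := hFmem A hA'
          obtain ⟨h3, h4, h5⟩ := hvmem A hA'
          rw [Finset.mem_coe, Finset.mem_biUnion]
          refine ⟨w.length - A.1.1.length, Finset.mem_range.mpr (by omega), ?_⟩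
          rw [Finset.mem_biUnion]
          refine ⟨A.1.2.2, mem_lvl.mpr h2, ?_⟩
          refine Finset.mem_image.mpr ⟨A.1.2.1 ++ A.1.1, ?_, rfl⟩
          rw [Finset.mem_filter, mem_lvl, ← h5]
          refine ⟨?_, ?_⟩
          · rw [List.length_append, h1]
            omega
          · have h6 := A.2.2.2.1
            rw [h1, h2] at h6
            exact h6
        · intro A hA B hB hAB
          have hA' := Finset.mem_coe.mp hA
          have hB' := Finset.mem_coe.mp hB
          obtain ⟨_, _, a5⟩ := hvmem A hA'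
          obtain ⟨_, _, b5⟩ := hvmem B hB'
          simp only [Prod.mk.injEq] at hAB
          obtain ⟨e1, e2, e3⟩ := hAB
          have ez : A.1.1 = B.1.1 := by
            rw [a5, b5, e1]
          have es : A.1.2.1 = B.1.2.1 := by
            rw [ez] at e3
            exact List.append_cancel_right e3
          apply Subtype.ext
          exact Prod.ext ez (Prod.ext es e2)
      have hFR : (F.card : ℝ) ≤ ((i : ℝ) + 1) * (2 * q) ^ j * (k0 * 2 ^ (i + 1 + j)) := by
        have : F.card ≤ (i + 1) * ((2 * Fintype.card Q) ^ j * (k0 * 2 ^ (i + 1 + j))) :=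
          hFZ.trans hZ
        have h' : (F.card : ℝ) ≤
            (((i + 1) * ((2 * Fintype.card Q) ^ j * (k0 * 2 ^ (i + 1 + j))) : ℕ) : ℝ) := by
          exact_mod_cast this
        refine h'.trans (le_of_eq ?_)
        push_cast
        rw [hqdef]
        ring
      apply mul_le_mul_of_nonneg_right hFR
      have : 0 ≤ q := by
        rw [hqdef]
        exact Nat.cast_nonneg _
      positivity
    exact (Finset.sum_le_sum hinner).trans (weight_sum_le k0 hk0 q hqR N)
  obtain ⟨χ, hχ⟩ := exists_avoiding U σ hne (by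
    intro P v
    convert hw P v)
  have key : ∀ z s t : List (Bool × Q), Div s t → t.length ≤ s.length →
      Follow χ z s → Follow χ z t →
      c * ((s.length + t.length : ℕ) : ℝ) ≤ d (g (s ++ z)) (g (t ++ z)) := by
    intro z s t hdiv hlen hs ht
    by_contra hcon
    rw [not_le] at hcon
    let A : I := ⟨(z, s, t), hdiv, hlen, hcon, χ, hs, ht⟩
    obtain ⟨v, hv, hne'⟩ := hχ A
    apply hne'
    rcases Finset.mem_union.mp hv with h | h
    · exact (follow_iff (hσ A).1).mp hs v h
    · exact (follow_iff (hσ A).2).mp ht v h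
  refine ⟨χ, fun z s t hdiv hs ht => ?_⟩
  rcases le_total t.length s.length with h | h
  · exact key z s t hdiv h hs ht
  · have := key z t s hdiv.symm h ht hs
    rw [hsymm, add_comm]
    exact this

end select

section final

/-- Lift of a binary word along a colouring. -/
def lft {Q : Type*} (χ : List (Bool × Q) × Bool → Q) (z : List (Bool × Q)) :
    List Bool → List (Bool × Q)
  | [] => []
  | β :: s => (β, χ (lft χ z s ++ z, β)) :: lft χ z s

theorem follow_lft {Q : Type*} (χ : List (Bool × Q) × Bool → Q) (z : List (Bool × Q)) :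
    ∀ s : List Bool, Follow χ z (lft χ z s)
  | [] => trivial
  | _ :: s => ⟨rfl, follow_lft χ z s⟩

theorem map_fst_lft {Q : Type*} (χ : List (Bool × Q) × Bool → Q) (z : List (Bool × Q)) :
    ∀ s : List Bool, (lft χ z s).map Prod.fst = s
  | [] => rfl
  | β :: s => by rw [lft, List.map_cons, map_fst_lft χ z s]

theorem length_lft {Q : Type*} (χ : List (Bool × Q) × Bool → Q) (z : List (Bool × Q))
    (s : List Bool) : (lft χ z s).length = s.length := by
  have := congrArg List.length (map_fst_lft χ z s)
  rwa [List.length_map] at this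

theorem lft_append {Q : Type*} (χ : List (Bool × Q) × Bool → Q) (z : List (Bool × Q))
    (w : List Bool) : ∀ s : List Bool,
    lft χ z (s ++ w) = lft χ (lft χ z w ++ z) s ++ lft χ z w
  | [] => rfl
  | β :: s => by
    rw [List.cons_append, lft, lft, lft_append χ z w s]
    simp

/-- Block coding. -/
def code {l : ℕ} (p : Bool × (Fin l → Bool)) : List Bool := p.1 :: List.ofFn p.2

theorem length_code {l : ℕ} (p : Bool × (Fin l → Bool)) : (code p).length = l + 1 := by
  simp [code]

theorem code_injective {l : ℕ} : Function.Injective (code (l := l)) := by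
  rintro ⟨b, a⟩ ⟨b', a'⟩ h
  simp only [code, List.cons.injEq] at h
  have := List.ofFn_injective h.2
  rw [h.1, this]

theorem flatMap_code_injective {l : ℕ} :
    Function.Injective (fun u : List (Bool × (Fin l → Bool)) => u.flatMap code) := by
  intro u
  induction u with
  | nil =>
    intro v h
    cases v with
    | nil => rfl
    | cons b v =>
      simp [code] at h
  | cons a u ih =>
    intro v h
    cases v with
    | nil =>
      simp [code] at h
    | cons b v =>
      simp only [List.flatMap_cons] at h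
      have h1 := List.append_inj h (by rw [length_code, length_code])
      rw [code_injective h1.1, ih h1.2]

theorem length_flatMap_code {l : ℕ} (u : List (Bool × (Fin l → Bool))) :
    (u.flatMap code).length = (l + 1) * u.length := by
  induction u with
  | nil => simp
  | cons a u ih =>
    rw [List.flatMap_cons, List.length_append, ih, length_code, List.length_cons]
    ring

/-- **Selection of a separated binary subtree.** -/
theorem exists_separated_subtree {X : Type*} (d : X → X → ℝ) (hd0 : ∀ x y, 0 ≤ d x y)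
    (hsymm : ∀ x y, d x y = d y x) (f : List Bool → X) (k0 : ℕ) (c : ℝ)
    (H : ∀ (n M : ℕ) (x : X),
      ((lvl Bool n).filter (fun w => d (f w) x < c * M)).card ≤ k0 * 2 ^ M) :
    ∃ (N : ℕ) (h : List Bool → List Bool),
      (∀ (w : List Bool) (b : Bool), ∃ s : List Bool, s.length = N ∧ h (b :: w) = s ++ h w) ∧
      ∀ w s t : List Bool, (∀ β : Bool, ¬ ([β] <:+ s ∧ [β] <:+ t)) →
        c * ((s.length + t.length : ℕ) : ℝ) ≤ d (f (h (s ++ w))) (f (h (t ++ w))) := by
  let l : ℕ := 256 * (k0 + 1)
  let Q := Fin l → Bool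
  let g : List (Bool × Q) → X := fun u => f (u.flatMap code)
  have hq : 256 * (k0 + 1) ≤ Fintype.card Q := by
    have : Fintype.card Q = 2 ^ l := by
      simp [Q]
    rw [this]
    exact Nat.lt_two_pow_self.le
  have H' : ∀ (n M : ℕ) (x : X),
      ((lvl (Bool × Q) n).filter (fun u => d (g u) x < c * M)).card ≤ (k0 + 1) * 2 ^ M := by
    intro n M x
    refine le_trans ?_ ((H ((l + 1) * n) M x).trans ?_)
    · apply Finset.card_le_card_of_injOn (fun u => u.flatMap code)
      · intro u hu
        have hu' := Finset.mem_filter.mp (Finset.mem_coe.mp hu)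
        rw [Finset.mem_coe, Finset.mem_filter, mem_lvl, length_flatMap_code, mem_lvl.mp hu'.1]
        exact ⟨rfl, hu'.2⟩
      · intro u _ v _ huv
        exact flatMap_code_injective huv
    · exact Nat.mul_le_mul_right _ (Nat.le_succ _)
  obtain ⟨χ, hχ⟩ := select d hd0 hsymm g (k0 + 1) (Nat.le_add_left 1 k0) c hq H'
  refine ⟨l + 1, fun w => (lft χ [] w).flatMap code, ?_, ?_⟩
  · intro w b
    refine ⟨code (b, χ (lft χ [] w ++ [], b)), length_code _, ?_⟩
    simp only [lft, List.flatMap_cons]
  · intro w s t hdiv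
    set z := lft χ [] w with hz
    have e1 : lft χ [] (s ++ w) = lft χ z s ++ z := by
      rw [lft_append, ← hz, List.append_nil]
    have e2 : lft χ [] (t ++ w) = lft χ z t ++ z := by
      rw [lft_append, ← hz, List.append_nil]
    have hD : Div (lft χ z s) (lft χ z t) := by
      intro β a a' hh
      apply hdiv β
      constructor
      · have := hh.1.map Prod.fst
        rwa [map_fst_lft] at this
      · have := hh.2.map Prod.fst
        rwa [map_fst_lft] at this
    have := hχ z (lft χ z s) (lft χ z t) hD (follow_lft χ z s) (follow_lft χ z t)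
    rw [length_lft, length_lft] at this
    show _ ≤ d (f ((lft χ [] (s ++ w)).flatMap code)) (f ((lft χ [] (t ++ w)).flatMap code))
    rw [e1, e2]
    exact this

end final

end Pool.Agent.H67
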